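import Pool.Agent.LBK.Ida

/-!
# LBK/Idb (size 3): the elements `b1`, `b2`, `ga`

`bb11`: `b1 b1' = P3^2 Kf^2 - P0 P3 Kf Bg + P0^2 Kf Kq = Kf N^2` (`'` = `s -> -s`; use `a11`'s
identity `P3^2 Kf - P0 P3 Bg + P0^2 Kq = N^2` and `(Bg - s)(Bg + s)/4 = Kf Kq` from `dg_eq`).
`Kf b2 = b1 (Bg + s)/2` (multiply out), so `bb12`, `bb22` if `Kf <> 0`.
`pos`: `Kf <> 0` and `N <> 0` since `Df < 0` (`df_eq`, `dg_eq`).  Put `m = P9 N - P6 (Bf + s)/2`.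
`m m' = N Kf^2` (ring in `P6 .. P11`: `N P9^2 - Bf P9 P6 + Nq P6^2 = Kf^2`), and
`N (Kf)^2 = m m'`, `N Kf (Bg + s)/2 = m (P10 N - P7 (Bf - s)/2)`,
`N ((Bg + s)/2)^2 = m (P11 N - P8 (Bf - s)/2)` (expand; `s^2 = Df`; real and `s`-part are
identities in `P6 .. P11`).  With `b1 Kf = b1 Kf`, `b2 Kf = b1 (Bg+s)/2` and `g := b1^2 m / Kf^2`:
`N b1^2 = g m'`, `N b1 b2 = g (P10 N - P7 (Bf-s)/2)`, `N b2^2 = g (P11 N - P8 (Bf-s)/2)`.
`g g' = (Kf N^2)^2 N Kf^2 / Kf^4 = N^5`.  From `a11`: `N^5 = N (N^2)^2 = N (P3 b1 - P0 b2)^2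
= g (SS N - TT (Bf-s)/2) = g ga'`.  So `ga' = g'`, `ga = g`.  Signs: put `s = i sqrt(-Df)`:
`b1 b1' = |b1|^2 > 0` gives `Kf > 0`, `g g' > 0` gives `N > 0` (`g <> 0`).
-/

set_option autoImplicit false

namespace Pool.Agent.LBK

open NumberField Pool.Agent.FTA Pool.Agent.FTB Pool.Agent.SMI Pool.Agent.PP5 nonZeroDivisors

private theorem sneg {P : Sp} {s : ℂ} (hs : s ^ 2 = (Df P : ℂ)) : (-s) ^ 2 = (Df P : ℂ) := by
  rw [neg_sq]; exact hs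

private theorem kne (P : Sp) (h : Qd P) (hD : Df P < 0) : Kf P ≠ 0 := by
  intro h0
  have := dg_eq P h
  rw [h0] at this
  nlinarith [sq_nonneg (Bg P)]

private theorem nne (P : Sp) (h : Qd P) (hD : Df P < 0) : Nf P ≠ 0 := by
  intro h0
  have := df_eq P h
  rw [h0] at this
  nlinarith [sq_nonneg (Bf P)]

private theorem gm_eq (P : Sp) (h : Qd P) (s : ℂ) :
    LBQ.Gm P (((Bf P : ℂ) + s) / 2) = ga P s := by
  have e7 : (P 6 : ℂ) * P 4 + P 0 * P 10 - P 7 * P 1 - P 3 * P 9 = 0 := by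
    have := congrArg (fun z : ℤ => (z : ℂ)) h.h7
    push_cast at this; exact this
  have e9 : (P 0 : ℂ) * P 11 - P 3 * P 10 + P 7 * P 4 - P 1 * P 8 = 0 := by
    have := congrArg (fun z : ℤ => (z : ℂ)) h.h9
    push_cast at this; exact this
  unfold LBQ.Gm LBQ.b1 LBQ.b2 ga SS TT
  push_cast
  linear_combination (Nf P : ℂ) * (P 3 : ℂ) * e7 - (Nf P : ℂ) * (P 0 : ℂ) * e9

private theorem tc_eq (P : Sp) (s : ℂ) : LBQ.tc P (((Bf P : ℂ) + s) / 2) =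
    ((Bf P : ℂ) - s) / 2 := by
  unfold LBQ.tc
  ring

theorem kb2 (P : Sp) (h : Qd P) (s : ℂ) (hs : s ^ 2 = (Df P : ℂ)) :
    (Kf P : ℂ) * b2 P s = b1 P s * (((Bg P : ℂ) + s) / 2) := by
  have e := LBQ.kb (hy P h s hs)
  rw [b1_eq P h, b2_eq P h, bet P h] at e
  exact e

private theorem bb11a (P : Sp) (h : Qd P) (s : ℂ) (hs : s ^ 2 = (Df P : ℂ)) :
    b1 P s * b1 P (-s) = (Kf P : ℂ) * (Nf P : ℂ) ^ 2 := by
  have e : (Df P : ℂ) = (Bg P : ℂ) ^ 2 - 4 * Kf P * Kq P := by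
    have := congrArg (fun t : ℤ => (t : ℂ)) (dg_eq P h)
    push_cast at this; exact this
  have e2 : (Nf P : ℂ) ^ 2 = (Kf P : ℂ) * P 3 ^ 2 - Bg P * P 3 * P 0 + Kq P * P 0 ^ 2 := by
    have := congrArg (fun t : ℤ => (t : ℂ)) (LBQ.nn_eq P)
    push_cast at this; exact this
  rw [e] at hs
  rw [e2]
  unfold b1
  linear_combination (-(P 0 : ℂ) ^ 2 / 4) * hs

private theorem cc11 (P : Sp) (h : Qd P) (s : ℂ) (hs : s ^ 2 = (Df P : ℂ)) :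
    ((P 9 : ℂ) * (Nf P : ℂ) - (P 6 : ℂ) * (((Bf P : ℂ) + s) / 2)) *
      ((P 9 : ℂ) * (Nf P : ℂ) - (P 6 : ℂ) * (((Bf P : ℂ) - s) / 2)) =
      (Nf P : ℂ) * (Kf P : ℂ) ^ 2 := by
  have e := LBQ.c11 (hy P h s hs)
  rw [tc_eq] at e
  exact e

private theorem kk11 (P : Sp) (h : Qd P) (s : ℂ) (hs : s ^ 2 = (Df P : ℂ)) :
    (Kf P : ℂ) ^ 2 * ga P s =
      b1 P s ^ 2 * ((P 9 : ℂ) * (Nf P : ℂ) - (P 6 : ℂ) * (((Bf P : ℂ) + s) / 2)) := by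
  have e1 := LBQ.kg (hy P h s hs)
  have e2 := LBQ.kx (hy P h s hs)
  rw [gm_eq P h, b1_eq P h, b2_eq P h] at e1
  rw [b1_eq P h, b2_eq P h] at e2
  linear_combination (Kf P : ℂ) * e1 + b1 P s * e2

private theorem gg' (P : Sp) (h : Qd P) (hD : Df P < 0) (s : ℂ) (hs : s ^ 2 = (Df P : ℂ)) :
    ga P s * ga P (-s) = (Nf P : ℂ) ^ 5 := by
  have hK : (Kf P : ℂ) ≠ 0 := by exact_mod_cast kne P h hD
  have e1 := kk11 P h s hs
  have e2 := kk11 P h (-s) (sneg hs)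
  have e3 := bb11a P h s hs
  have e4 := cc11 P h s hs
  apply mul_left_cancel₀ (pow_ne_zero 4 hK)
  calc (Kf P : ℂ) ^ 4 * (ga P s * ga P (-s))
      = ((Kf P : ℂ) ^ 2 * ga P s) * ((Kf P : ℂ) ^ 2 * ga P (-s)) := by ring
    _ = (b1 P s * b1 P (-s)) ^ 2 *
        (((P 9 : ℂ) * (Nf P : ℂ) - (P 6 : ℂ) * (((Bf P : ℂ) + s) / 2)) *
          ((P 9 : ℂ) * (Nf P : ℂ) - (P 6 : ℂ) * (((Bf P : ℂ) - s) / 2))) := by
        rw [e1, e2]; ring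
    _ = (Kf P : ℂ) ^ 4 * (Nf P : ℂ) ^ 5 := by rw [e3, e4]; ring

theorem pos (P : Sp) (h : Qd P) (hD : Df P < 0) : 0 < Nf P ∧ 0 < Kf P := by
  set s : ℂ := ((Real.sqrt (-(Df P : ℝ)) : ℝ) : ℂ) * Complex.I with hsdef
  have hr : (0 : ℝ) ≤ -(Df P : ℝ) := by
    have : (Df P : ℝ) < 0 := by exact_mod_cast hD
    linarith
  have hs : s ^ 2 = (Df P : ℂ) := by
    rw [hsdef, mul_pow, Complex.I_sq, ← Complex.ofReal_pow, Real.sq_sqrt hr]
    push_cast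
    ring
  have hc : (starRingEnd ℂ) s = -s := by
    rw [hsdef, map_mul, Complex.conj_ofReal, Complex.conj_I]; ring
  have cb : (starRingEnd ℂ) (b1 P s) = b1 P (-s) := by
    unfold b1
    simp only [map_sub, map_mul, map_div₀, hc, map_intCast, map_ofNat]
  have cg : (starRingEnd ℂ) (ga P s) = ga P (-s) := by
    unfold ga
    simp only [map_sub, map_add, map_mul, map_div₀, hc, map_intCast, map_ofNat]
  have e1 := bb11a P h s hs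
  have e2 := gg' P h hD s hs
  rw [← cb, Complex.mul_conj] at e1
  rw [← cg, Complex.mul_conj] at e2
  have f1 : Complex.normSq (b1 P s) = (Kf P : ℝ) * (Nf P : ℝ) ^ 2 := by exact_mod_cast e1
  have f2 : Complex.normSq (ga P s) = (Nf P : ℝ) ^ 5 := by exact_mod_cast e2
  have hN := nne P h hD
  have hK := kne P h hD
  constructor
  · rcases lt_or_gt_of_ne hN with h0 | h0
    · exfalso
      have h1 : (Nf P : ℝ) < 0 := by exact_mod_cast h0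
      have h2 : (Nf P : ℝ) ^ 5 < 0 := by
        have e : (Nf P : ℝ) ^ 5 = ((Nf P : ℝ) ^ 2) ^ 2 * (Nf P : ℝ) := by ring
        rw [e]
        have : 0 < ((Nf P : ℝ) ^ 2) ^ 2 := by positivity
        exact mul_neg_of_pos_of_neg this h1
      have h3 := Complex.normSq_nonneg (ga P s)
      rw [f2] at h3
      linarith
    · exact h0
  · rcases lt_or_gt_of_ne hK with h0 | h0
    · exfalso
      have h1 : (Kf P : ℝ) < 0 := by exact_mod_cast h0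
      have h2 : 0 < (Nf P : ℝ) ^ 2 := by
        have : (Nf P : ℝ) ≠ 0 := by exact_mod_cast hN
        positivity
      have h3 := Complex.normSq_nonneg (b1 P s)
      rw [f1] at h3
      have := mul_neg_of_neg_of_pos h1 h2
      linarith
    · exact h0

theorem bb11 (P : Sp) (h : Qd P) (hD : Df P < 0) (s : ℂ) (hs : s ^ 2 = (Df P : ℂ)) :
    b1 P s * b1 P (-s) = (Kf P : ℂ) * (Nf P : ℂ) ^ 2 := by
  have _ := hD
  exact bb11a P h s hs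

theorem bb12 (P : Sp) (h : Qd P) (hD : Df P < 0) (s : ℂ) (hs : s ^ 2 = (Df P : ℂ)) :
    b1 P s * b2 P (-s) = (Nf P : ℂ) ^ 2 * (((Bg P : ℂ) - s) / 2) := by
  have hK : (Kf P : ℂ) ≠ 0 := by exact_mod_cast kne P h hD
  apply mul_left_cancel₀ hK
  have e1 := kb2 P h (-s) (sneg hs)
  have e2 := bb11 P h hD s hs
  linear_combination b1 P s * e1 + (((Bg P : ℂ) - s) / 2) * e2

theorem bb22 (P : Sp) (h : Qd P) (hD : Df P < 0) (s : ℂ) (hs : s ^ 2 = (Df P : ℂ)) :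
    b2 P s * b2 P (-s) = (Kq P : ℂ) * (Nf P : ℂ) ^ 2 := by
  have hK : (Kf P : ℂ) ≠ 0 := by exact_mod_cast kne P h hD
  apply mul_left_cancel₀ hK
  have e1 := kb2 P h s hs
  have e2 := bb12 P h hD s hs
  have e : (Df P : ℂ) = (Bg P : ℂ) ^ 2 - 4 * Kf P * Kq P := by
    have := congrArg (fun t : ℤ => (t : ℂ)) (dg_eq P h)
    push_cast at this; exact this
  rw [e] at hs
  linear_combination b2 P (-s) * e1 + (((Bg P : ℂ) + s) / 2) * e2 -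
    (Nf P : ℂ) ^ 2 / 4 * hs

theorem b11 (P : Sp) (h : Qd P) (hD : Df P < 0) (s : ℂ) (hs : s ^ 2 = (Df P : ℂ)) :
    (Nf P : ℂ) * b1 P s ^ 2 =
      ga P s * ((P 9 : ℂ) * (Nf P : ℂ) - (P 6 : ℂ) * (((Bf P : ℂ) - s) / 2)) := by
  have hK : (Kf P : ℂ) ≠ 0 := by exact_mod_cast kne P h hD
  have e := LBQ.g11 (hy P h s hs) hK
  rw [gm_eq P h, b1_eq P h, tc_eq] at e
  rw [← e]; ring

theorem b12 (P : Sp) (h : Qd P) (hD : Df P < 0) (s : ℂ) (hs : s ^ 2 = (Df P : ℂ)) :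
    (Nf P : ℂ) * (b1 P s * b2 P s) =
      ga P s * ((P 10 : ℂ) * (Nf P : ℂ) - (P 7 : ℂ) * (((Bf P : ℂ) - s) / 2)) := by
  have hK : (Kf P : ℂ) ≠ 0 := by exact_mod_cast kne P h hD
  have e := LBQ.g12 (hy P h s hs) hK
  rw [gm_eq P h, b1_eq P h, b2_eq P h, tc_eq] at e
  exact e

theorem b22 (P : Sp) (h : Qd P) (hD : Df P < 0) (s : ℂ) (hs : s ^ 2 = (Df P : ℂ)) :
    (Nf P : ℂ) * b2 P s ^ 2 =
      ga P s * ((P 11 : ℂ) * (Nf P : ℂ) - (P 8 : ℂ) * (((Bf P : ℂ) - s) / 2)) := by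
  have hK : (Kf P : ℂ) ≠ 0 := by exact_mod_cast kne P h hD
  have e := LBQ.g22 (hy P h s hs) hK
  rw [gm_eq P h, b2_eq P h, tc_eq] at e
  rw [← e]; ring

theorem gg (P : Sp) (h : Qd P) (hD : Df P < 0) (s : ℂ) (hs : s ^ 2 = (Df P : ℂ)) :
    ga P s * ga P (-s) = (Nf P : ℂ) ^ 5 := by
  exact gg' P h hD s hs

theorem ga_ne (P : Sp) (h : Qd P) (hD : Df P < 0) (s : ℂ) (hs : s ^ 2 = (Df P : ℂ)) :
    ga P s ≠ 0 := by
  intro h0
  have e := gg P h hD s hs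
  rw [h0, zero_mul] at e
  have hN : (Nf P : ℂ) ≠ 0 := by exact_mod_cast nne P h hD
  exact pow_ne_zero 5 hN e.symm

end Pool.Agent.LBK
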