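import Pool.Agent.LBK.Mul
import Pool.Agent.LBK.Idb
import Pool.Agent.LBM.Fd

/-!
# LBK/Mlt: the hypothesis `Mult` of part F, from `mul`
-/

set_option autoImplicit false

namespace Pool.Agent.LBK

open NumberField Pool.Agent.FTA Pool.Agent.FTB Pool.Agent.SMI Pool.Agent.PP5 nonZeroDivisors

/-- values of a positive definite form -/
theorem qval (a b c : ℤ) (M D : ℝ) (ha : 0 < a) (hd : D ≤ -((b ^ 2 - 4 * a * c : ℤ) : ℝ)) (hD : 0 < D)
    (hM : 0 < M) (haM : (a : ℝ) ≤ M) (hcM : (c : ℝ) ≤ M) (x y : ℤ) (h : x ≠ 0 ∨ y ≠ 0) :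
    D / (4 * M) ≤ ((a * x ^ 2 + b * x * y + c * y ^ 2 : ℤ) : ℝ) := by
  have ha' : (0 : ℝ) < a := by exact_mod_cast ha
  push_cast at hd ⊢
  have hc' : (0 : ℝ) < c := by
    by_contra hc
    push Not at hc
    nlinarith [sq_nonneg (b : ℝ), mul_nonneg ha'.le (neg_nonneg.2 hc)]
  rw [div_le_iff₀ (by positivity)]
  by_cases hy : y = 0
  · subst hy
    have hx : x ≠ 0 := by simpa using h
    have hx1 : (1 : ℝ) ≤ (x : ℝ) ^ 2 := by
      have : (1 : ℤ) ≤ x ^ 2 := by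
        have := sq_pos_of_ne_zero hx
        omega
      exact_mod_cast this
    have h1 : D ≤ 4 * a * c := by nlinarith [sq_nonneg (b : ℝ)]
    have h2 : 4 * (a : ℝ) * c ≤ 4 * a * M := by
      have := mul_le_mul_of_nonneg_left hcM (by positivity : (0 : ℝ) ≤ 4 * a)
      linarith
    have h3 : 4 * (a : ℝ) * M ≤ 4 * a * M * x ^ 2 := by
      have := mul_le_mul_of_nonneg_left hx1 (by positivity : (0 : ℝ) ≤ 4 * a * M)
      linarith
    push_cast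
    nlinarith
  · have hy1 : (1 : ℝ) ≤ (y : ℝ) ^ 2 := by
      have : (1 : ℤ) ≤ y ^ 2 := by
        have := sq_pos_of_ne_zero hy
        omega
      exact_mod_cast this
    have e : 4 * (a : ℝ) * (a * x ^ 2 + b * x * y + c * y ^ 2) =
        (2 * a * x + b * y) ^ 2 + (-(b ^ 2 - 4 * a * c)) * y ^ 2 := by ring
    have h1 : D ≤ 4 * (a : ℝ) * (a * x ^ 2 + b * x * y + c * y ^ 2) := by
      rw [e]
      have h2 : D * 1 ≤ (-((b : ℝ) ^ 2 - 4 * a * c)) * y ^ 2 :=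
        mul_le_mul hd hy1 (by norm_num) (le_trans hD.le hd)
      nlinarith [sq_nonneg (2 * (a : ℝ) * x + b * y)]
    have h3 : 0 < (a : ℝ) * x ^ 2 + b * x * y + c * y ^ 2 := by
      by_contra h4
      push Not at h4
      nlinarith [mul_nonneg (by positivity : (0 : ℝ) ≤ 4 * a) (neg_nonneg.2 h4)]
    have h4 : 4 * (a : ℝ) * (a * x ^ 2 + b * x * y + c * y ^ 2) ≤
        4 * M * (a * x ^ 2 + b * x * y + c * y ^ 2) :=
      mul_le_mul_of_nonneg_right (by linarith) h3.le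
    linarith

theorem q2 (B : ℝ) (a b c d : ℤ) (ha : |(a : ℝ)| ≤ B) (hb : |(b : ℝ)| ≤ B) (hc : |(c : ℝ)| ≤ B)
    (hd : |(d : ℝ)| ≤ B) : ((a * b - c * d : ℤ) : ℝ) ≤ 2 * B ^ 2 := by
  push_cast
  have hB : 0 ≤ B := le_trans (abs_nonneg _) ha
  have h1 : |(a : ℝ) * b| ≤ B * B := by rw [abs_mul]; exact mul_le_mul ha hb (abs_nonneg _) hB
  have h2 : |(c : ℝ) * d| ≤ B * B := by rw [abs_mul]; exact mul_le_mul hc hd (abs_nonneg _) hB
  have h3 := le_abs_self ((a : ℝ) * b)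
  have h4 := neg_abs_le ((c : ℝ) * d)
  nlinarith

theorem blc (CV cD y : ℝ) (hC : 0 < CV) (hcD : 0 < cD) (hy : 0 < y) (P : Sp)
    (h : LB.Rg y CV cD P) : Blc (cD / (8 * CV ^ 2)) (2 * CV ^ 2) (y ^ 2) P := by
  have hD : Df P < 0 := by
    have h1 := h.dl
    have h2 : 0 < cD * y ^ 4 := by positivity
    have h3 : (Df P : ℝ) < 0 := by linarith
    exact_mod_cast h3
  obtain ⟨hN, hK⟩ := pos P h.qd hD
  have eM : (2 * CV ^ 2) * y ^ 2 = 2 * (CV * y) ^ 2 := by ring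
  have hM : 0 < 2 * (CV * y) ^ 2 := by positivity
  obtain ⟨m1, m2, m3, m4, m5, m6⟩ := minors P h.qd
  have bN : (Nf P : ℝ) ≤ 2 * (CV * y) ^ 2 := by
    rw [m1, pow_two]
    exact q2 _ _ _ _ _ (h.le _) (h.le _) (h.le _) (h.le _)
  have bQ : (Nq P : ℝ) ≤ 2 * (CV * y) ^ 2 := by
    unfold Nq
    rw [pow_two]
    exact q2 _ _ _ _ _ (h.le _) (h.le _) (h.le _) (h.le _)
  have bK : (Kf P : ℝ) ≤ 2 * (CV * y) ^ 2 := by
    have e : Kf P = P 7 * P 9 - P 6 * P 10 := by linarith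
    rw [e]
    exact q2 _ _ _ _ _ (h.le _) (h.le _) (h.le _) (h.le _)
  have bL : (Kq P : ℝ) ≤ 2 * (CV * y) ^ 2 := by
    unfold Kq
    rw [pow_two]
    exact q2 _ _ _ _ _ (h.le _) (h.le _) (h.le _) (h.le _)
  have ec : (cD / (8 * CV ^ 2)) * y ^ 2 = (cD * y ^ 4) / (4 * (2 * (CV * y) ^ 2)) := by
    field_simp
    ring
  refine ⟨?_, ?_, ?_, ?_, ?_, ?_⟩
  · rw [eM]; exact bN
  · rw [eM]; exact bQ
  · rw [eM]; exact bK
  · rw [eM]; exact bL
  · intro v1 v2 hv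
    rw [ec]
    unfold fV
    refine qval _ _ _ _ _ hN ?_ (by positivity) hM bN bQ v1 v2 hv
    rw [← df_eq P h.qd]
    exact h.dl
  · intro v1 v2 hv
    rw [ec]
    unfold fW
    refine qval _ _ _ _ _ hK ?_ (by positivity) hM bK bL v1 v2 hv
    rw [← dg_eq P h.qd]
    exact h.dl

theorem mult : LBM.Mult := by
  intro CV cD hCV hcD
  obtain ⟨C, hC, hm⟩ := mul (cD / (8 * CV ^ 2)) (2 * CV ^ 2) (by positivity) (by positivity)
  refine ⟨C, max 1 (2 / (cD / (8 * CV ^ 2))), 1 / 2, hC.le, by norm_num, ?_⟩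
  intro y hy K _ h2 him f hf hfy T hT
  set c1 : ℝ := cD / (8 * CV ^ 2) with hc1
  have hc1p : 0 < c1 := by positivity
  have hy1 : 1 ≤ y := le_trans (le_max_left _ _) hy
  have hy2 : 2 / c1 ≤ y := le_trans (le_max_right _ _) hy
  have hf2 : (f : ℝ) ^ 2 < c1 * y ^ 2 := by
    have h1 : (f : ℝ) ^ 2 ≤ y := by
      have h3 : (f : ℝ) ^ 2 ≤ (y ^ (1 / 2 : ℝ)) ^ 2 :=
        pow_le_pow_left₀ (Nat.cast_nonneg _) hfy 2
      have h4 : (y ^ (1 / 2 : ℝ)) ^ 2 = y := by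
        rw [← Real.sqrt_eq_rpow, Real.sq_sqrt (by linarith)]
      rwa [h4] at h3
    have h5 : 2 ≤ c1 * y := by
      rw [div_le_iff₀ hc1p] at hy2
      linarith
    nlinarith
  have key := hm K h2 him f (y ^ 2) (by positivity) hf2 T (fun P hP => by
    obtain ⟨hr, hi, hd⟩ := hT P hP
    refine ⟨⟨hr.qd, fun p hp h => hi p hp h, hf, ?_⟩, blc CV cD y hCV hcD (by linarith) P hr⟩
    rw [hd, LBM.discr_aD K h2 him]
    ring)
  have hp : (0 : ℝ) < (∏ p ∈ f.primeFactors, p : ℕ) := by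
    have : 0 < ∏ p ∈ f.primeFactors, p :=
      Finset.prod_pos (fun p hp => (Nat.prime_of_mem_primeFactors hp).pos)
    exact_mod_cast this
  unfold LBM.L6 LBM.h5
  have e : ((∏ p ∈ f.primeFactors, p : ℕ) : ℝ) = ∏ p ∈ f.primeFactors, (p : ℝ) := by
    push_cast
    rfl
  rw [← e]
  rw [← le_div_iff₀ hp] at key
  refine le_trans key (le_of_eq ?_)
  field_simp

end Pool.Agent.LBK
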