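import Pool.Agent.LBK.Defs

/-!
# LBK/Bas (size 3): the integers of `K` in coordinates

`δ = aD % 2`, `aD = 0, 3 mod 4` (`aD_mod`), so `4 nn = aD + δ`, `om^2 = δ om - nn`.
`isO_cv`: `co_exists` gives `2 cv a = t + y wK` with `t^2 + aD y^2 = 0 mod 4` (`co_norm`), so
`t = δ y mod 2`; conversely `om` is integral over `ℤ` and lies in `K` (`mem_sq`).
`unit12`: `4 = t^2 + aD y^2`, `aD >= 3`.
-/

set_option autoImplicit false

namespace Pool.Agent.LBK

open NumberField Pool.Agent.FTA Pool.Agent.FTB Pool.Agent.SMI Pool.Agent.PP5 nonZeroDivisors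

/-- `(|D_K| + δ) / 4` -/
noncomputable def nn (K : IntermediateField ℚ ℂ) [NumberField K] : ℤ :=
  ((aD K : ℤ) + ((aD K % 2 : ℕ) : ℤ)) / 4

private theorem Bas_mod (K : IntermediateField ℚ ℂ) [NumberField K]
    (h2 : Module.finrank ℚ K = 2) (him : ∃ x : K, (x : ℂ).im ≠ 0) :
    aD K % 4 = 0 ∨ aD K % 4 = 3 := by
  obtain ⟨ω, t, h⟩ := omg_exists K h2 him
  have h1 := co_norm K h2 him _ _ _ h
  set n : ℤ := (Ideal.absNorm (Ideal.span {ω}) : ℤ)
  rw [one_pow, mul_one] at h1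
  rcases Int.even_or_odd' t with ⟨k, hk | hk⟩
  · left
    rw [hk, show (2 * k) ^ 2 = 4 * k ^ 2 by ring] at h1
    omega
  · right
    rw [hk, show (2 * k + 1) ^ 2 = 4 * (k ^ 2 + k) + 1 by ring] at h1
    omega

/-- the parity of the first coordinate -/
private theorem Bas_par (K : IntermediateField ℚ ℂ) [NumberField K]
    (h2 : Module.finrank ℚ K = 2) (him : ∃ x : K, (x : ℂ).im ≠ 0) (a : 𝓞 K) (t y : ℤ)
    (h : Co K a t y) : ∃ k : ℤ, t - ((aD K % 2 : ℕ) : ℤ) * y = 2 * k := by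
  have h1 := co_norm K h2 him _ _ _ h
  set n : ℤ := (Ideal.absNorm (Ideal.span {a}) : ℤ)
  have h3 : ((aD K : ℤ)) = 2 * ((aD K / 2 : ℕ) : ℤ) + ((aD K % 2 : ℕ) : ℤ) := by
    have := Nat.div_add_mod (aD K) 2
    exact_mod_cast this.symm
  set q : ℤ := ((aD K / 2 : ℕ) : ℤ)
  have h4 : aD K % 2 = 0 ∨ aD K % 2 = 1 := by omega
  rw [h3] at h1
  rcases h4 with h4 | h4
  · rw [h4] at h1 ⊢
    rcases Int.even_or_odd' t with ⟨k, hk | hk⟩
    · exact ⟨k, by rw [hk]; push_cast; ring⟩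
    · exfalso
      rw [hk] at h1
      have : (2 * k + 1) ^ 2 + (2 * q + ((0 : ℕ) : ℤ)) * y ^ 2 =
          2 * (2 * k ^ 2 + 2 * k + q * y ^ 2) + 1 := by push_cast; ring
      rw [this] at h1
      omega
  · rw [h4] at h1 ⊢
    rcases Int.even_or_odd' t with ⟨k, hk | hk⟩ <;> rcases Int.even_or_odd' y with ⟨l, hl | hl⟩
    · exact ⟨k - l, by rw [hk, hl]; push_cast; ring⟩
    · exfalso
      rw [hk, hl] at h1
      have : (2 * k) ^ 2 + (2 * q + ((1 : ℕ) : ℤ)) * (2 * l + 1) ^ 2 =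
          2 * (2 * k ^ 2 + q * (2 * l + 1) ^ 2 + 2 * l ^ 2 + 2 * l) + 1 := by push_cast; ring
      rw [this] at h1
      omega
    · exfalso
      rw [hk, hl] at h1
      have : (2 * k + 1) ^ 2 + (2 * q + ((1 : ℕ) : ℤ)) * (2 * l) ^ 2 =
          2 * (2 * k ^ 2 + 2 * k + (2 * q + 1) * (2 * l ^ 2)) + 1 := by push_cast; ring
      rw [this] at h1
      omega
    · exact ⟨k - l, by rw [hk, hl]; push_cast; ring⟩

theorem nn_eq (K : IntermediateField ℚ ℂ) [NumberField K] (h2 : Module.finrank ℚ K = 2)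
    (him : ∃ x : K, (x : ℂ).im ≠ 0) : 4 * nn K = (aD K : ℤ) + ((aD K % 2 : ℕ) : ℤ) := by
  have h := Bas_mod K h2 him
  unfold nn
  omega

private theorem Bas_del (K : IntermediateField ℚ ℂ) [NumberField K] :
    ((aD K % 2 : ℕ) : ℤ) ^ 2 = ((aD K % 2 : ℕ) : ℤ) := by
  have h : aD K % 2 = 0 ∨ aD K % 2 = 1 := by omega
  rcases h with h | h <;> rw [h] <;> norm_num

theorem om_sq (K : IntermediateField ℚ ℂ) [NumberField K] (h2 : Module.finrank ℚ K = 2)
    (him : ∃ x : K, (x : ℂ).im ≠ 0) :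
    om K ^ 2 = ((aD K % 2 : ℕ) : ℂ) * om K - (nn K : ℂ) := by
  have h1 := wK_sq K
  have h3 : 4 * (nn K : ℂ) = (aD K : ℂ) + ((aD K % 2 : ℕ) : ℂ) := by
    simpa only [Int.cast_mul, Int.cast_add, Int.cast_natCast, Int.cast_ofNat] using
      congrArg (Int.cast (R := ℂ)) (nn_eq K h2 him)
  have h4 : ((aD K % 2 : ℕ) : ℂ) ^ 2 = ((aD K % 2 : ℕ) : ℂ) := by
    simpa only [Int.cast_pow, Int.cast_natCast] using congrArg (Int.cast (R := ℂ)) (Bas_del K)
  unfold om
  linear_combination (1 / 4 : ℂ) * h1 + (1 / 4 : ℂ) * h3 - (1 / 4 : ℂ) * h4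

theorem om_conj (K : IntermediateField ℚ ℂ) [NumberField K] :
    (starRingEnd ℂ) (om K) = ((aD K % 2 : ℕ) : ℂ) - om K := by
  unfold om
  rw [map_div₀, map_add, wK_conj, Complex.conj_natCast, Complex.conj_ofNat]
  ring

theorem isO_cv (K : IntermediateField ℚ ℂ) [NumberField K] (h2 : Module.finrank ℚ K = 2)
    (him : ∃ x : K, (x : ℂ).im ≠ 0) (z : ℂ) : IsO K z ↔ ∃ a : 𝓞 K, cv K a = z := by
  constructor
  · rintro ⟨a, b, rfl⟩
    obtain ⟨ω, t, h⟩ := omg_exists K h2 him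
    obtain ⟨k, hk⟩ := Bas_par K h2 him ω t 1 h
    have h1 := co_cv K ω t 1 h
    have hkC : (t : ℂ) - ((aD K % 2 : ℕ) : ℂ) * 1 = 2 * (k : ℂ) := by
      simpa only [Int.cast_mul, Int.cast_sub, Int.cast_natCast, Int.cast_ofNat, Int.cast_one] using
        congrArg (Int.cast (R := ℂ)) hk
    refine ⟨((a - b * k : ℤ) : 𝓞 K) + ((b : ℤ) : 𝓞 K) * ω, ?_⟩
    have h3 : cv K (((a - b * k : ℤ) : 𝓞 K) + ((b : ℤ) : 𝓞 K) * ω) =
        ((a - b * k : ℤ) : ℂ) + (b : ℂ) * cv K ω := by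
      unfold cv
      push_cast
      rfl
    rw [h3]
    unfold om
    push_cast
    push_cast at h1
    linear_combination (b / 2 : ℂ) * h1 + (b / 2 : ℂ) * hkC
  · rintro ⟨a, rfl⟩
    obtain ⟨t, y, h⟩ := co_exists K h2 him a
    obtain ⟨k, hk⟩ := Bas_par K h2 him a t y h
    have h1 := co_cv K a t y h
    have hkC : (t : ℂ) - ((aD K % 2 : ℕ) : ℂ) * y = 2 * (k : ℂ) := by
      simpa only [Int.cast_mul, Int.cast_sub, Int.cast_natCast, Int.cast_ofNat, Int.cast_one] using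
        congrArg (Int.cast (R := ℂ)) hk
    refine ⟨k, y, ?_⟩
    unfold om
    linear_combination (1 / 2 : ℂ) * h1 + (1 / 2 : ℂ) * hkC

/-- uniqueness of the coordinates -/
theorem om_uniq (K : IntermediateField ℚ ℂ) [NumberField K] (a b a' b' : ℤ)
    (h : (a : ℂ) + (b : ℂ) * om K = (a' : ℂ) + (b' : ℂ) * om K) : a = a' ∧ b = b' := by
  have hs : 0 < √(aD K : ℝ) := Real.sqrt_pos.2 (by exact_mod_cast aD_pos K)
  have hi : (om K).im = √(aD K : ℝ) / 2 := by
    have : om K = ((((aD K % 2 : ℕ) : ℝ) / 2 : ℝ) : ℂ) + ((√(aD K : ℝ) / 2 : ℝ) : ℂ) * Complex.I := by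
      unfold om wK
      push_cast
      ring
    rw [this]
    simp
  have h1 := congrArg Complex.im h
  rw [Complex.add_im, Complex.add_im, ← Complex.ofReal_intCast, ← Complex.ofReal_intCast,
    ← Complex.ofReal_intCast, ← Complex.ofReal_intCast, Complex.ofReal_im, Complex.ofReal_im,
    Complex.im_ofReal_mul, Complex.im_ofReal_mul, hi] at h1
  have h3 : (b : ℝ) = b' := by
    have h4 : 0 < √(aD K : ℝ) / 2 := by linarith
    have h5 : (b : ℝ) * (√(aD K : ℝ) / 2) = b' * (√(aD K : ℝ) / 2) := by linarith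
    exact mul_right_cancel₀ h4.ne' h5
  have h4 : b = b' := by exact_mod_cast h3
  subst h4
  have h5 : (a : ℂ) = a' := by linear_combination h
  exact ⟨by exact_mod_cast h5, rfl⟩

/-- the norm of `a + b om` -/
theorem om_norm (K : IntermediateField ℚ ℂ) [NumberField K] (h2 : Module.finrank ℚ K = 2)
    (him : ∃ x : K, (x : ℂ).im ≠ 0) (a b : ℤ) :
    ((a : ℂ) + (b : ℂ) * om K) * (starRingEnd ℂ) ((a : ℂ) + (b : ℂ) * om K) =
      ((a ^ 2 + ((aD K % 2 : ℕ) : ℤ) * a * b + nn K * b ^ 2 : ℤ) : ℂ) := by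
  have h := om_sq K h2 him
  have hc : (starRingEnd ℂ) ((a : ℂ) + (b : ℂ) * om K) =
      (a : ℂ) + (b : ℂ) * (((aD K % 2 : ℕ) : ℂ) - om K) := by
    rw [map_add, map_mul, om_conj]
    simp
  rw [hc]
  simp only [Int.cast_add, Int.cast_mul, Int.cast_pow, Int.cast_natCast]
  linear_combination -(b : ℂ) ^ 2 * h

theorem unit12 (K : IntermediateField ℚ ℂ) [NumberField K] (h2 : Module.finrank ℚ K = 2)
    (him : ∃ x : K, (x : ℂ).im ≠ 0) (z : ℂ) (hz : IsO K z)
    (h1 : z * (starRingEnd ℂ) z = 1) : z ^ 12 = 1 := by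
  obtain ⟨a, b, rfl⟩ := hz
  have h3 := om_norm K h2 him a b
  rw [h1] at h3
  have h4 : a ^ 2 + ((aD K % 2 : ℕ) : ℤ) * a * b + nn K * b ^ 2 = 1 := by exact_mod_cast h3.symm
  have h5 := nn_eq K h2 him
  have h6 := Bas_del K
  set d : ℤ := ((aD K % 2 : ℕ) : ℤ) with hd
  have h7 : (2 * a + d * b) ^ 2 ≤ 4 := by
    have h8 : (2 * a + d * b) ^ 2 = 4 - (aD K : ℤ) * b ^ 2 := by
      linear_combination 4 * h4 + b ^ 2 * h6 - b ^ 2 * h5
    have h9 : 0 ≤ (aD K : ℤ) * b ^ 2 := by positivity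
    linarith
  set z : ℂ := (a : ℂ) + (b : ℂ) * om K with hz
  have h8 : z ^ 2 = ((2 * a + d * b : ℤ) : ℂ) * z - 1 := by
    have hc : (starRingEnd ℂ) z = ((2 * a + d * b : ℤ) : ℂ) - z := by
      rw [hz, map_add, map_mul, om_conj, hd]
      simp only [Int.cast_add, Int.cast_mul, Int.cast_natCast, Int.cast_ofNat]
      simp only [map_intCast]
      ring
    rw [hc] at h1
    linear_combination -h1
  set t : ℤ := 2 * a + d * b with ht
  have h9 : -2 ≤ t ∧ t ≤ 2 := by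
    constructor <;> nlinarith
  obtain ⟨h10, h11⟩ := h9
  have h12 : t = -2 ∨ t = -1 ∨ t = 0 ∨ t = 1 ∨ t = 2 := by omega
  rcases h12 with h | h | h | h | h <;> rw [h] at h8 <;> push_cast at h8
  · have h13 : (z + 1) ^ 2 = 0 := by linear_combination h8
    have h14 : z = -1 := by
      have := pow_eq_zero_iff (two_ne_zero) |>.1 h13
      linear_combination this
    rw [h14]
    norm_num
  · have h13 : z ^ 3 = 1 := by linear_combination (z - 1) * h8
    calc z ^ 12 = (z ^ 3) ^ 4 := by ring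
      _ = 1 := by rw [h13, one_pow]
  · have h13 : z ^ 2 = -1 := by linear_combination h8
    calc z ^ 12 = (z ^ 2) ^ 6 := by ring
      _ = 1 := by rw [h13]; norm_num
  · have h13 : z ^ 3 = -1 := by linear_combination (z + 1) * h8
    calc z ^ 12 = (z ^ 3) ^ 4 := by ring
      _ = 1 := by rw [h13]; norm_num
  · have h13 : (z - 1) ^ 2 = 0 := by linear_combination h8
    have h14 : z = 1 := by
      have := pow_eq_zero_iff (two_ne_zero) |>.1 h13
      linear_combination this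
    rw [h14, one_pow]

theorem sK_sq (K : IntermediateField ℚ ℂ) [NumberField K] (f : ℕ) :
    sK K f ^ 2 = -((f : ℂ) ^ 2 * (aD K : ℂ)) := by
  unfold sK
  rw [mul_pow, wK_sq]
  ring

theorem sK_conj (K : IntermediateField ℚ ℂ) [NumberField K] (f : ℕ) :
    (starRingEnd ℂ) (sK K f) = -sK K f := by
  unfold sK
  rw [map_mul, wK_conj, Complex.conj_natCast]
  ring

theorem sK_df (K : IntermediateField ℚ ℂ) [NumberField K] (f : ℕ) (P : Sp) (h : Pt K f P) :
    sK K f ^ 2 = (Df P : ℂ) := by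
  rw [sK_sq, h.df]
  push_cast
  ring

theorem df_neg (K : IntermediateField ℚ ℂ) [NumberField K] (f : ℕ) (P : Sp) (h : Pt K f P) :
    Df P < 0 := by
  rw [h.df]
  have h1 : 0 < aD K := aD_pos K
  have h3 := h.f1
  have h4 : (0 : ℤ) < (f : ℤ) ^ 2 * (aD K : ℤ) := by positivity
  linarith

end Pool.Agent.LBK
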