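import Pool.Agent.LBK.Qrt

/-!
# LBK/Cnt: the number of `z` modulo `f` with `z ^ 5` in `ℤ + f O`
-/

set_option autoImplicit false

namespace Pool.Agent.LBK

open Finset

/-- the quartic -/
private def Cnt_H4 (t n a b : ℤ) : ℤ := 5 * a ^ 4 + 10 * t * a ^ 3 * b + 10 * (t ^ 2 - n) * a ^ 2 * b ^ 2 +
  5 * (t ^ 3 - 2 * t * n) * a * b ^ 3 + (t ^ 4 - 3 * t ^ 2 * n + n ^ 2) * b ^ 4

/-- the `om`-coordinate of `(a + b om) ^ 5`, `om ^ 2 = t om - n` -/
private def Cnt_B5 (t n a b : ℤ) : ℤ := b * (5 * a ^ 4 + 10 * t * a ^ 3 * b + 10 * (t ^ 2 - n) * a ^ 2 * b ^ 2 +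
  5 * (t ^ 3 - 2 * t * n) * a * b ^ 3 + (t ^ 4 - 3 * t ^ 2 * n + n ^ 2) * b ^ 4)

private theorem Cnt_B5_eq (t n a b : ℤ) : Cnt_B5 t n a b = b * Cnt_H4 t n a b := rfl

/-- the roots of the quartic modulo `p` -/
private def Cnt_Rts (t n : ℤ) (p : ℕ) : Finset ℕ := (range p).filter (fun x : ℕ => (p : ℤ) ∣ Cnt_H4 t n (x : ℤ) 1)

private theorem Cnt_Rts_card (t n : ℤ) {p : ℕ} (hp : p.Prime) : (Cnt_Rts t n p).card ≤ 5 := by
  rcases Nat.lt_or_ge 5 p with h5 | h5
  · have := Fact.mk hp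
    obtain ⟨c3, hc3⟩ : ∃ c : ZMod p, c = 10 * (t : ZMod p) := ⟨_, rfl⟩
    obtain ⟨c2, hc2⟩ : ∃ c : ZMod p, c = 10 * ((t : ZMod p) ^ 2 - n) := ⟨_, rfl⟩
    obtain ⟨c1, hc1⟩ : ∃ c : ZMod p, c = 5 * ((t : ZMod p) ^ 3 - 2 * t * n) := ⟨_, rfl⟩
    obtain ⟨c0, hc0⟩ : ∃ c : ZMod p, c = (t : ZMod p) ^ 4 - 3 * t ^ 2 * n + n ^ 2 := ⟨_, rfl⟩
    set g : Polynomial (ZMod p) := Polynomial.C 5 * Polynomial.X ^ 4 +
      (Polynomial.C c3 * Polynomial.X ^ 3 + Polynomial.C c2 * Polynomial.X ^ 2 +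
      Polynomial.C c1 * Polynomial.X + Polynomial.C c0) with hg
    have h5' : (5 : ZMod p) ≠ 0 := by
      intro h
      have h1 : ((5 : ℕ) : ZMod p) = 0 := by exact_mod_cast h
      rw [ZMod.natCast_eq_zero_iff] at h1
      have := Nat.le_of_dvd (by norm_num) h1
      omega
    have hdeg : g.natDegree ≤ 4 := by
      rw [hg]
      compute_degree
    have hg0 : g ≠ 0 := by
      intro h
      have h1 : g.coeff 4 = 5 := by
        rw [hg]
        simp only [Polynomial.coeff_add, Polynomial.coeff_C_mul, Polynomial.coeff_X_pow,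
          Polynomial.coeff_X, Polynomial.coeff_C]
        norm_num
      rw [h, Polynomial.coeff_zero] at h1
      exact h5' h1.symm
    have h1 : (Cnt_Rts t n p).card ≤ (g.roots.toFinset).card := by
      apply card_le_card_of_injOn (fun x : ℕ => (x : ZMod p))
      · intro x hx
        rw [mem_coe, Cnt_Rts, mem_filter] at hx
        rw [mem_coe, Multiset.mem_toFinset, Polynomial.mem_roots hg0, Polynomial.IsRoot.def]
        have h2 := (ZMod.intCast_zmod_eq_zero_iff_dvd (Cnt_H4 t n x 1) p).2 hx.2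
        unfold Cnt_H4 at h2
        push_cast at h2
        rw [hg]
        simp only [Polynomial.eval_add, Polynomial.eval_mul, Polynomial.eval_C,
          Polynomial.eval_pow, Polynomial.eval_X, hc3, hc2, hc1, hc0]
        linear_combination h2
      · intro x hx y hy hxy
        rw [mem_coe, Cnt_Rts, mem_filter, mem_range] at hx hy
        have h2 : (x : ZMod p) = (y : ZMod p) := hxy
        rw [ZMod.natCast_eq_natCast_iff'] at h2
        rwa [Nat.mod_eq_of_lt hx.1, Nat.mod_eq_of_lt hy.1] at h2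
    refine h1.trans ((Multiset.toFinset_card_le _).trans ((Polynomial.card_roots' g).trans ?_))
    omega
  · calc (Cnt_Rts t n p).card ≤ (range p).card := card_filter_le _ _
      _ = p := card_range p
      _ ≤ 5 := h5

private theorem Cnt_H4_mod (t n : ℤ) (p : ℕ) (x : ℕ) : (p : ℤ) ∣ Cnt_H4 t n x 1 - Cnt_H4 t n (x % p : ℕ) 1 := by
  have h : (p : ℤ) ∣ (x : ℤ) - ((x % p : ℕ) : ℤ) := by
    refine ⟨(x / p : ℕ), ?_⟩
    have := Nat.div_add_mod x p
    have h1 : (x : ℤ) = p * ((x / p : ℕ) : ℤ) + ((x % p : ℕ) : ℤ) := by exact_mod_cast this.symm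
    linarith
  obtain ⟨c, hc⟩ := h
  have hc' : (x : ℤ) = ((x % p : ℕ) : ℤ) + p * c := by linarith
  rw [hc']
  set y : ℤ := ((x % p : ℕ) : ℤ)
  unfold Cnt_H4
  exact ⟨c * (5 * ((y + p * c) ^ 3 + (y + p * c) ^ 2 * y + (y + p * c) * y ^ 2 + y ^ 3) +
    10 * t * ((y + p * c) ^ 2 + (y + p * c) * y + y ^ 2) +
    10 * (t ^ 2 - n) * ((y + p * c) + y) + 5 * (t ^ 3 - 2 * t * n)), by ring⟩

/-- the classes modulo `p ^ k` -/
private def Cnt_Tq (t n : ℤ) (p k : ℕ) : Finset (ℕ ⊕ ℕ) :=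
  ((range (p ^ k)).filter (fun x : ℕ => (p : ℤ) ∣ Cnt_H4 t n (x : ℤ) 1)).disjSum
    ((range (p ^ k)).filter (fun x : ℕ => p ∣ x))

private theorem Cnt_Tq_card (t n : ℤ) {p : ℕ} (hp : p.Prime) (k : ℕ) (hk : 1 ≤ k) :
    (Cnt_Tq t n p k).card ≤ 6 * p ^ (k - 1) := by
  obtain ⟨j, rfl⟩ : ∃ j, k = j + 1 := ⟨k - 1, by omega⟩
  rw [Nat.add_sub_cancel]
  unfold Cnt_Tq
  rw [card_disjSum]
  have h1 : ((range (p ^ (j + 1))).filter (fun x : ℕ => (p : ℤ) ∣ Cnt_H4 t n x 1)).card ≤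
      5 * p ^ j := by
    have h2 : ((range (p ^ (j + 1))).filter (fun x : ℕ => (p : ℤ) ∣ Cnt_H4 t n x 1)).card ≤
        (Cnt_Rts t n p ×ˢ range (p ^ j)).card := by
      apply card_le_card_of_injOn (fun x : ℕ => (x % p, x / p))
      · intro x hx
        rw [mem_coe, mem_filter, mem_range] at hx
        rw [mem_coe, mem_product]
        refine ⟨?_, ?_⟩
        · rw [Cnt_Rts, mem_filter, mem_range]
          refine ⟨Nat.mod_lt _ hp.pos, ?_⟩
          have h3 := Cnt_H4_mod t n p x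
          have h4 := dvd_sub hx.2 h3
          rwa [sub_sub_cancel] at h4
        · rw [mem_range]
          apply Nat.div_lt_of_lt_mul
          rw [pow_succ] at hx
          linarith [hx.1]
      · intro x _ y _ hxy
        have h3 : x % p = y % p := (Prod.ext_iff.1 hxy).1
        have h4 : x / p = y / p := (Prod.ext_iff.1 hxy).2
        rw [← Nat.div_add_mod x p, ← Nat.div_add_mod y p, h3, h4]
    rw [card_product, card_range] at h2
    exact h2.trans (Nat.mul_le_mul_right _ (Cnt_Rts_card t n hp))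
  have h3 : ((range (p ^ (j + 1))).filter (fun x : ℕ => p ∣ x)).card ≤ p ^ j := by
    have h4 : ((range (p ^ (j + 1))).filter (fun x : ℕ => p ∣ x)).card ≤ (range (p ^ j)).card := by
      apply card_le_card_of_injOn (fun x : ℕ => x / p)
      · intro x hx
        rw [mem_coe, mem_filter, mem_range] at hx
        rw [mem_coe, mem_range]
        apply Nat.div_lt_of_lt_mul
        rw [pow_succ] at hx
        linarith [hx.1]
      · intro x hx y hy hxy
        rw [mem_coe, mem_filter] at hx hy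
        have h5 : x / p = y / p := hxy
        rw [← Nat.mul_div_cancel' hx.2, ← Nat.mul_div_cancel' hy.2, h5]
    rwa [card_range] at h4
  omega

/-- the relation between classes and pairs -/
private def Cnt_RelC (p k : ℕ) (c : ℕ ⊕ ℕ) (a b : ℤ) : Prop :=
  match c with
  | Sum.inl x => ((p : ℤ) ^ k) ∣ a - x * b
  | Sum.inr y => ((p : ℤ) ^ k) ∣ b - y * a

private theorem Cnt_rel_eq {p k : ℕ} {c : ℕ ⊕ ℕ} {a b a' b' : ℤ} (h : Cnt_RelC p k c a b) (h' : Cnt_RelC p k c a' b') :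
    ((p : ℤ) ^ k) ∣ a * b' - a' * b := by
  cases c with
  | inl x =>
    have e : a * b' - a' * b = (a - x * b) * b' - (a' - x * b') * b := by ring
    rw [e]
    exact dvd_sub (Dvd.dvd.mul_right h _) (Dvd.dvd.mul_right h' _)
  | inr y =>
    have e : a * b' - a' * b = (b' - y * a') * a - (b - y * a) * a' := by ring
    rw [e]
    exact dvd_sub (Dvd.dvd.mul_right h' _) (Dvd.dvd.mul_right h _)

/-- a quotient modulo `p ^ k` -/
private theorem Cnt_quot_ex {p k : ℕ} (hp : p.Prime) {b : ℤ} (hb : ¬ (p : ℤ) ∣ b) (a : ℤ) :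
    ∃ x ∈ range (p ^ k), ((p : ℤ) ^ k) ∣ a - (x : ℤ) * b := by
  have hc : IsCoprime b ((p : ℤ) ^ k) := by
    apply IsCoprime.pow_right
    rw [isCoprime_comm]
    exact (Nat.prime_iff_prime_int.1 hp).coprime_iff_not_dvd.2 hb
  obtain ⟨u, v, huv⟩ := hc
  have hpk : (0 : ℤ) < (p : ℤ) ^ k := by
    have := hp.pos
    positivity
  refine ⟨((a * u) % (p : ℤ) ^ k).toNat, ?_, ?_⟩
  · rw [mem_range]
    have h1 := Int.emod_lt_of_pos (a * u) hpk
    have h2 := Int.emod_nonneg (a * u) hpk.ne'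
    zify
    rw [Int.toNat_of_nonneg h2]
    exact h1
  · have h2 := Int.emod_nonneg (a * u) hpk.ne'
    rw [Int.toNat_of_nonneg h2]
    have h3 := Int.emod_add_mul_ediv (a * u) ((p : ℤ) ^ k)
    refine ⟨a * v + (a * u) / (p : ℤ) ^ k * b, ?_⟩
    have h4 : (a * u) % (p : ℤ) ^ k = a * u - (p : ℤ) ^ k * ((a * u) / (p : ℤ) ^ k) := by linarith
    rw [h4]
    linear_combination -a * huv

private theorem Cnt_cls_ex (t n : ℤ) {p k : ℕ} (hp : p.Prime) (hk : 1 ≤ k) {a b : ℤ}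
    (h1 : ¬ (p : ℤ) ∣ a ^ 2 + t * a * b + n * b ^ 2) (h2 : (p : ℤ) ∣ Cnt_B5 t n a b) :
    ∃ c ∈ Cnt_Tq t n p k, Cnt_RelC p k c a b := by
  have hpp := Nat.prime_iff_prime_int.1 hp
  by_cases hb : (p : ℤ) ∣ b
  · have ha : ¬ (p : ℤ) ∣ a := by
      intro ha
      apply h1
      have e : a ^ 2 + t * a * b + n * b ^ 2 = a * (a + t * b) + b * (n * b) := by ring
      rw [e]
      exact dvd_add (Dvd.dvd.mul_right ha _) (Dvd.dvd.mul_right hb _)
    obtain ⟨y, hy, hd⟩ := Cnt_quot_ex (k := k) hp ha b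
    refine ⟨Sum.inr y, ?_, hd⟩
    unfold Cnt_Tq
    rw [inr_mem_disjSum, mem_filter]
    refine ⟨hy, ?_⟩
    have h3 : (p : ℤ) ∣ b - (y : ℤ) * a := (dvd_pow_self _ (by omega)).trans hd
    have h4 : (p : ℤ) ∣ (y : ℤ) * a := by
      have := dvd_sub hb h3
      rwa [sub_sub_cancel] at this
    rcases hpp.dvd_or_dvd h4 with h5 | h5
    · exact_mod_cast h5
    · exact absurd h5 ha
  · obtain ⟨x, hx, hd⟩ := Cnt_quot_ex (k := k) hp hb a
    refine ⟨Sum.inl x, ?_, hd⟩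
    unfold Cnt_Tq
    rw [inl_mem_disjSum, mem_filter]
    refine ⟨hx, ?_⟩
    have h3 : (p : ℤ) ∣ a - (x : ℤ) * b := (dvd_pow_self _ (by omega)).trans hd
    rw [Cnt_B5_eq] at h2
    have h4 : (p : ℤ) ∣ Cnt_H4 t n a b := (hpp.dvd_or_dvd h2).resolve_left hb
    have h5 : (p : ℤ) ∣ b ^ 4 * Cnt_H4 t n x 1 := by
      obtain ⟨c, hc⟩ := h3
      have hc' : a = x * b + p * c := by linarith
      rw [hc'] at h4
      have h6 : (p : ℤ) ∣ Cnt_H4 t n (x * b + p * c) b - b ^ 4 * Cnt_H4 t n x 1 := by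
        unfold Cnt_H4
        set y : ℤ := x * b
        have hy : b ^ 4 * (5 * (x : ℤ) ^ 4 + 10 * t * (x : ℤ) ^ 3 * 1 +
            10 * (t ^ 2 - n) * (x : ℤ) ^ 2 * 1 ^ 2 + 5 * (t ^ 3 - 2 * t * n) * x * 1 ^ 3 +
            (t ^ 4 - 3 * t ^ 2 * n + n ^ 2) * 1 ^ 4) = 5 * y ^ 4 + 10 * t * y ^ 3 * b +
            10 * (t ^ 2 - n) * y ^ 2 * b ^ 2 + 5 * (t ^ 3 - 2 * t * n) * y * b ^ 3 +
            (t ^ 4 - 3 * t ^ 2 * n + n ^ 2) * b ^ 4 := by
          simp only [y]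
          ring
        rw [hy]
        exact ⟨c * (5 * ((y + p * c) ^ 3 + (y + p * c) ^ 2 * y + (y + p * c) * y ^ 2 + y ^ 3) +
          10 * t * b * ((y + p * c) ^ 2 + (y + p * c) * y + y ^ 2) +
          10 * (t ^ 2 - n) * b ^ 2 * ((y + p * c) + y) + 5 * (t ^ 3 - 2 * t * n) * b ^ 3), by ring⟩
      have := dvd_sub h4 h6
      rwa [sub_sub_cancel] at this
    rcases hpp.dvd_or_dvd h5 with h6 | h6
    · exact absurd (hpp.dvd_of_dvd_pow h6) hb
    · exact h6

/-- the number of classes -/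
private theorem Cnt_aux (t n : ℤ) (f : ℕ) (hf : 1 ≤ f) (S : Finset (ℤ × ℤ))
    (hS : ∀ q ∈ S, IsCoprime (q.1 ^ 2 + t * q.1 * q.2 + n * q.2 ^ 2) (f : ℤ) ∧
      (f : ℤ) ∣ Cnt_B5 t n q.1 q.2)
    (hd : ∀ q ∈ S, ∀ q' ∈ S, (f : ℤ) ∣ q.1 * q'.2 - q'.1 * q.2 → q = q') :
    S.card ≤ ∏ p ∈ f.primeFactors, 6 * p ^ (f.factorization p - 1) := by
  classical
  have hf0 : f ≠ 0 := by omega
  have hex : ∀ p : ℕ, ∀ q : ℤ × ℤ, ∃ c : ℕ ⊕ ℕ, p ∈ f.primeFactors → q ∈ S →
      c ∈ Cnt_Tq t n p (f.factorization p) ∧ Cnt_RelC p (f.factorization p) c q.1 q.2 := by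
    intro p q
    by_cases h : p ∈ f.primeFactors ∧ q ∈ S
    · obtain ⟨h1, h2⟩ := h
      have hp := Nat.prime_of_mem_primeFactors h1
      have hpf := Nat.dvd_of_mem_primeFactors h1
      have hk : 1 ≤ f.factorization p := (hp.dvd_iff_one_le_factorization hf0).1 hpf
      obtain ⟨h3, h4⟩ := hS q h2
      have hpfz : (p : ℤ) ∣ (f : ℤ) := by exact_mod_cast hpf
      have h5 : ¬ (p : ℤ) ∣ q.1 ^ 2 + t * q.1 * q.2 + n * q.2 ^ 2 := by
        intro h5
        obtain ⟨u, v, huv⟩ := h3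
        have h6 : (p : ℤ) ∣ 1 := by
          rw [← huv]
          exact dvd_add (Dvd.dvd.mul_left h5 _) (Dvd.dvd.mul_left hpfz _)
        have h7 : p ∣ 1 := by exact_mod_cast h6
        exact hp.one_lt.ne' (Nat.dvd_one.1 h7)
      obtain ⟨c, hc1, hc2⟩ := Cnt_cls_ex t n hp hk h5 (hpfz.trans h4)
      exact ⟨c, fun _ _ => ⟨hc1, hc2⟩⟩
    · exact ⟨Sum.inl 0, fun h1 h2 => absurd ⟨h1, h2⟩ h⟩
  choose c hc using hex
  have h1 : S.card ≤ (Finset.pi f.primeFactors (fun p => Cnt_Tq t n p (f.factorization p))).card := by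
    apply card_le_card_of_injOn (fun q => fun p _ => c p q)
    · intro q hq
      rw [mem_coe, Finset.mem_pi]
      intro p hp
      exact (hc p q hp hq).1
    · intro q hq q' hq' h
      apply hd q hq q' hq'
      have h2 : ∀ p ∈ f.primeFactors, ((p : ℤ) ^ f.factorization p) ∣ q.1 * q'.2 - q'.1 * q.2 := by
        intro p hp
        have h3 : c p q = c p q' := congrFun (congrFun h p) hp
        have h4 := (hc p q hp hq).2
        rw [h3] at h4
        exact Cnt_rel_eq h4 (hc p q' hp hq').2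
      have h4 : (f : ℤ) = ∏ p ∈ f.primeFactors, (p : ℤ) ^ f.factorization p := by
        have h5 : ∏ p ∈ f.primeFactors, p ^ f.factorization p = f :=
          Nat.prod_factorization_pow_eq_self hf0
        conv_lhs => rw [← h5]
        push_cast
        rfl
      rw [h4]
      apply Finset.prod_dvd_of_coprime
      · intro p hp p' hp' hne
        apply IsCoprime.pow
        exact Nat.isCoprime_iff_coprime.2 ((Nat.coprime_primes (Nat.prime_of_mem_primeFactors hp)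
          (Nat.prime_of_mem_primeFactors hp')).2 hne)
      · intro p hp
        exact h2 p hp
  rw [card_pi] at h1
  refine h1.trans ?_
  apply prod_le_prod' 
  intro p hp
  have hpp := Nat.prime_of_mem_primeFactors hp
  exact Cnt_Tq_card t n hpp _ ((hpp.dvd_iff_one_le_factorization hf0).1 (Nat.dvd_of_mem_primeFactors hp))


theorem cnt (δ n : ℤ) (f : ℕ) (hf : 1 ≤ f) (Z : Finset (ℤ × ℤ))
    (h1 : ∀ z ∈ Z, IsCoprime (z.1 ^ 2 + δ * z.1 * z.2 + n * z.2 ^ 2) (f : ℤ))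
    (h5 : ∀ z ∈ Z, (f : ℤ) ∣ z.2 * Hq δ n z.1 z.2)
    (hi : ∀ z ∈ Z, ∀ z' ∈ Z, (∃ t : ℤ, (f : ℤ) ∣ z.1 - t * z'.1 ∧ (f : ℤ) ∣ z.2 - t * z'.2) →
      z = z') : Z.card * ∏ p ∈ f.primeFactors, p ≤ 6 ^ f.primeFactors.card * f := by
  have hf0 : f ≠ 0 := by omega
  have h2 : Z.card ≤ ∏ p ∈ f.primeFactors, 6 * p ^ (f.factorization p - 1) := by
    apply Cnt_aux δ n f hf Z
    · intro z hz
      exact ⟨h1 z hz, h5 z hz⟩
    · intro z hz z' hz' hd
      apply hi z hz z' hz'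
      obtain ⟨u, v, huv⟩ := h1 z' hz'
      obtain ⟨w, hw⟩ := hd
      refine ⟨u * (z.1 * z'.1 + δ * z.1 * z'.2 + n * z.2 * z'.2),
        ⟨v * z.1 + u * n * z'.2 * w, ?_⟩, ⟨v * z.2 - u * (z'.1 + δ * z'.2) * w, ?_⟩⟩
      · linear_combination -z.1 * huv + u * n * z'.2 * hw
      · linear_combination -z.2 * huv - u * (z'.1 + δ * z'.2) * hw
  calc Z.card * ∏ p ∈ f.primeFactors, p
      ≤ (∏ p ∈ f.primeFactors, 6 * p ^ (f.factorization p - 1)) * ∏ p ∈ f.primeFactors, p :=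
        Nat.mul_le_mul_right _ h2
    _ = 6 ^ f.primeFactors.card * ∏ p ∈ f.primeFactors, p ^ f.factorization p := by
        rw [← prod_mul_distrib, ← prod_const, ← prod_mul_distrib]
        apply prod_congr rfl
        intro p hp
        have hpp := Nat.prime_of_mem_primeFactors hp
        have hk : 1 ≤ f.factorization p :=
          (hpp.dvd_iff_one_le_factorization hf0).1 (Nat.dvd_of_mem_primeFactors hp)
        obtain ⟨j, hj⟩ : ∃ j, f.factorization p = j + 1 := ⟨f.factorization p - 1, by omega⟩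
        rw [hj, Nat.add_sub_cancel, pow_succ]
        ring
    _ = 6 ^ f.primeFactors.card * f := by
        congr 1
        exact Nat.prod_factorization_pow_eq_self hf0

end Pool.Agent.LBK
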