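import Pool.Agent.LBK.Defs

/-!
# LBK/Pck (size 2): packing in the plane

The map `z ↦ (⌊2 re z / r⌋, ⌊2 im z / r⌋)` is injective on `F` (same cell: `|x - y| ≤ r / √2 < r`), and its
values have absolute value `≤ 2 R / r + 1`.
-/

set_option autoImplicit false

namespace Pool.Agent.LBK

open NumberField Pool.Agent.FTA Pool.Agent.FTB Pool.Agent.SMI Pool.Agent.PP5 nonZeroDivisors
open Finset

private theorem Pck_aux {m M : ℝ} (hm : 0 < m) (hM : 0 ≤ M) (T : Finset ℂ) (h1 : ∀ x ∈ T, ‖x‖ ≤ M)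
    (h2 : ∀ x ∈ T, ∀ y ∈ T, x ≠ y → m ≤ ‖x - y‖) : (T.card : ℝ) ≤ (4 * M / m + 3) ^ 2 := by
  classical
  set N : ℤ := ⌊2 * M / m⌋ with hN
  have hN0 : 0 ≤ N := Int.floor_nonneg.2 (by positivity)
  have hNle : (N : ℝ) ≤ 2 * M / m := Int.floor_le _
  -- the cells
  have hc : ∀ a : ℝ, |a| ≤ M → ⌊a * (2 / m)⌋ ∈ Icc (-N - 1) N := by
    intro a ha
    obtain ⟨h3, h4⟩ := abs_le.1 ha
    have hm2 : 0 < 2 / m := by positivity
    rw [mem_Icc]
    constructor
    · apply Int.le_floor.2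
      have h5 : -M * (2 / m) ≤ a * (2 / m) := mul_le_mul_of_nonneg_right h3 hm2.le
      have h6 : 2 * M / m < N + 1 := Int.lt_floor_add_one _
      have h7 : M * (2 / m) = 2 * M / m := by ring
      push_cast
      nlinarith
    · apply Int.floor_le_floor
      have h5 : a * (2 / m) ≤ M * (2 / m) := mul_le_mul_of_nonneg_right h4 hm2.le
      have h7 : M * (2 / m) = 2 * M / m := by ring
      linarith
  have h3 : T.card ≤ (Icc (-N - 1) N ×ˢ Icc (-N - 1) N).card := by
    apply card_le_card_of_injOn (fun x : ℂ => (⌊x.re * (2 / m)⌋, ⌊x.im * (2 / m)⌋))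
    · intro x hx
      rw [mem_coe] at hx
      rw [mem_coe, mem_product]
      exact ⟨hc _ ((Complex.abs_re_le_norm x).trans (h1 x hx)),
        hc _ ((Complex.abs_im_le_norm x).trans (h1 x hx))⟩
    · intro x hx y hy hxy
      rw [mem_coe] at hx hy
      by_contra hne
      have h4 := h2 x hx y hy hne
      have e1 : ⌊x.re * (2 / m)⌋ = ⌊y.re * (2 / m)⌋ := (Prod.ext_iff.1 hxy).1
      have e2 : ⌊x.im * (2 / m)⌋ = ⌊y.im * (2 / m)⌋ := (Prod.ext_iff.1 hxy).2
      have f1 := Int.abs_sub_lt_one_of_floor_eq_floor e1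
      have f2 := Int.abs_sub_lt_one_of_floor_eq_floor e2
      have hm2 : 0 < 2 / m := by positivity
      have g : ∀ a b : ℝ, |a * (2 / m) - b * (2 / m)| < 1 → (a - b) ^ 2 ≤ m ^ 2 / 4 := by
        intro a b h
        rw [← sub_mul, abs_mul, abs_of_pos hm2] at h
        have h5 : |a - b| < m / 2 := by
          rw [← lt_div_iff₀ hm2] at h
          calc |a - b| < 1 / (2 / m) := h
            _ = m / 2 := by field_simp
        calc (a - b) ^ 2 = |a - b| ^ 2 := (sq_abs _).symm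
          _ ≤ (m / 2) ^ 2 := pow_le_pow_left₀ (abs_nonneg _) h5.le 2
          _ = m ^ 2 / 4 := by ring
      have g1 := g _ _ f1
      have g2 := g _ _ f2
      have h5 : ‖x - y‖ ^ 2 = (x.re - y.re) ^ 2 + (x.im - y.im) ^ 2 := by
        rw [← Complex.normSq_eq_norm_sq, Complex.normSq_apply]
        simp only [Complex.sub_re, Complex.sub_im]
        ring
      have h6 : m ^ 2 ≤ ‖x - y‖ ^ 2 := pow_le_pow_left₀ hm.le h4 2
      nlinarith [sq_pos_of_pos hm]
  rw [card_product, Int.card_Icc] at h3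
  have h4 : ((N + 1 - (-N - 1)).toNat : ℝ) = 2 * N + 2 := by
    have h5 : (((N + 1 - (-N - 1)).toNat : ℕ) : ℤ) = 2 * N + 2 := by
      rw [Int.toNat_of_nonneg (by omega)]
      ring
    exact_mod_cast h5
  calc (T.card : ℝ) ≤ (((N + 1 - (-N - 1)).toNat * (N + 1 - (-N - 1)).toNat : ℕ) : ℝ) := by
        exact_mod_cast h3
    _ = (2 * (N : ℝ) + 2) ^ 2 := by
        push_cast
        rw [h4]
        ring
    _ ≤ (4 * M / m + 3) ^ 2 := by
        apply pow_le_pow_left₀
        · have : (0 : ℝ) ≤ N := by exact_mod_cast hN0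
          linarith
        · have : 4 * M / m = 2 * (2 * M / m) := by ring
          rw [this]
          linarith

theorem pck (F : Finset ℂ) (r R : ℝ) (hr : 0 < r) (hR : 0 ≤ R) (h : ∀ x ∈ F, ‖x‖ ≤ R)
    (h' : ∀ x ∈ F, ∀ y ∈ F, x ≠ y → r ≤ ‖x - y‖) : (F.card : ℝ) ≤ (4 * R / r + 4) ^ 2 := by
  refine (Pck_aux hr hR F h h').trans (pow_le_pow_left₀ (by positivity) (by linarith) 2)

/-- the same with squares of absolute values -/
theorem pck2 (F : Finset ℂ) (a b : ℝ) (ha : 0 < a) (hb : 0 ≤ b)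
    (h : ∀ x ∈ F, (x * (starRingEnd ℂ) x).re ≤ b)
    (h' : ∀ x ∈ F, ∀ y ∈ F, x ≠ y → a ≤ ((x - y) * (starRingEnd ℂ) (x - y)).re) :
    (F.card : ℝ) ≤ (4 * √(b / a) + 4) ^ 2 := by
  have hn : ∀ x : ℂ, (x * (starRingEnd ℂ) x).re = ‖x‖ ^ 2 := by
    intro x
    rw [Complex.mul_conj, Complex.normSq_eq_norm_sq, Complex.ofReal_re]
  have h1 := pck F (√a) (√b) (Real.sqrt_pos.2 ha) (Real.sqrt_nonneg _)
    (fun x hx => by
      have := h x hx
      rw [hn] at this
      exact Real.le_sqrt_of_sq_le this)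
    (fun x hx y hy hne => by
      have := h' x hx y hy hne
      rw [hn] at this
      exact (Real.sqrt_le_left (norm_nonneg _)).2 this)
  rwa [mul_div_assoc, ← Real.sqrt_div hb] at h1

end Pool.Agent.LBK
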