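import Pool.Agent.LBK.Idl
import Pool.Agent.LBK.Pck

/-!
# LBK/Fbr (size 5): points with the same `f_V`

All `P ∈ T` have the same `Nf, Bf`, so the same `Nq` (`df_eq`), the same `al P s`, the same ideal
`I` (`idl`: membership is the same).  Fix `P0 ∈ T`.
(1) For `P, P' ∈ T` there are integers `w1, w2` with `b1 P' - b1 P = w1 b1 P + w2 b2 P`: `b1 P'` is an integer
combination of `al(1,0)^2, al(1,0) al(0,1), al(0,1)^2` (from `N b1 = P0 a12 - P1 a11`,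
`Bf b1 = P0 a22 - P2 a11`, `Nq b1 = P1 a22 - P2 a12` and `bez`), and these are integer combinations of
`b1 P, b2 P`.  The same for `b2 P' - b2 P`.
`|w1 b1 + w2 b2|^2 = N^2 fW(w1, w2)` (`bb11, bb12, bb22`) `>= N^2 c1 Y` if it is not 0, and
`|b1|^2 = Kf N^2, |b2|^2 = Kq N^2 <= c2 Y N^2`.  By `pck2` there are at most
`(4 sqrt(c2/c1) + 4)^2` values of `b1`, and of `b2`.
(2) `ga P / ga P0` is a unit of `O_K` (`span {g} = I^5 = span {g0}`), with `|.|^2 = 1` (`gg`), so it is a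
12th root of unity (`unit12`): at most 12 values of `ga P`.
(3) `(b1, b2, ga)` determines `P`: `a11, a12, a22` give `P0 .. P5` since `b1, b2` are linearly independent
over the reals (`b1 conj b2` has imaginary part `-N^2 im(s)/2 <> 0`); then `b11, b12, b22` give
`P9 N - P6 (Bf - s)/2` etc. (`ga <> 0`), so `P6 .. P11`.
-/

set_option autoImplicit false

namespace Pool.Agent.LBK

open NumberField Pool.Agent.FTA Pool.Agent.FTB Pool.Agent.SMI Pool.Agent.PP5 nonZeroDivisors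

private theorem Fbr_def (a b c x y : ℤ) (ha : 0 < a) (hd : b ^ 2 - 4 * a * c < 0)
    (h : a * x ^ 2 + b * x * y + c * y ^ 2 = 0) : x = 0 ∧ y = 0 := by
  have h1 : (2 * a * x + b * y) ^ 2 + (4 * a * c - b ^ 2) * y ^ 2 = 0 := by
    linear_combination 4 * a * h
  have h2 : y = 0 := by
    by_contra hy
    have h3 : 0 < y ^ 2 := by positivity
    nlinarith [sq_nonneg (2 * a * x + b * y)]
  subst h2
  have h4 : a * x ^ 2 = 0 := by linear_combination h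
  have h5 : x ^ 2 = 0 := by
    rcases mul_eq_zero.1 h4 with h6 | h6
    · omega
    · exact h6
  exact ⟨by simpa using h5, rfl⟩

private theorem Fbr_cb1 (P : Sp) (s : ℂ) (hs : (starRingEnd ℂ) s = -s) :
    (starRingEnd ℂ) (b1 P s) = b1 P (-s) := by
  unfold b1
  simp only [map_sub, map_mul, map_div₀, map_intCast, hs, map_ofNat]

private theorem Fbr_cb2 (P : Sp) (s : ℂ) (hs : (starRingEnd ℂ) s = -s) :
    (starRingEnd ℂ) (b2 P s) = b2 P (-s) := by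
  unfold b2
  simp only [map_sub, map_mul, map_add, map_div₀, map_intCast, hs, map_ofNat]

private theorem Fbr_cga (P : Sp) (s : ℂ) (hs : (starRingEnd ℂ) s = -s) :
    (starRingEnd ℂ) (ga P s) = ga P (-s) := by
  unfold ga
  simp only [map_sub, map_mul, map_add, map_div₀, map_intCast, hs, map_ofNat]

private theorem Fbr_nrm (P : Sp) (h : Qd P) (hD : Df P < 0) (s : ℂ) (hs : s ^ 2 = (Df P : ℂ))
    (hc : (starRingEnd ℂ) s = -s) (w1 w2 : ℤ) :
    ((w1 : ℂ) * b1 P s + (w2 : ℂ) * b2 P s) *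
      (starRingEnd ℂ) ((w1 : ℂ) * b1 P s + (w2 : ℂ) * b2 P s) =
      (((Nf P : ℝ) ^ 2 * (fW P w1 w2 : ℝ) : ℝ) : ℂ) := by
  have e1 := bb11 P h hD s hs
  have e2 := bb12 P h hD s hs
  have e3 := bb12 P h hD (-s) (by rw [neg_sq]; exact hs)
  have e4 := bb22 P h hD s hs
  rw [neg_neg] at e3
  rw [map_add, map_mul, map_mul, map_intCast, map_intCast, Fbr_cb1 P s hc, Fbr_cb2 P s hc]
  unfold fW
  push_cast
  linear_combination (w1 : ℂ) ^ 2 * e1 + (w1 : ℂ) * w2 * e2 + (w1 : ℂ) * w2 * e3 +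
    (w2 : ℂ) ^ 2 * e4

private theorem Fbr_ind (P : Sp) (h : Qd P) (hD : Df P < 0) (s : ℂ) (hs : s ^ 2 = (Df P : ℂ))
    (hc : (starRingEnd ℂ) s = -s) (x y : ℤ) (hxy : (x : ℂ) * b1 P s + (y : ℂ) * b2 P s = 0) :
    x = 0 ∧ y = 0 := by
  have h1 := Fbr_nrm P h hD s hs hc x y
  obtain ⟨hN, hK⟩ := pos P h hD
  rw [hxy, zero_mul] at h1
  have h2 : (Nf P : ℝ) ^ 2 * (fW P x y : ℝ) = 0 := by exact_mod_cast h1.symm
  have h3 : (Nf P) ^ 2 * fW P x y = 0 := by exact_mod_cast h2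
  have h4 : fW P x y = 0 := by
    rcases mul_eq_zero.1 h3 with h5 | h5
    · exact absurd h5 (pow_ne_zero 2 hN.ne')
    · exact h5
  have h6 := dg_eq P h
  exact Fbr_def (Kf P) (Bg P) (Kq P) x y hK (by rw [← h6]; exact hD) h4

private theorem Fbr_inv (P : Sp) (h : Qd P) (hD : Df P < 0) (s : ℂ) (hs : s ^ 2 = (Df P : ℂ))
    (x y : ℤ) (hxy : (x : ℂ) * (Nf P : ℂ) - (y : ℂ) * (((Bf P : ℂ) - s) / 2) = 0) :
    x = 0 ∧ y = 0 := by
  obtain ⟨hN, -⟩ := pos P h hD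
  have h1 := al_norm P h s hs x (-y)
  have h2 : al P (-s) x (-y) = 0 := by
    unfold al
    push_cast
    linear_combination hxy
  rw [h2, mul_zero] at h1
  have h3 : (Nf P) * fV P x (-y) = 0 := by exact_mod_cast h1.symm
  have h4 : fV P x (-y) = 0 := by
    rcases mul_eq_zero.1 h3 with h5 | h5
    · exact absurd h5 hN.ne'
    · exact h5
  have h6 := df_eq P h
  obtain ⟨h7, h8⟩ := Fbr_def (Nf P) (Bf P) (Nq P) x (-y) hN (by rw [← h6]; exact hD) h4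
  exact ⟨h7, by omega⟩

private theorem Fbr_comb (P P' : Sp) (h : Qd P) (h' : Qd P') (s : ℂ) (hs : s ^ 2 = (Df P : ℂ))
    (hs' : s ^ 2 = (Df P' : ℂ)) (hp : Ppr P') (hN : Nf P' = Nf P) (hB : Bf P' = Bf P) :
    (∃ w1 w2 : ℤ, b1 P' s = (w1 : ℂ) * b1 P s + (w2 : ℂ) * b2 P s) ∧
      (∃ w1 w2 : ℤ, b2 P' s = (w1 : ℂ) * b1 P s + (w2 : ℂ) * b2 P s) := by
  obtain ⟨x, y, z, hxyz⟩ := bez P' hp
  obtain ⟨-, m2, m3, -, -, -⟩ := minors P' h'
  have m1 : Nf P' = P' 0 * P' 4 - P' 1 * P' 3 := rfl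
  rw [← m2, ← m3, m1] at hxyz
  have hx : (x : ℂ) * ((P' 0 : ℂ) * (P' 4 : ℂ) - (P' 1 : ℂ) * (P' 3 : ℂ)) +
      (y : ℂ) * ((P' 0 : ℂ) * (P' 5 : ℂ) - (P' 2 : ℂ) * (P' 3 : ℂ)) +
      (z : ℂ) * ((P' 1 : ℂ) * (P' 5 : ℂ) - (P' 2 : ℂ) * (P' 4 : ℂ)) = 1 := by
    exact_mod_cast hxyz
  have hal : ∀ v1 v2 : ℤ, al P' s v1 v2 = al P s v1 v2 := by
    intro v1 v2
    unfold al
    rw [hN, hB]
  have e1 : (P' 3 : ℂ) * b1 P' s - (P' 0 : ℂ) * b2 P' s =
      (P 3 : ℂ) * b1 P s - (P 0 : ℂ) * b2 P s := by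
    rw [← a11 P h s hs, ← a11 P' h' s hs', hal]
  have e2 : (P' 4 : ℂ) * b1 P' s - (P' 1 : ℂ) * b2 P' s =
      (P 4 : ℂ) * b1 P s - (P 1 : ℂ) * b2 P s := by
    rw [← a12 P h s hs, ← a12 P' h' s hs', hal, hal]
  have e3 : (P' 5 : ℂ) * b1 P' s - (P' 2 : ℂ) * b2 P' s =
      (P 5 : ℂ) * b1 P s - (P 2 : ℂ) * b2 P s := by
    rw [← a22 P h s hs, ← a22 P' h' s hs', hal]
  constructor
  · refine ⟨x * (P' 0 * P 4 - P' 1 * P 3) + y * (P' 0 * P 5 - P' 2 * P 3) +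
      z * (P' 1 * P 5 - P' 2 * P 4), -(x * (P' 0 * P 1 - P' 1 * P 0) +
      y * (P' 0 * P 2 - P' 2 * P 0) + z * (P' 1 * P 2 - P' 2 * P 1)), ?_⟩
    push_cast
    linear_combination (-(b1 P' s)) * hx + (x : ℂ) * (P' 0 : ℂ) * e2 - (x : ℂ) * (P' 1 : ℂ) * e1 +
      (y : ℂ) * (P' 0 : ℂ) * e3 - (y : ℂ) * (P' 2 : ℂ) * e1 + (z : ℂ) * (P' 1 : ℂ) * e3 -
      (z : ℂ) * (P' 2 : ℂ) * e2
  · refine ⟨x * (P' 3 * P 4 - P' 4 * P 3) + y * (P' 3 * P 5 - P' 5 * P 3) +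
      z * (P' 4 * P 5 - P' 5 * P 4), -(x * (P' 3 * P 1 - P' 4 * P 0) +
      y * (P' 3 * P 2 - P' 5 * P 0) + z * (P' 4 * P 2 - P' 5 * P 1)), ?_⟩
    push_cast
    linear_combination (-(b2 P' s)) * hx + (x : ℂ) * (P' 3 : ℂ) * e2 - (x : ℂ) * (P' 4 : ℂ) * e1 +
      (y : ℂ) * (P' 3 : ℂ) * e3 - (y : ℂ) * (P' 5 : ℂ) * e1 + (z : ℂ) * (P' 4 : ℂ) * e3 -
      (z : ℂ) * (P' 5 : ℂ) * e2

private theorem Fbr_inj (P P' : Sp) (h : Qd P) (h' : Qd P') (hD : Df P < 0) (hD' : Df P' < 0)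
    (s : ℂ) (hs : s ^ 2 = (Df P : ℂ)) (hs' : s ^ 2 = (Df P' : ℂ))
    (hc : (starRingEnd ℂ) s = -s) (hN : Nf P' = Nf P) (hB : Bf P' = Bf P)
    (e1 : b1 P' s = b1 P s) (e2 : b2 P' s = b2 P s) (e3 : ga P' s = ga P s) : P' = P := by
  have hal : ∀ v1 v2 : ℤ, al P' s v1 v2 = al P s v1 v2 := by
    intro v1 v2
    unfold al
    rw [hN, hB]
  have f1 : (P' 3 : ℂ) * b1 P s - (P' 0 : ℂ) * b2 P s =
      (P 3 : ℂ) * b1 P s - (P 0 : ℂ) * b2 P s := by
    rw [← a11 P h s hs, ← hal, a11 P' h' s hs', e1, e2]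
  have f2 : (P' 4 : ℂ) * b1 P s - (P' 1 : ℂ) * b2 P s =
      (P 4 : ℂ) * b1 P s - (P 1 : ℂ) * b2 P s := by
    rw [← a12 P h s hs, ← hal, ← hal 0 1, a12 P' h' s hs', e1, e2]
  have f3 : (P' 5 : ℂ) * b1 P s - (P' 2 : ℂ) * b2 P s =
      (P 5 : ℂ) * b1 P s - (P 2 : ℂ) * b2 P s := by
    rw [← a22 P h s hs, ← hal, a22 P' h' s hs', e1, e2]
  obtain ⟨g1, g2⟩ := Fbr_ind P h hD s hs hc (P' 3 - P 3) (P 0 - P' 0) (by
    push_cast
    linear_combination f1)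
  obtain ⟨g3, g4⟩ := Fbr_ind P h hD s hs hc (P' 4 - P 4) (P 1 - P' 1) (by
    push_cast
    linear_combination f2)
  obtain ⟨g5, g6⟩ := Fbr_ind P h hD s hs hc (P' 5 - P 5) (P 2 - P' 2) (by
    push_cast
    linear_combination f3)
  have hga := ga_ne P h hD s hs
  have k1 : (P' 9 : ℂ) * (Nf P : ℂ) - (P' 6 : ℂ) * (((Bf P : ℂ) - s) / 2) =
      (P 9 : ℂ) * (Nf P : ℂ) - (P 6 : ℂ) * (((Bf P : ℂ) - s) / 2) := by
    have q1 := b11 P h hD s hs
    have q2 := b11 P' h' hD' s hs'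
    rw [e1, e3, hN, hB] at q2
    exact mul_left_cancel₀ hga (q2.symm.trans q1)
  have k2 : (P' 10 : ℂ) * (Nf P : ℂ) - (P' 7 : ℂ) * (((Bf P : ℂ) - s) / 2) =
      (P 10 : ℂ) * (Nf P : ℂ) - (P 7 : ℂ) * (((Bf P : ℂ) - s) / 2) := by
    have q1 := b12 P h hD s hs
    have q2 := b12 P' h' hD' s hs'
    rw [e1, e2, e3, hN, hB] at q2
    exact mul_left_cancel₀ hga (q2.symm.trans q1)
  have k3 : (P' 11 : ℂ) * (Nf P : ℂ) - (P' 8 : ℂ) * (((Bf P : ℂ) - s) / 2) =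
      (P 11 : ℂ) * (Nf P : ℂ) - (P 8 : ℂ) * (((Bf P : ℂ) - s) / 2) := by
    have q1 := b22 P h hD s hs
    have q2 := b22 P' h' hD' s hs'
    rw [e2, e3, hN, hB] at q2
    exact mul_left_cancel₀ hga (q2.symm.trans q1)
  obtain ⟨l1, l2⟩ := Fbr_inv P h hD s hs (P' 9 - P 9) (P' 6 - P 6) (by
    push_cast
    linear_combination k1)
  obtain ⟨l3, l4⟩ := Fbr_inv P h hD s hs (P' 10 - P 10) (P' 7 - P 7) (by
    push_cast
    linear_combination k2)
  obtain ⟨l5, l6⟩ := Fbr_inv P h hD s hs (P' 11 - P 11) (P' 8 - P 8) (by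
    push_cast
    linear_combination k3)
  funext i
  fin_cases i
  · show P' 0 = P 0
    omega
  · show P' 1 = P 1
    omega
  · show P' 2 = P 2
    omega
  · show P' 3 = P 3
    omega
  · show P' 4 = P 4
    omega
  · show P' 5 = P 5
    omega
  · show P' 6 = P 6
    omega
  · show P' 7 = P 7
    omega
  · show P' 8 = P 8
    omega
  · show P' 9 = P 9
    omega
  · show P' 10 = P 10
    omega
  · show P' 11 = P 11
    omega

/-- the generator up to a twelfth root of unity -/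
private theorem Fbr_unit (K : IntermediateField ℚ ℂ) [NumberField K]
    (h2 : Module.finrank ℚ K = 2) (him : ∃ x : K, (x : ℂ).im ≠ 0) (f : ℕ) (P P0 : Sp)
    (h : Pt K f P) (h0 : Pt K f P0) (hN : Nf P = Nf P0) (hB : Bf P = Bf P0) :
    ∃ z : ℂ, z ^ 12 = 1 ∧ ga P (sK K f) = ga P0 (sK K f) * z := by
  obtain ⟨I, g, hI, hg, hI5⟩ := idl K h2 him f P h
  obtain ⟨I0, g0, hI0, hg0, hI05⟩ := idl K h2 him f P0 h0
  have hal : ∀ v1 v2 : ℤ, al P (sK K f) v1 v2 = al P0 (sK K f) v1 v2 := by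
    intro v1 v2
    unfold al
    rw [hN, hB]
  have hII : (I : Ideal (𝓞 K)) = (I0 : Ideal (𝓞 K)) := by
    ext u
    rw [hI, hI0]
    simp only [InI, InV, hal]
  have hspan : Ideal.span {g0} = Ideal.span {g} := by
    rw [← hI5, ← hI05, hII]
  obtain ⟨u, hu⟩ := Ideal.span_singleton_eq_span_singleton.1 hspan
  have hs := sK_df K f P h
  have hs0 := sK_df K f P0 h0
  have hD := df_neg K f P h
  have hD0 := df_neg K f P0 h0
  have hc := sK_conj K f
  have hz : ga P (sK K f) = ga P0 (sK K f) * cv K (u : 𝓞 K) := by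
    rw [← hg, ← hg0, ← hu]
    simp [cv]
  refine ⟨cv K (u : 𝓞 K), ?_, hz⟩
  apply unit12 K h2 him
  · exact (isO_cv K h2 him _).2 ⟨_, rfl⟩
  · have e1 := gg P h.qd hD _ hs
    have e2 := gg P0 h0.qd hD0 _ hs0
    rw [← Fbr_cga P _ hc, hz, map_mul] at e1
    rw [← Fbr_cga P0 _ hc] at e2
    have hN0 : (Nf P0 : ℂ) ^ 5 ≠ 0 := by
      have := (pos P0 h0.qd hD0).1
      have h3 : (Nf P0 : ℂ) ≠ 0 := by exact_mod_cast this.ne'
      exact pow_ne_zero 5 h3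
    rw [hN, ← e2] at e1
    rw [← e2] at hN0
    apply mul_left_cancel₀ hN0
    linear_combination e1

theorem fbr (c1 c2 : ℝ) (h1 : 0 < c1) (h2c : 0 < c2) : ∃ C : ℝ, 0 < C ∧
    ∀ (K : IntermediateField ℚ ℂ) [NumberField K] (_ : Module.finrank ℚ K = 2)
    (_ : ∃ x : K, (x : ℂ).im ≠ 0) (f : ℕ) (Y : ℝ) (_ : 0 < Y) (n b : ℤ) (T : Finset Sp),
    (∀ P ∈ T, Pt K f P ∧ Blc c1 c2 Y P ∧ Nf P = n ∧ Bf P = b) → (T.card : ℝ) ≤ C := by
  classical
  refine ⟨(4 * √(c2 / c1) + 4) ^ 2 * ((4 * √(c2 / c1) + 4) ^ 2 * 12), by positivity, ?_⟩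
  intro K _ h2 him f Y hY n b T hT
  rcases T.eq_empty_or_nonempty with h0 | ⟨P0, hP0⟩
  · rw [h0]
    simp only [Finset.card_empty, Nat.cast_zero]
    positivity
  set s := sK K f with hsdef
  have hc : (starRingEnd ℂ) s = -s := sK_conj K f
  have hs : ∀ P ∈ T, s ^ 2 = (Df P : ℂ) := fun P hP => sK_df K f P (hT P hP).1
  have hD : ∀ P ∈ T, Df P < 0 := fun P hP => df_neg K f P (hT P hP).1
  have hq : ∀ P ∈ T, Qd P := fun P hP => (hT P hP).1.qd
  have hn : 0 < n := by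
    have h1 := (pos P0 (hq P0 hP0) (hD P0 hP0)).1
    rw [(hT P0 hP0).2.2.1] at h1
    exact h1
  have hnR : (0 : ℝ) < (n : ℝ) := by exact_mod_cast hn
  set a : ℝ := (n : ℝ) ^ 2 * (c1 * Y) with ha
  set d : ℝ := (n : ℝ) ^ 2 * (c2 * Y) with hd
  have ha0 : 0 < a := by positivity
  have hd0 : 0 ≤ d := by positivity
  have hda : d / a = c2 / c1 := by
    rw [ha, hd]
    field_simp
  have hF1 : (((T.image (fun P => b1 P s)).card : ℕ) : ℝ) ≤ (4 * √(c2 / c1) + 4) ^ 2 := by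
    rw [← hda]
    apply pck2 _ a d ha0 hd0
    · intro x hx
      rw [Finset.mem_image] at hx
      obtain ⟨P, hP, rfl⟩ := hx
      have e1 := Fbr_nrm P (hq P hP) (hD P hP) s (hs P hP) hc 1 0
      have e2 : ((1 : ℤ) : ℂ) * b1 P s + ((0 : ℤ) : ℂ) * b2 P s = b1 P s := by
        push_cast
        ring
      rw [e2] at e1
      rw [e1, Complex.ofReal_re, (hT P hP).2.2.1, hd]
      have e3 : (fW P 1 0 : ℝ) = (Kf P : ℝ) := by
        unfold fW
        push_cast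
        ring
      rw [e3]
      exact mul_le_mul_of_nonneg_left (hT P hP).2.1.wN (by positivity)
    · intro x hx y hy hxy
      rw [Finset.mem_image] at hx hy
      obtain ⟨P', hP', rfl⟩ := hx
      obtain ⟨P, hP, rfl⟩ := hy
      obtain ⟨⟨w1, w2, hw⟩, -⟩ := Fbr_comb P P' (hq P hP) (hq P' hP') s (hs P hP) (hs P' hP')
        (hT P' hP').1.pp ((hT P' hP').2.2.1.trans (hT P hP).2.2.1.symm)
        ((hT P' hP').2.2.2.trans (hT P hP).2.2.2.symm)
      have e1 : b1 P' s - b1 P s = ((w1 - 1 : ℤ) : ℂ) * b1 P s + (w2 : ℂ) * b2 P s := by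
        rw [hw]
        push_cast
        ring
      have e2 := Fbr_nrm P (hq P hP) (hD P hP) s (hs P hP) hc (w1 - 1) w2
      have hne : w1 - 1 ≠ 0 ∨ w2 ≠ 0 := by
        by_contra hcon
        push Not at hcon
        apply hxy
        rw [hcon.1, hcon.2] at e1
        have e3 : b1 P' s - b1 P s = 0 := by
          rw [e1]
          push_cast
          ring
        exact sub_eq_zero.1 e3
      show a ≤ ((b1 P' s - b1 P s) * (starRingEnd ℂ) (b1 P' s - b1 P s)).re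
      rw [e1, e2, Complex.ofReal_re, (hT P hP).2.2.1, ha]
      exact mul_le_mul_of_nonneg_left ((hT P hP).2.1.wm _ _ hne) (by positivity)
  have hF2 : (((T.image (fun P => b2 P s)).card : ℕ) : ℝ) ≤ (4 * √(c2 / c1) + 4) ^ 2 := by
    rw [← hda]
    apply pck2 _ a d ha0 hd0
    · intro x hx
      rw [Finset.mem_image] at hx
      obtain ⟨P, hP, rfl⟩ := hx
      have e1 := Fbr_nrm P (hq P hP) (hD P hP) s (hs P hP) hc 0 1
      have e2 : ((0 : ℤ) : ℂ) * b1 P s + ((1 : ℤ) : ℂ) * b2 P s = b2 P s := by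
        push_cast
        ring
      rw [e2] at e1
      rw [e1, Complex.ofReal_re, (hT P hP).2.2.1, hd]
      have e3 : (fW P 0 1 : ℝ) = (Kq P : ℝ) := by
        unfold fW
        push_cast
        ring
      rw [e3]
      exact mul_le_mul_of_nonneg_left (hT P hP).2.1.wQ (by positivity)
    · intro x hx y hy hxy
      rw [Finset.mem_image] at hx hy
      obtain ⟨P', hP', rfl⟩ := hx
      obtain ⟨P, hP, rfl⟩ := hy
      obtain ⟨-, ⟨w1, w2, hw⟩⟩ := Fbr_comb P P' (hq P hP) (hq P' hP') s (hs P hP) (hs P' hP')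
        (hT P' hP').1.pp ((hT P' hP').2.2.1.trans (hT P hP).2.2.1.symm)
        ((hT P' hP').2.2.2.trans (hT P hP).2.2.2.symm)
      have e1 : b2 P' s - b2 P s = (w1 : ℂ) * b1 P s + ((w2 - 1 : ℤ) : ℂ) * b2 P s := by
        rw [hw]
        push_cast
        ring
      have e2 := Fbr_nrm P (hq P hP) (hD P hP) s (hs P hP) hc w1 (w2 - 1)
      have hne : w1 ≠ 0 ∨ w2 - 1 ≠ 0 := by
        by_contra hcon
        push Not at hcon
        apply hxy
        rw [hcon.1, hcon.2] at e1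
        have e3 : b2 P' s - b2 P s = 0 := by
          rw [e1]
          push_cast
          ring
        exact sub_eq_zero.1 e3
      show a ≤ ((b2 P' s - b2 P s) * (starRingEnd ℂ) (b2 P' s - b2 P s)).re
      rw [e1, e2, Complex.ofReal_re, (hT P hP).2.2.1, ha]
      exact mul_le_mul_of_nonneg_left ((hT P hP).2.1.wm _ _ hne) (by positivity)
  set F3 : Finset ℂ :=
    ((Polynomial.nthRoots 12 (1 : ℂ)).toFinset).image (fun z => ga P0 s * z) with hF3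
  have hF3c : ((F3.card : ℕ) : ℝ) ≤ 12 := by
    have e1 : F3.card ≤ 12 := by
      rw [hF3]
      exact Finset.card_image_le.trans ((Multiset.toFinset_card_le _).trans
        (Polynomial.card_nthRoots 12 1))
    exact_mod_cast e1
  have hle : T.card ≤ ((T.image (fun P => b1 P s)) ×ˢ ((T.image (fun P => b2 P s)) ×ˢ F3)).card := by
    apply Finset.card_le_card_of_injOn (fun P => (b1 P s, b2 P s, ga P s))
    · intro P hP
      have hP' : P ∈ T := hP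
      simp only [Finset.coe_product, Set.mem_prod, Finset.mem_coe]
      refine ⟨Finset.mem_image_of_mem _ hP', Finset.mem_image_of_mem _ hP', ?_⟩
      obtain ⟨z, hz1, hz2⟩ := Fbr_unit K h2 him f P P0 (hT P hP').1 (hT P0 hP0).1
        ((hT P hP').2.2.1.trans (hT P0 hP0).2.2.1.symm)
        ((hT P hP').2.2.2.trans (hT P0 hP0).2.2.2.symm)
      rw [hF3, Finset.mem_image]
      refine ⟨z, ?_, ?_⟩
      · rw [Multiset.mem_toFinset, Polynomial.mem_nthRoots (by norm_num)]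
        exact hz1
      · rw [hsdef]
        exact hz2.symm
    · intro P hP P' hP' hPP
      have hP1 : P ∈ T := hP
      have hP1' : P' ∈ T := hP'
      simp only [Prod.mk.injEq] at hPP
      exact Fbr_inj P' P (hq P' hP1') (hq P hP1) (hD P' hP1') (hD P hP1) s (hs P' hP1')
        (hs P hP1) hc ((hT P hP1).2.2.1.trans (hT P' hP1').2.2.1.symm)
        ((hT P hP1).2.2.2.trans (hT P' hP1').2.2.2.symm) hPP.1 hPP.2.1 hPP.2.2
  have hle' : (T.card : ℝ) ≤ (((T.image (fun P => b1 P s)).card : ℕ) : ℝ) *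
      ((((T.image (fun P => b2 P s)).card : ℕ) : ℝ) * ((F3.card : ℕ) : ℝ)) := by
    rw [Finset.card_product, Finset.card_product] at hle
    exact_mod_cast hle
  refine hle'.trans ?_
  have p1 : (0 : ℝ) ≤ (((T.image (fun P => b1 P s)).card : ℕ) : ℝ) := Nat.cast_nonneg _
  have p2 : (0 : ℝ) ≤ (((T.image (fun P => b2 P s)).card : ℕ) : ℝ) := Nat.cast_nonneg _
  have p3 : (0 : ℝ) ≤ ((F3.card : ℕ) : ℝ) := Nat.cast_nonneg _
  exact mul_le_mul hF1 (mul_le_mul hF2 hF3c p3 (by positivity)) (by positivity) (by positivity)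

end Pool.Agent.LBK
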