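import Pool.Agent.LBK.Kap
import Pool.Agent.LBK.Fbr

/-!
# LBK/Vcl (size 4): points with the same lattice `V_P / k_P`

`P1` is the reference point, `k P` the factor of `P`, `x1 P := al P s 1 0 / k P`,
`x2 P := al P s 0 1 / k P` (both in `I_P1`).  `|x1|^2 = N^2 / |k|^2 = N N1 <= c2 Y N1`,
`|x2|^2 = N Nq / |k|^2 = Nq N1 <= c2 Y N1` (`kap`, `al_norm`).  If `x1 P <> x1 P'`: `k P (x1 P - x1 P')`
lies in `V_P` (for `x1 P'`: `k P' (x1 P') ∈ V_P'`, and `hV`), so it is `al P s v`, `v <> 0`, and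
`|x1 P - x1 P'|^2 = N fV(v) / |k P|^2 >= c1 Y N1`.  `pck2`: at most `(4 sqrt(c2/c1) + 4)^2` values of `x1`,
and of `x2`.  `(x1, x2)` determines `(Nf P, Bf P)`: `|x1|^2 = N N1`,
`conj(x1) x2 = N ((Bf + s)/2) / |k|^2 = N1 (Bf + s)/2`.  Then `fbr`.
-/

set_option autoImplicit false

namespace Pool.Agent.LBK

open NumberField Pool.Agent.FTA Pool.Agent.FTB Pool.Agent.SMI Pool.Agent.PP5 nonZeroDivisors

private theorem Vcl_fV10 (P : Sp) : fV P 1 0 = Nf P := by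
  unfold fV
  ring

private theorem Vcl_fV01 (P : Sp) : fV P 0 1 = Nq P := by
  unfold fV
  ring

/-- the norm of an element of `V_P`, divided by `k` -/
private theorem Vcl_norm (K : IntermediateField ℚ ℂ) [NumberField K] (f : ℕ) (P P1 : Sp)
    (h : Pt K f P) (k : ℂ) (hk : k ≠ 0)
    (hkap : k * (starRingEnd ℂ) k * (Nf P1 : ℂ) = (Nf P : ℂ)) (v1 v2 : ℤ) :
    (al P (sK K f) v1 v2 / k) * (starRingEnd ℂ) (al P (sK K f) v1 v2 / k) =
      ((Nf P1 * fV P v1 v2 : ℤ) : ℂ) := by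
  have hk' : (starRingEnd ℂ) k ≠ 0 := (map_ne_zero _).2 hk
  have h1 := al_norm P h.qd (sK K f) (sK_df K f P h) v1 v2
  rw [map_div₀, al_conj, div_mul_div_comm, h1, ← hkap]
  push_cast
  field_simp

/-- two different elements of `V_P / k` -/
private theorem Vcl_sep (K : IntermediateField ℚ ℂ) [NumberField K] (f : ℕ) (P P1 : Sp)
    (h : Pt K f P) (k : ℂ) (hk : k ≠ 0)
    (hkap : k * (starRingEnd ℂ) k * (Nf P1 : ℂ) = (Nf P : ℂ)) (c : ℝ)
    (hN : 0 < Nf P1)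
    (hc : ∀ v1 v2 : ℤ, (v1 ≠ 0 ∨ v2 ≠ 0) → c ≤ (fV P v1 v2 : ℝ)) (x x' : ℂ)
    (hx : InV P (sK K f) (k * x)) (hx' : InV P (sK K f) (k * x')) (hne : x ≠ x') :
    c * (Nf P1 : ℝ) ≤ ((x - x') * (starRingEnd ℂ) (x - x')).re := by
  have h1 : InV P (sK K f) (k * (x - x')) := by
    have h2 := vadd P (sK K f) _ _ hx (vint P (sK K f) _ (-1) hx')
    have h3 : k * x + ((-1 : ℤ) : ℂ) * (k * x') = k * (x - x') := by
      push_cast
      ring
    rwa [h3] at h2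
  obtain ⟨v1, v2, hv⟩ := h1
  have h2 : x - x' = al P (sK K f) v1 v2 / k := by
    rw [← hv]
    field_simp
  have h3 : v1 ≠ 0 ∨ v2 ≠ 0 := by
    by_contra hcon
    push Not at hcon
    obtain ⟨rfl, rfl⟩ := hcon
    apply hne
    have : al P (sK K f) 0 0 = 0 := by
      unfold al
      simp
    rw [this, zero_div] at h2
    exact sub_eq_zero.1 h2
  rw [h2, Vcl_norm K f P P1 h k hk hkap, Complex.intCast_re]
  have h4 := hc v1 v2 h3
  have h5 : (0 : ℝ) < (Nf P1 : ℝ) := by exact_mod_cast hN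
  push_cast
  nlinarith

theorem vcl (c1 c2 : ℝ) (h1 : 0 < c1) (h2c : 0 < c2) : ∃ C : ℝ, 0 < C ∧
    ∀ (K : IntermediateField ℚ ℂ) [NumberField K] (_ : Module.finrank ℚ K = 2)
    (_ : ∃ x : K, (x : ℂ).im ≠ 0) (f : ℕ) (Y : ℝ) (_ : 0 < Y) (P1 : Sp) (_ : Pt K f P1)
    (k : Sp → ℂ) (T : Finset Sp),
    (∀ P ∈ T, Pt K f P ∧ Blc c1 c2 Y P ∧ k P ≠ 0 ∧
      ∀ z : ℂ, InI K P1 (sK K f) z ↔ InI K P (sK K f) (k P * z)) →
    (∀ P ∈ T, ∀ P' ∈ T, ∀ u : ℂ, InI K P1 (sK K f) u →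
      (InV P (sK K f) (k P * u) ↔ InV P' (sK K f) (k P' * u))) → (T.card : ℝ) ≤ C := by
  classical
  obtain ⟨C, hC, hfbr⟩ := fbr c1 c2 h1 h2c
  refine ⟨C * ((4 * √(c2 / c1) + 4) ^ 2 * (4 * √(c2 / c1) + 4) ^ 2), by positivity, ?_⟩
  intro K _ h2 him f Y hY P1 hP1 k T hT hV
  have hN1 : 0 < Nf P1 := (pos P1 hP1.qd (df_neg K f P1 hP1)).1
  have hN1r : (0 : ℝ) < (Nf P1 : ℝ) := by exact_mod_cast hN1
  have hkap : ∀ P ∈ T, k P * (starRingEnd ℂ) (k P) * (Nf P1 : ℂ) = (Nf P : ℂ) := by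
    intro P hP
    obtain ⟨ha, _, hc, hd⟩ := hT P hP
    exact kap K h2 him f P P1 ha hP1 (k P) hc hd
  -- elements `al v / k`
  have hin : ∀ P ∈ T, ∀ v1 v2 : ℤ, InV P (sK K f) (k P * (al P (sK K f) v1 v2 / k P)) := by
    intro P hP v1 v2
    have hc := (hT P hP).2.2.1
    refine ⟨v1, v2, ?_⟩
    field_simp
  have hinI : ∀ P ∈ T, ∀ v1 v2 : ℤ, InI K P1 (sK K f) (al P (sK K f) v1 v2 / k P) := by
    intro P hP v1 v2
    exact ((hT P hP).2.2.2 _).2 (vI K P (sK K f) _ (hin P hP v1 v2))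
  have hcount : ∀ v1 v2 : ℤ, (∀ P ∈ T, (fV P v1 v2 : ℝ) ≤ c2 * Y) →
      (((T.image fun P => al P (sK K f) v1 v2 / k P).card : ℕ) : ℝ) ≤
        (4 * √(c2 / c1) + 4) ^ 2 := by
    intro v1 v2 hb
    have h3 := pck2 (T.image fun P => al P (sK K f) v1 v2 / k P) (c1 * Y * (Nf P1 : ℝ))
      (c2 * Y * (Nf P1 : ℝ)) (by positivity) (by positivity) ?_ ?_
    · have h4 : c2 * Y * (Nf P1 : ℝ) / (c1 * Y * (Nf P1 : ℝ)) = c2 / c1 := by
        field_simp
      rwa [h4] at h3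
    · intro x hx
      obtain ⟨P, hP, rfl⟩ := Finset.mem_image.1 hx
      rw [Vcl_norm K f P P1 (hT P hP).1 (k P) (hT P hP).2.2.1 (hkap P hP), Complex.intCast_re]
      have := hb P hP
      push_cast
      nlinarith
    · intro x hx y hy hxy
      obtain ⟨P, hP, rfl⟩ := Finset.mem_image.1 hx
      obtain ⟨P', hP', rfl⟩ := Finset.mem_image.1 hy
      refine Vcl_sep K f P P1 (hT P hP).1 (k P) (hT P hP).2.2.1 (hkap P hP) (c1 * Y) hN1
        (hT P hP).2.1.vm _ _ (hin P hP v1 v2) ?_ hxy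
      exact (hV P hP P' hP' _ (hinI P' hP' v1 v2)).2 (hin P' hP' v1 v2)
  have hA := hcount 1 0 (fun P hP => by rw [Vcl_fV10]; exact (hT P hP).2.1.vN)
  have hB := hcount 0 1 (fun P hP => by rw [Vcl_fV01]; exact (hT P hP).2.1.vQ)
  have hF : T.card ≤ ⌊C⌋₊ * (T.image fun P =>
      (al P (sK K f) 1 0 / k P, al P (sK K f) 0 1 / k P)).card := by
    refine Finset.card_le_mul_card_image _ _ ?_
    intro a ha
    obtain ⟨P0, hP0, rfl⟩ := Finset.mem_image.1 ha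
    apply Nat.le_floor
    refine hfbr K h2 him f Y hY (Nf P0) (Bf P0) _ ?_
    intro P hP
    rw [Finset.mem_filter, Prod.mk.injEq] at hP
    obtain ⟨hP, he1, he2⟩ := hP
    obtain ⟨ha, hb, hc, hd⟩ := hT P hP
    have hn : Nf P = Nf P0 := by
      have e1 := Vcl_norm K f P P1 ha (k P) hc (hkap P hP) 1 0
      have e2 := Vcl_norm K f P0 P1 (hT P0 hP0).1 (k P0) (hT P0 hP0).2.2.1 (hkap P0 hP0) 1 0
      rw [he1, e2, Vcl_fV10, Vcl_fV10] at e1
      have e3 : Nf P1 * Nf P0 = Nf P1 * Nf P := by exact_mod_cast e1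
      exact (mul_left_cancel₀ hN1.ne' e3).symm
    refine ⟨ha, hb, hn, ?_⟩
    have key : ∀ Q ∈ T, (starRingEnd ℂ) (al Q (sK K f) 1 0 / k Q) * (al Q (sK K f) 0 1 / k Q) =
        (Nf P1 : ℂ) * (((Bf Q : ℂ) + sK K f) / 2) := by
      intro Q hQ
      have hk := (hT Q hQ).2.2.1
      have hk' : (starRingEnd ℂ) (k Q) ≠ 0 := (map_ne_zero _).2 hk
      have e1 : al Q (-sK K f) 1 0 = (Nf Q : ℂ) := by
        unfold al
        simp
      have e2 : al Q (sK K f) 0 1 = ((Bf Q : ℂ) + sK K f) / 2 := by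
        unfold al
        simp
      rw [map_div₀, al_conj, e1, e2, ← hkap Q hQ]
      field_simp
    have e1 := key P hP
    have e2 := key P0 hP0
    rw [he1, he2, e2] at e1
    have hz : (Nf P1 : ℂ) ≠ 0 := by exact_mod_cast hN1.ne'
    have e3 := mul_left_cancel₀ hz e1
    have e4 : (Bf P0 : ℂ) = (Bf P : ℂ) := by linear_combination 2 * e3
    exact_mod_cast e4.symm
  have hI : (T.image fun P => (al P (sK K f) 1 0 / k P, al P (sK K f) 0 1 / k P)).card ≤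
      (T.image fun P => al P (sK K f) 1 0 / k P).card *
        (T.image fun P => al P (sK K f) 0 1 / k P).card := by
    rw [← Finset.card_product]
    apply Finset.card_le_card
    intro x hx
    obtain ⟨P, hP, rfl⟩ := Finset.mem_image.1 hx
    rw [Finset.mem_product]
    exact ⟨Finset.mem_image_of_mem _ hP, Finset.mem_image_of_mem _ hP⟩
  calc (T.card : ℝ) ≤ ((⌊C⌋₊ * (T.image fun P =>
      (al P (sK K f) 1 0 / k P, al P (sK K f) 0 1 / k P)).card : ℕ) : ℝ) := by exact_mod_cast hF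
    _ ≤ C * ((4 * √(c2 / c1) + 4) ^ 2 * (4 * √(c2 / c1) + 4) ^ 2) := by
        push_cast
        refine mul_le_mul (Nat.floor_le hC.le) ?_ (by positivity) hC.le
        calc _ ≤ (((T.image fun P => al P (sK K f) 1 0 / k P).card *
              (T.image fun P => al P (sK K f) 0 1 / k P).card : ℕ) : ℝ) := by exact_mod_cast hI
          _ ≤ _ := by
              push_cast
              exact mul_le_mul hA hB (by positivity) (by positivity)

end Pool.Agent.LBK
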