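import Pool.Agent.LBK.Zel
import Pool.Agent.LBK.Vcl
import Pool.Agent.LBK.Cnt

/-!
# LBK/Cls (size 4): the points of one class

Choose `P1 ∈ T` (if `T` is empty there is nothing to prove), and for every `P ∈ T`: `k P` by `clk`
(for `P`, `P1`), `v P = al P s x y` with `IsCoprime (fV P x y) f` (`good`, `al_norm`, `al_conj`), and
`z P = v P conj(v P1) / (k P N1) = a P + b P om` (`zel`).  Relation on `T`: `P ~ P'` iff for all
`u ∈ I_P1`: `k P u ∈ V_P ↔ k P' u ∈ V_P'`.  Every class has `<= C` elements (`vcl`).  Choose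
representatives `R ⊆ T`.  `Z` = image of `R` under `(a, b)`.  For `P, P' ∈ R` with
`(a P, b P) = t (a P', b P')` mod `f`: `z P = t z P' + f o`, so `P ~ P'` by `zcmp` and `P = P'`; in
particular `(a, b)` is injective on `R`.  `N(z) = m m1` is prime to `f` (`om_norm`); `z^5 ∈ O_f` gives
`f | b Hq(a, b)` (`Hq_idz`, `om_sq`, `om_uniq`).  `cnt` with `δ = aD % 2`, `n = nn K`.
-/

set_option autoImplicit false

namespace Pool.Agent.LBK

open NumberField Pool.Agent.FTA Pool.Agent.FTB Pool.Agent.SMI Pool.Agent.PP5 nonZeroDivisors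

theorem cls1 (c1 c2 : ℝ) (h1 : 0 < c1) (h2c : 0 < c2) : ∃ C : ℝ, 0 < C ∧
    ∀ (K : IntermediateField ℚ ℂ) [NumberField K] (_ : Module.finrank ℚ K = 2)
    (_ : ∃ x : K, (x : ℂ).im ≠ 0) (f : ℕ) (Y : ℝ) (_ : 0 < Y) (A : ClassGroup (𝓞 K))
    (T : Finset Sp),
    (∀ P ∈ T, Pt K f P ∧ Blc c1 c2 Y P ∧ ∃ (I : (Ideal (𝓞 K))⁰) (g : 𝓞 K),
      (∀ u : 𝓞 K, u ∈ (I : Ideal (𝓞 K)) ↔ InI K P (sK K f) (cv K u)) ∧
      cv K g = ga P (sK K f) ∧ (I : Ideal (𝓞 K)) ^ 5 = Ideal.span {g} ∧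
      ClassGroup.mk0 I = A) →
    (T.card : ℝ) * (∏ p ∈ f.primeFactors, p : ℕ) ≤ C * 6 ^ f.primeFactors.card * f := by
  classical
  obtain ⟨C, hC, hvcl⟩ := vcl c1 c2 h1 h2c
  refine ⟨C, hC, ?_⟩
  intro K _ h2 him f Y hY A T hT
  rcases T.eq_empty_or_nonempty with rfl | ⟨P1, hP1⟩
  · simp only [Finset.card_empty, Nat.cast_zero, zero_mul]
    positivity
  obtain ⟨hp1, hb1, I1, g1, hI1, hg1, h51, hA1⟩ := hT P1 hP1
  have hf : 1 ≤ f := hp1.f1
  have hkx : ∀ P : Sp, ∃ k : ℂ, P ∈ T → (k ≠ 0 ∧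
      (∀ z : ℂ, InI K P1 (sK K f) z ↔ InI K P (sK K f) (k * z)) ∧
      ga P (sK K f) = k ^ 5 * ga P1 (sK K f)) := by
    intro P
    by_cases hP : P ∈ T
    · obtain ⟨hp, hb, I, g, hI, hg, h5, hA⟩ := hT P hP
      obtain ⟨k, hk⟩ := clk K h2 him f P P1 hp hp1 I I1 g g1 hI hI1 hg hg1 h5 h51 (hA.trans hA1.symm)
      exact ⟨k, fun _ => hk⟩
    · exact ⟨1, fun h => absurd h hP⟩
  choose k hk using hkx
  have hgx : ∀ P : Sp, ∃ xy : ℤ × ℤ, P ∈ T → IsCoprime (fV P xy.1 xy.2) (f : ℤ) := by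
    intro P
    by_cases hP : P ∈ T
    · obtain ⟨v1, v2, hv⟩ := good P (hT P hP).1.pp f hf
      exact ⟨(v1, v2), fun _ => hv⟩
    · exact ⟨(0, 0), fun h => absurd h hP⟩
  choose xy hxy using hgx
  have hnorm : ∀ P ∈ T, al P (sK K f) (xy P).1 (xy P).2 *
      (starRingEnd ℂ) (al P (sK K f) (xy P).1 (xy P).2) =
      (Nf P : ℂ) * ((fV P (xy P).1 (xy P).2 : ℤ) : ℂ) := by
    intro P hP
    rw [al_conj]
    exact al_norm P (hT P hP).1.qd (sK K f) (sK_df K f P (hT P hP).1) _ _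
  have hInV : ∀ P, InV P (sK K f) (al P (sK K f) (xy P).1 (xy P).2) := fun P => ⟨_, _, rfl⟩
  have hz := fun (P : Sp) (hP : P ∈ T) => zel K h2 him f P P1 (hT P hP).1 hp1 (k P) (hk P hP).1
    (hk P hP).2.1 (hk P hP).2.2 (al P (sK K f) (xy P).1 (xy P).2)
    (al P1 (sK K f) (xy P1).1 (xy P1).2) (fV P (xy P).1 (xy P).2) (fV P1 (xy P1).1 (xy P1).2)
    (hInV P) (hInV P1) (hnorm P hP) (hnorm P1 hP1)
  have habx : ∀ P : Sp, ∃ ab : ℤ × ℤ, P ∈ T →
      al P (sK K f) (xy P).1 (xy P).2 * (starRingEnd ℂ) (al P1 (sK K f) (xy P1).1 (xy P1).2) /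
        (k P * (Nf P1 : ℂ)) = (ab.1 : ℂ) + (ab.2 : ℂ) * om K := by
    intro P
    by_cases hP : P ∈ T
    · obtain ⟨a, b, hab⟩ := (hz P hP).1
      exact ⟨(a, b), fun _ => hab⟩
    · exact ⟨(0, 0), fun h => absurd h hP⟩
  choose ab hab using habx
  -- the classes
  obtain ⟨κ, hκ⟩ : ∃ κ : Sp → Set ℂ, ∀ P, κ P = {u | InI K P1 (sK K f) u ∧ InV P (sK K f) (k P * u)} :=
    ⟨fun P => {u | InI K P1 (sK K f) u ∧ InV P (sK K f) (k P * u)}, fun _ => rfl⟩
  have hκ1 : ∀ P P' : Sp, κ P = κ P' → ∀ u : ℂ, InI K P1 (sK K f) u →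
      (InV P (sK K f) (k P * u) ↔ InV P' (sK K f) (k P' * u)) := by
    intro P P' h u hu
    rw [hκ, hκ] at h
    constructor
    · intro hv
      have : u ∈ {u | InI K P1 (sK K f) u ∧ InV P (sK K f) (k P * u)} := ⟨hu, hv⟩
      rw [h] at this
      exact this.2
    · intro hv
      have : u ∈ {u | InI K P1 (sK K f) u ∧ InV P' (sK K f) (k P' * u)} := ⟨hu, hv⟩
      rw [← h] at this
      exact this.2
  have hκ2 : ∀ P P' : Sp, (∀ u : ℂ, InI K P1 (sK K f) u →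
      (InV P (sK K f) (k P * u) ↔ InV P' (sK K f) (k P' * u))) → κ P = κ P' := by
    intro P P' h
    rw [hκ, hκ]
    ext u
    constructor
    · rintro ⟨h1, h2⟩
      exact ⟨h1, (h u h1).1 h2⟩
    · rintro ⟨h1, h2⟩
      exact ⟨h1, (h u h1).2 h2⟩
  have hcmp : ∀ P ∈ T, ∀ P' ∈ T, (∃ t : ℤ, (f : ℤ) ∣ (ab P).1 - t * (ab P').1 ∧
      (f : ℤ) ∣ (ab P).2 - t * (ab P').2) → κ P = κ P' := by
    rintro P hP P' hP' ⟨t, ⟨α, hα⟩, ⟨β, hβ⟩⟩
    apply hκ2
    intro u hu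
    refine zcmp K h2 him f P P' P1 (hT P hP).1 (hT P' hP').1 hp1 (k P) (k P') (hk P hP).1 (hk P' hP').1
      (hk P hP).2.1 (hk P' hP').2.1 (al P (sK K f) (xy P).1 (xy P).2)
      (al P' (sK K f) (xy P').1 (xy P').2) (al P1 (sK K f) (xy P1).1 (xy P1).2)
      (fV P (xy P).1 (xy P).2) (fV P' (xy P').1 (xy P').2) (fV P1 (xy P1).1 (xy P1).2)
      (hInV P) (hInV P') (hInV P1) (hnorm P hP) (hnorm P' hP') (hnorm P1 hP1) (hxy P hP)
      (hxy P' hP') (hxy P1 hP1) t ((α : ℂ) + (β : ℂ) * om K) ⟨α, β, rfl⟩ ?_ u hu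
    rw [hab P hP, hab P' hP']
    have e1 : ((ab P).1 : ℂ) = (t : ℂ) * ((ab P').1 : ℂ) + (f : ℂ) * (α : ℂ) := by
      have : (ab P).1 = t * (ab P').1 + f * α := by linarith
      rw [this]
      push_cast
      ring
    have e2 : ((ab P).2 : ℂ) = (t : ℂ) * ((ab P').2 : ℂ) + (f : ℂ) * (β : ℂ) := by
      have : (ab P).2 = t * (ab P').2 + f * β := by linarith
      rw [this]
      push_cast
      ring
    rw [e1, e2]
    ring
  -- representatives
  have hrepx : ∀ c : Set ℂ, ∃ P : Sp, c ∈ T.image κ → P ∈ T ∧ κ P = c := by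
    intro c
    by_cases hc : c ∈ T.image κ
    · obtain ⟨P, hP, hPc⟩ := Finset.mem_image.1 hc
      exact ⟨P, fun _ => ⟨hP, hPc⟩⟩
    · exact ⟨P1, fun h => absurd h hc⟩
  choose rep hrep using hrepx
  have hinj : Set.InjOn (fun c => ab (rep c)) (T.image κ : Finset (Set ℂ)) := by
    intro c hc c' hc' hcc
    have hr := hrep c hc
    have hr' := hrep c' hc'
    have hcc' : ab (rep c) = ab (rep c') := hcc
    have : κ (rep c) = κ (rep c') := by
      apply hcmp _ hr.1 _ hr'.1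
      refine ⟨1, ?_, ?_⟩
      · rw [hcc']
        simp
      · rw [hcc']
        simp
    rw [hr.2, hr'.2] at this
    exact this
  have hcard : ((T.image κ).image (fun c => ab (rep c))).card = (T.image κ).card :=
    Finset.card_image_of_injOn hinj
  have hcnt := cnt ((aD K % 2 : ℕ) : ℤ) (nn K) f hf ((T.image κ).image (fun c => ab (rep c)))
    (by
      intro z hz'
      obtain ⟨c, hc, rfl⟩ := Finset.mem_image.1 hz'
      obtain ⟨hr, -⟩ := hrep c hc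
      have e1 := (hz _ hr).2.1
      rw [hab _ hr, om_norm K h2 him] at e1
      have e2 : (ab (rep c)).1 ^ 2 + ((aD K % 2 : ℕ) : ℤ) * (ab (rep c)).1 * (ab (rep c)).2 +
          nn K * (ab (rep c)).2 ^ 2 = fV (rep c) (xy (rep c)).1 (xy (rep c)).2 *
            fV P1 (xy P1).1 (xy P1).2 := by
        have e3 : (((ab (rep c)).1 ^ 2 + ((aD K % 2 : ℕ) : ℤ) * (ab (rep c)).1 * (ab (rep c)).2 +
          nn K * (ab (rep c)).2 ^ 2 : ℤ) : ℂ) = ((fV (rep c) (xy (rep c)).1 (xy (rep c)).2 *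
            fV P1 (xy P1).1 (xy P1).2 : ℤ) : ℂ) := by
          rw [e1]
          push_cast
          ring
        exact_mod_cast e3
      rw [e2]
      exact IsCoprime.mul_left (hxy _ hr) (hxy P1 hP1))
    (by
      intro z hz'
      obtain ⟨c, hc, rfl⟩ := Finset.mem_image.1 hz'
      obtain ⟨hr, -⟩ := hrep c hc
      obtain ⟨a', b', e1⟩ := (hz _ hr).2.2
      rw [hab _ hr] at e1
      obtain ⟨x, hx⟩ := Hq_idz ((aD K % 2 : ℕ) : ℤ) (nn K) (ab (rep c)).1 (ab (rep c)).2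
      have e2 := hx (om K) (by rw [om_sq K h2 him, Int.cast_natCast])
      rw [e1] at e2
      have e3 : (a' : ℂ) + ((b' * f : ℤ) : ℂ) * om K = (x : ℂ) + (((ab (rep c)).2 *
          Hq ((aD K % 2 : ℕ) : ℤ) (nn K) (ab (rep c)).1 (ab (rep c)).2 : ℤ) : ℂ) * om K := by
        rw [← e2]
        push_cast
        ring
      have e4 := (om_uniq K _ _ _ _ e3).2
      exact ⟨b', by rw [← e4]; ring⟩)
    (by
      intro z hz' z' hz'' ht
      obtain ⟨c, hc, rfl⟩ := Finset.mem_image.1 hz'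
      obtain ⟨c', hc', rfl⟩ := Finset.mem_image.1 hz''
      have hr := hrep c hc
      have hr' := hrep c' hc'
      have := hcmp _ hr.1 _ hr'.1 ht
      rw [hr.2, hr'.2] at this
      rw [this])
  rw [hcard] at hcnt
  have hT1 : (T.card : ℝ) ≤ ((T.image κ).card : ℝ) * C := by
    rw [Finset.card_eq_sum_card_image κ T]
    push_cast
    rw [← nsmul_eq_mul, ← Finset.sum_const]
    refine Finset.sum_le_sum ?_
    intro c hc
    refine hvcl K h2 him f Y hY P1 hp1 k _ ?_ ?_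
    · intro P hP
      have hP' := (Finset.mem_filter.1 hP).1
      exact ⟨(hT P hP').1, (hT P hP').2.1, (hk P hP').1, (hk P hP').2.1⟩
    · intro P hP P' hP' u hu
      exact hκ1 P P' ((Finset.mem_filter.1 hP).2.trans (Finset.mem_filter.1 hP').2.symm) u hu
  have hcnt' : ((T.image κ).card : ℝ) * ((∏ p ∈ f.primeFactors, p : ℕ) : ℝ) ≤
      6 ^ f.primeFactors.card * (f : ℝ) := by
    exact_mod_cast hcnt
  calc (T.card : ℝ) * ((∏ p ∈ f.primeFactors, p : ℕ) : ℝ)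
      ≤ (((T.image κ).card : ℝ) * C) * ((∏ p ∈ f.primeFactors, p : ℕ) : ℝ) :=
        mul_le_mul_of_nonneg_right hT1 (Nat.cast_nonneg _)
    _ = C * (((T.image κ).card : ℝ) * ((∏ p ∈ f.primeFactors, p : ℕ) : ℝ)) := by ring
    _ ≤ C * (6 ^ f.primeFactors.card * (f : ℝ)) := mul_le_mul_of_nonneg_left hcnt' hC.le
    _ = C * 6 ^ f.primeFactors.card * f := by ring

end Pool.Agent.LBK
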