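import Pool.Agent.PP5.A1Nd
import Pool.Agent.FTL.LNc
import Pool.Agent.FTL.LFb

/-!
# LBK: the points `P` (proper, `Df P = - f ^ 2 |D_K|`) and the classes of order 5 of `K`

`s = f i √|D_K|`, so `s ^ 2 = Df P`; complex conjugation is `s ↦ -s` in all the expressions below.
`V_P = {v1 N + v2 (Bf + s) / 2}`, `N = Nf P`.
-/

set_option autoImplicit false

namespace Pool.Agent.LBK

open NumberField Pool.Agent.FTA Pool.Agent.FTB Pool.Agent.SMI Pool.Agent.PP5 nonZeroDivisors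

/-- the third coefficient of `f_V` -/
def Nq (P : Sp) : ℤ := P 10 ^ 2 - P 9 * P 11

/-- the third coefficient of `f_W` -/
def Kq (P : Sp) : ℤ := P 4 ^ 2 - P 3 * P 5

/-- the form `f_V` -/
def fV (P : Sp) (v1 v2 : ℤ) : ℤ := Nf P * v1 ^ 2 + Bf P * v1 * v2 + Nq P * v2 ^ 2

/-- the form `f_W` -/
def fW (P : Sp) (w1 w2 : ℤ) : ℤ := Kf P * w1 ^ 2 + Bg P * w1 * w2 + Kq P * w2 ^ 2

/-- the elements of the lattice `V_P` -/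
noncomputable def al (P : Sp) (s : ℂ) (v1 v2 : ℤ) : ℂ :=
  (v1 : ℂ) * (Nf P : ℂ) + (v2 : ℂ) * (((Bf P : ℂ) + s) / 2)

/-- the first basis vector of `V_P ^ 2` -/
noncomputable def b1 (P : Sp) (s : ℂ) : ℂ :=
  (P 3 : ℂ) * (Kf P : ℂ) - (P 0 : ℂ) * (((Bg P : ℂ) - s) / 2)

/-- the second basis vector of `V_P ^ 2` -/
noncomputable def b2 (P : Sp) (s : ℂ) : ℂ :=
  (P 3 : ℂ) * (((Bg P : ℂ) + s) / 2) - (P 0 : ℂ) * (Kq P : ℂ)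

/-- `R(e_2; z, z)`, `z = (q1, -c)` -/
def SS (P : Sp) : ℤ := P 3 ^ 2 * P 9 - 2 * P 0 * P 3 * P 10 + P 0 ^ 2 * P 11

/-- `R(e_1; z, z)`, `z = (q1, -c)` -/
def TT (P : Sp) : ℤ := P 3 ^ 2 * P 6 - 2 * P 0 * P 3 * P 7 + P 0 ^ 2 * P 8

/-- the generator of the fifth power -/
noncomputable def ga (P : Sp) (s : ℂ) : ℂ :=
  (SS P : ℂ) * (Nf P : ℂ) - (TT P : ℂ) * (((Bf P : ℂ) + s) / 2)

/-- `f_V` is primitive -/
def Ppr (P : Sp) : Prop := ∀ p : ℕ, p.Prime →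
  ¬ ((p : ℤ) ∣ Nf P ∧ (p : ℤ) ∣ Bf P ∧ (p : ℤ) ∣ Nq P)

/-- the points attached to `K` and the conductor `f` -/
structure Pt (K : IntermediateField ℚ ℂ) [NumberField K] (f : ℕ) (P : Sp) : Prop where
  qd : Qd P
  pp : Ppr P
  f1 : 1 ≤ f
  df : Df P = -((f : ℤ) ^ 2 * (aD K : ℤ))

/-- `s = f i √|D_K|` -/
noncomputable def sK (K : IntermediateField ℚ ℂ) [NumberField K] (f : ℕ) : ℂ := (f : ℂ) * wK K

/-- `ω = (δ + i √|D_K|) / 2`, `δ = |D_K| mod 2` -/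
noncomputable def om (K : IntermediateField ℚ ℂ) [NumberField K] : ℂ :=
  (((aD K % 2 : ℕ) : ℂ) + wK K) / 2

/-- the integers of `K`, as complex numbers -/
def IsO (K : IntermediateField ℚ ℂ) [NumberField K] (z : ℂ) : Prop :=
  ∃ a b : ℤ, z = (a : ℂ) + (b : ℂ) * om K

/-- the order of conductor `f` -/
def IsOf (K : IntermediateField ℚ ℂ) [NumberField K] (f : ℕ) (z : ℂ) : Prop :=
  ∃ a b : ℤ, z = (a : ℂ) + (b : ℂ) * ((f : ℂ) * om K)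

/-- the lattice `V_P` -/
def InV (P : Sp) (s z : ℂ) : Prop := ∃ v1 v2 : ℤ, z = al P s v1 v2

/-- the ideal generated by `V_P` -/
def InI (K : IntermediateField ℚ ℂ) [NumberField K] (P : Sp) (s z : ℂ) : Prop :=
  ∃ x y : ℂ, InV P s x ∧ InV P s y ∧ z = x + om K * y

/-- the region: `f_V`, `f_W` have coefficients `≤ c2 Y` and values `≥ c1 Y` -/
structure Blc (c1 c2 Y : ℝ) (P : Sp) : Prop where
  vN : (Nf P : ℝ) ≤ c2 * Y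
  vQ : (Nq P : ℝ) ≤ c2 * Y
  wN : (Kf P : ℝ) ≤ c2 * Y
  wQ : (Kq P : ℝ) ≤ c2 * Y
  vm : ∀ v1 v2 : ℤ, (v1 ≠ 0 ∨ v2 ≠ 0) → c1 * Y ≤ (fV P v1 v2 : ℝ)
  wm : ∀ w1 w2 : ℤ, (w1 ≠ 0 ∨ w2 ≠ 0) → c1 * Y ≤ (fW P w1 w2 : ℝ)

end Pool.Agent.LBK
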