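import Pool.Agent.LBK.Vst

/-!
# LBK/Fif (size 3): fifth powers of the elements of `V_P`

`x = al v1 v2`.  `x^2 = q b1 - p b2` with the integers `q = P3 v1^2 + 2 P4 v1 v2 + P5 v2^2`,
`p = P0 v1^2 + 2 P1 v1 v2 + P2 v2^2` (`a11`, `a12`, `a22`).  So
`N x^4 = q^2 N b1^2 - 2 p q N b1 b2 + p^2 N b2^2 = ga (S N - T (Bf - s)/2)` with
`S = q^2 P9 - 2 p q P10 + p^2 P11`, `T = q^2 P6 - 2 p q P7 + p^2 P8`.  Multiply by
`x = v1 N + v2 (Bf + s)/2`, `(Bf + s)(Bf - s)/4 = N Nq`: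
`N x^5 = N ga (v1 S N + v2 S (Bf + s)/2 - v1 T (Bf - s)/2 - v2 T Nq)`; cancel `N`; the bracket is in
`O_f` (`isOf_half`, `isOf_conj`).
-/

set_option autoImplicit false

namespace Pool.Agent.LBK

open NumberField Pool.Agent.FTA Pool.Agent.FTB Pool.Agent.SMI Pool.Agent.PP5 nonZeroDivisors

theorem fif (K : IntermediateField ℚ ℂ) [NumberField K] (h2 : Module.finrank ℚ K = 2)
    (him : ∃ x : K, (x : ℂ).im ≠ 0) (f : ℕ) (P : Sp) (h : Pt K f P) (x : ℂ)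
    (hx : InV P (sK K f) x) : ∃ o : ℂ, IsOf K f o ∧ x ^ 5 = ga P (sK K f) * o := by
  obtain ⟨v1, v2, rfl⟩ := hx
  have hs := sK_df K f P h
  have hD := df_neg K f P h
  have hN := (pos P h.qd hD).1
  have hN0 : (Nf P : ℂ) ≠ 0 := by exact_mod_cast hN.ne'
  have hdf : (Df P : ℂ) = (Bf P : ℂ) ^ 2 - 4 * (Nf P : ℂ) * (Nq P : ℂ) := by
    rw [df_eq P h.qd]
    push_cast
    ring
  have hhalf : IsOf K f (((Bf P : ℂ) + sK K f) / 2) := isOf_half K f (Bf P) (par K h2 him f P h).1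
  have hhalf' : IsOf K f (((Bf P : ℂ) - sK K f) / 2) := by
    have e : ((Bf P : ℂ) - sK K f) / 2 = (Bf P : ℂ) + -(((Bf P : ℂ) + sK K f) / 2) := by ring
    rw [e]
    exact isOf_add K f _ _ (isOf_int K f _) (isOf_neg K f _ hhalf)
  have e11 := a11 P h.qd (sK K f) hs
  have e12 := a12 P h.qd (sK K f) hs
  have e22 := a22 P h.qd (sK K f) hs
  have f11 := b11 P h.qd hD (sK K f) hs
  have f12 := b12 P h.qd hD (sK K f) hs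
  have f22 := b22 P h.qd hD (sK K f) hs
  have hA : al P (sK K f) 1 0 = (Nf P : ℂ) := by
    unfold al
    push_cast
    ring
  have hB : al P (sK K f) 0 1 = ((Bf P : ℂ) + sK K f) / 2 := by
    unfold al
    push_cast
    ring
  have hX : al P (sK K f) v1 v2 = (v1 : ℂ) * (Nf P : ℂ) + (v2 : ℂ) * (((Bf P : ℂ) + sK K f) / 2) := rfl
  rw [hA] at e11 e12
  rw [hB] at e12 e22
  -- the integers
  obtain ⟨q, hq⟩ : ∃ q : ℤ, q = P 3 * v1 ^ 2 + 2 * P 4 * v1 * v2 + P 5 * v2 ^ 2 := ⟨_, rfl⟩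
  obtain ⟨p, hp⟩ : ∃ p : ℤ, p = P 0 * v1 ^ 2 + 2 * P 1 * v1 * v2 + P 2 * v2 ^ 2 := ⟨_, rfl⟩
  obtain ⟨S, hS⟩ : ∃ S : ℤ, S = q ^ 2 * P 9 - 2 * p * q * P 10 + p ^ 2 * P 11 := ⟨_, rfl⟩
  obtain ⟨T, hT⟩ : ∃ T : ℤ, T = q ^ 2 * P 6 - 2 * p * q * P 7 + p ^ 2 * P 8 := ⟨_, rfl⟩
  have hq' : (q : ℂ) = (P 3 : ℂ) * (v1 : ℂ) ^ 2 + 2 * (P 4 : ℂ) * v1 * v2 + (P 5 : ℂ) * (v2 : ℂ) ^ 2 := by
    rw [hq]; push_cast; ring
  have hp' : (p : ℂ) = (P 0 : ℂ) * (v1 : ℂ) ^ 2 + 2 * (P 1 : ℂ) * v1 * v2 + (P 2 : ℂ) * (v2 : ℂ) ^ 2 := by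
    rw [hp]; push_cast; ring
  have hS' : (S : ℂ) = (q : ℂ) ^ 2 * (P 9 : ℂ) - 2 * p * q * (P 10 : ℂ) + (p : ℂ) ^ 2 * (P 11 : ℂ) := by
    rw [hS]; push_cast; ring
  have hT' : (T : ℂ) = (q : ℂ) ^ 2 * (P 6 : ℂ) - 2 * p * q * (P 7 : ℂ) + (p : ℂ) ^ 2 * (P 8 : ℂ) := by
    rw [hT]; push_cast; ring
  have hx2 : al P (sK K f) v1 v2 ^ 2 = (q : ℂ) * b1 P (sK K f) - (p : ℂ) * b2 P (sK K f) := by
    rw [hX, hq', hp']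
    linear_combination (v1 : ℂ) ^ 2 * e11 + 2 * (v1 : ℂ) * v2 * e12 + (v2 : ℂ) ^ 2 * e22
  have hx4 : (Nf P : ℂ) * al P (sK K f) v1 v2 ^ 4 =
      ga P (sK K f) * ((S : ℂ) * (Nf P : ℂ) - (T : ℂ) * (((Bf P : ℂ) - sK K f) / 2)) := by
    rw [hS', hT']
    linear_combination (Nf P : ℂ) * (al P (sK K f) v1 v2 ^ 2 +
        ((q : ℂ) * b1 P (sK K f) - (p : ℂ) * b2 P (sK K f))) * hx2 +
      (q : ℂ) ^ 2 * f11 - 2 * (p : ℂ) * q * f12 + (p : ℂ) ^ 2 * f22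
  refine ⟨(v1 * S * Nf P : ℤ) + ((v2 * S : ℤ) : ℂ) * (((Bf P : ℂ) + sK K f) / 2) +
    ((-(v1 * T) : ℤ) : ℂ) * (((Bf P : ℂ) - sK K f) / 2) + ((-(v2 * T * Nq P) : ℤ) : ℂ), ?_, ?_⟩
  · refine isOf_add K f _ _ (isOf_add K f _ _ (isOf_add K f _ _ (isOf_int K f _) ?_) ?_) (isOf_int K f _)
    · exact isOf_mul K h2 him f _ _ (isOf_int K f _) hhalf
    · exact isOf_mul K h2 him f _ _ (isOf_int K f _) hhalf'
  · apply mul_left_cancel₀ hN0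
    have hx5 : (Nf P : ℂ) * al P (sK K f) v1 v2 ^ 5 = al P (sK K f) v1 v2 *
        ((Nf P : ℂ) * al P (sK K f) v1 v2 ^ 4) := by ring
    rw [hx5, hx4, hX]
    push_cast
    linear_combination (ga P (sK K f) * (v2 : ℂ) * (T : ℂ) / 4) * (hs + hdf)

end Pool.Agent.LBK
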