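import Pool.Agent.LBK.Defs
import Pool.Agent.LBQ.Gb

/-!
# LBK/Ida (size 2): identities for one point

All are polynomial identities after `N = P0 P4 - P1 P3 = P7^2 - P6 P8`,
`Bf = P0 P5 - P2 P3 = 2 P7 P10 - P6 P11 - P8 P9`, `Nq = P1 P5 - P2 P4 = P10^2 - P9 P11`,
`Kf = P1^2 - P0 P2 = P7 P9 - P6 P10`, `Bg = 2 P1 P4 - P0 P5 - P2 P3 = P8 P9 - P6 P11`,
`Kq = P4^2 - P3 P5 = P8 P10 - P7 P11` (theorem `minors`; from `h1 .. h6` of `Qd`).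
`df_eq`: definition of `Df`.  `dg_eq`: `Bf^2 - 4 N Nq = Bg^2 - 4 Kf Kq` for the expressions in
`P0 .. P5` (`ring`).  `a11`: `P3^2 Kf - P0 P3 Bg + P0^2 Kq = N^2`; `a12`, `a22`: multiply out,
`s^2 = Df P`.  `fVsq`: `ring` in `P0 .. P5`.
-/

set_option autoImplicit false

namespace Pool.Agent.LBK

open NumberField Pool.Agent.FTA Pool.Agent.FTB Pool.Agent.SMI Pool.Agent.PP5 nonZeroDivisors

theorem minors (P : Sp) (h : Qd P) :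
    Nf P = P 7 ^ 2 - P 6 * P 8 ∧ P 0 * P 5 - P 2 * P 3 = Bf P ∧ P 1 * P 5 - P 2 * P 4 = Nq P ∧
      P 6 * P 10 - P 7 * P 9 = -Kf P ∧ P 6 * P 11 - P 8 * P 9 = -Bg P ∧
      P 7 * P 11 - P 8 * P 10 = -Kq P := by
  have e1 := LBQ.nf_eq h
  have e2 := LBQ.bf_eq h
  have e3 := LBQ.cf_eq h
  have e4 := LBQ.kf_eq h
  have e5 := LBQ.bg_eq h
  have e6 := LBQ.mf_eq h
  unfold LBQ.Cf at e3
  unfold LBQ.Mf at e6
  refine ⟨e1, e2.symm, ?_, ?_, ?_, ?_⟩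
  · unfold Nq; linarith
  · linarith
  · linarith
  · unfold Kq; linarith

theorem df_eq (P : Sp) (h : Qd P) : Df P = Bf P ^ 2 - 4 * Nf P * Nq P := by
  exact LBQ.df_eq h

theorem dg_eq (P : Sp) (h : Qd P) : Df P = Bg P ^ 2 - 4 * Kf P * Kq P := by
  exact LBQ.df_eq' h

/-- the hypotheses of `LBQ.Ga` for `(Bf + s) / 2` -/
theorem hy (P : Sp) (h : Qd P) (s : ℂ) (hs : s ^ 2 = (Df P : ℂ)) :
    LBQ.Hy P (((Bf P : ℂ) + s) / 2) := by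
  refine ⟨h, ?_⟩
  have e : (Df P : ℂ) = (Bf P : ℂ) ^ 2 - 4 * Nf P * LBQ.Cf P := by
    have := congrArg (fun t : ℤ => (t : ℂ)) (LBQ.df_eq h)
    push_cast at this; exact this
  rw [e] at hs
  linear_combination (1 / 4 : ℂ) * hs

theorem bet (P : Sp) (h : Qd P) (s : ℂ) : ((Bf P : ℂ) + s) / 2 + (P 1 : ℂ) * P 4 - (P 0 : ℂ) * P 5 =
    ((Bg P : ℂ) + s) / 2 := by
  have e : (Bg P : ℂ) = (Bf P : ℂ) + 2 * ((P 1 : ℂ) * P 4 - P 0 * P 5) := by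
    have := congrArg (fun t : ℤ => (t : ℂ)) (LBQ.bg_bf h)
    push_cast at this; exact this
  rw [e]; ring

theorem b1_eq (P : Sp) (h : Qd P) (s : ℂ) : LBQ.b1 P (((Bf P : ℂ) + s) / 2) = b1 P s := by
  rw [LBQ.bb, bet P h]
  unfold b1
  ring

theorem b2_eq (P : Sp) (h : Qd P) (s : ℂ) : LBQ.b2 P (((Bf P : ℂ) + s) / 2) = b2 P s := by
  have e := bet P h s
  have eN : (Nf P : ℂ) = (P 0 : ℂ) * P 4 - (P 1 : ℂ) * P 3 := by unfold Nf; push_cast; ring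
  have eM : (Kq P : ℂ) = (P 4 : ℂ) ^ 2 - (P 3 : ℂ) * P 5 := by unfold Kq; push_cast; ring
  unfold b2 LBQ.b2
  rw [← e, eN, eM]
  ring

theorem a11 (P : Sp) (h : Qd P) (s : ℂ) (hs : s ^ 2 = (Df P : ℂ)) :
    al P s 1 0 ^ 2 = (P 3 : ℂ) * b1 P s - (P 0 : ℂ) * b2 P s := by
  have e := LBQ.a11 (P := P) (th := ((Bf P : ℂ) + s) / 2)
  rw [b1_eq P h, b2_eq P h] at e
  rw [e]
  unfold al
  push_cast
  ring

theorem a12 (P : Sp) (h : Qd P) (s : ℂ) (hs : s ^ 2 = (Df P : ℂ)) :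
    al P s 1 0 * al P s 0 1 = (P 4 : ℂ) * b1 P s - (P 1 : ℂ) * b2 P s := by
  have e := LBQ.a12 (P := P) (th := ((Bf P : ℂ) + s) / 2)
  rw [b1_eq P h, b2_eq P h] at e
  rw [e]
  unfold al
  push_cast
  ring

theorem a22 (P : Sp) (h : Qd P) (s : ℂ) (hs : s ^ 2 = (Df P : ℂ)) :
    al P s 0 1 ^ 2 = (P 5 : ℂ) * b1 P s - (P 2 : ℂ) * b2 P s := by
  have e := LBQ.a22 (hy P h s hs)
  rw [b1_eq P h, b2_eq P h] at e
  rw [e]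
  unfold al
  push_cast
  ring

theorem al_add (P : Sp) (s : ℂ) (v1 v2 u1 u2 : ℤ) :
    al P s v1 v2 + al P s u1 u2 = al P s (v1 + u1) (v2 + u2) := by
  unfold al
  push_cast
  ring

theorem al_eq (P : Sp) (s : ℂ) (v1 v2 : ℤ) :
    al P s v1 v2 = (v1 : ℂ) * al P s 1 0 + (v2 : ℂ) * al P s 0 1 := by
  unfold al
  push_cast
  ring

theorem al_norm (P : Sp) (h : Qd P) (s : ℂ) (hs : s ^ 2 = (Df P : ℂ)) (v1 v2 : ℤ) :
    al P s v1 v2 * al P (-s) v1 v2 = (Nf P : ℂ) * (fV P v1 v2 : ℂ) := by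
  have e : (Df P : ℂ) = (Bf P : ℂ) ^ 2 - 4 * Nf P * Nq P := by
    have := congrArg (fun t : ℤ => (t : ℂ)) (df_eq P h)
    push_cast at this; exact this
  rw [e] at hs
  unfold al fV
  push_cast
  linear_combination (-(v2 : ℂ) ^ 2 / 4) * hs

/-- `f_V(v)^2 = P1(v)^2 Kq - P1(v) P2(v) Bg + P2(v)^2 Kf` -/
theorem fVsq (P : Sp) (h : Qd P) (x y : ℤ) :
    fV P x y ^ 2 = (P 0 * x ^ 2 + 2 * P 1 * x * y + P 2 * y ^ 2) ^ 2 * Kq P -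
      (P 0 * x ^ 2 + 2 * P 1 * x * y + P 2 * y ^ 2) *
        (P 3 * x ^ 2 + 2 * P 4 * x * y + P 5 * y ^ 2) * Bg P +
      (P 3 * x ^ 2 + 2 * P 4 * x * y + P 5 * y ^ 2) ^ 2 * Kf P := by
  have e2 := LBQ.bf_eq h
  have e3 := LBQ.cf_eq h
  unfold LBQ.Cf at e3
  unfold fV Nq
  rw [e2, e3]
  unfold Nf Kf Bg Kq
  ring

end Pool.Agent.LBK
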