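import Pool.Agent.LBK.Vst

/-!
# LBK/Idl (size 5): the ideal `I_P` of `O_K` and its fifth power

`a := (Nf P : O_K)`, `e : O_K` with `cv e = (Bf + s)/2` (`isO_cv`, `isOf_half`, `par`),
`I = span {a, e}`.  Membership: `u a + v e` with `u, v ∈ O_K` in coordinates `1, om`
(`isO_cv`) is `x + om y`, `x, y ∈ V`, and conversely.  `I <> 0`: `N <> 0`.
Elements `c1, c2, g` of `O_K` with `cv = b1 P s, b2 P s, ga P s` (all are integer combinations of `1`
and `(Bf ± s)/2`, `(Bg ± s)/2`).  `I^2 = span {a^2, a e, e^2}` (`Ideal.span_pair_mul_span_pair`)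
`= span {c1, c2}`: `⊆` by `a11, a12, a22`; `⊇`: `N b1 = P0 (a e) - P1 a^2`, `Bf b1 = P0 e^2 - P2 a^2`,
`Nq b1 = P1 e^2 - P2 a e`, `N b2 = P3 (a e) - P4 a^2`, `Bf b2 = P3 e^2 - P5 a^2`,
`Nq b2 = P4 e^2 - P5 a e` (from `a11, a12, a22` and `minors`) and `bez`.
`span {a} * (span {c1, c2})^2 = span {g} * I'`, `I' = span {a, e'}`, `cv e' = (Bf - s)/2`: by `b11, b12,
b22` the left side is `span {g}` times the span of `P9 a - P6 e'`, `P10 a - P7 e'`, `P11 a - P8 e'`, and
these three span `(a, e')` because the 2x2 minors `-Kf, -Bg, -Kq` are coprime (`minors`, `bezW`).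
`I * I' = span {a}`: products `a^2, a e', a e, e e' = a Nq`; `a ∈` by `bez` (`e + e' = Bf`).
So `(a) I^4 = (g) I'`, `(a) I^5 = (g)(a)`, cancel `(a)`.
-/

set_option autoImplicit false

namespace Pool.Agent.LBK

open NumberField Pool.Agent.FTA Pool.Agent.FTB Pool.Agent.SMI Pool.Agent.PP5 nonZeroDivisors

private theorem Idl_abs {R : Type*} [CommRing R] [IsDomain R]
    (p0 p1 p2 p3 p4 p5 p6 p7 p8 p9 p10 p11 n bf nq kf bg kq e e' c1 c2 g : R) (hn : n ≠ 0)
    (e11 : n * n = p3 * c1 - p0 * c2) (e12 : n * e = p4 * c1 - p1 * c2)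
    (e22 : e * e = p5 * c1 - p2 * c2) (m1 : p0 * p4 - p1 * p3 = n)
    (m2 : p0 * p5 - p2 * p3 = bf) (m3 : p1 * p5 - p2 * p4 = nq)
    (m4 : p6 * p10 - p7 * p9 = -kf) (m5 : p6 * p11 - p8 * p9 = -bg)
    (m6 : p7 * p11 - p8 * p10 = -kq)
    (f11 : n * (c1 * c1) = g * (p9 * n - p6 * e')) (f12 : n * (c1 * c2) = g * (p10 * n - p7 * e'))
    (f22 : n * (c2 * c2) = g * (p11 * n - p8 * e'))
    (ee : e * e' = n * nq) (es : e + e' = bf)
    (bz : ∃ x y z : R, x * n + y * bf + z * nq = 1)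
    (bw : ∃ x y z : R, x * kf + y * bg + z * kq = 1) :
    (Ideal.span {n, e}) ^ 5 = Ideal.span {g} := by
  obtain ⟨x, y, z, hx⟩ := bz
  obtain ⟨u, v, w, hu⟩ := bw
  have hI2 : Ideal.span {n, e} * Ideal.span {n, e} = Ideal.span {c1, c2} := by
    rw [Ideal.span_pair_mul_span_pair]
    refine le_antisymm (Ideal.span_le.2 ?_) (Ideal.span_le.2 ?_)
    · intro t ht
      simp only [Set.mem_insert_iff, Set.mem_singleton_iff] at ht
      rw [SetLike.mem_coe, Ideal.mem_span_pair]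
      rcases ht with rfl | rfl | rfl | rfl
      · exact ⟨p3, -p0, by rw [e11]; ring⟩
      · exact ⟨p4, -p1, by rw [e12]; ring⟩
      · exact ⟨p4, -p1, by rw [mul_comm e n, e12]; ring⟩
      · exact ⟨p5, -p2, by rw [e22]; ring⟩
    · have h1 : n * n ∈ Ideal.span {n * n, n * e, e * n, e * e} := Ideal.subset_span (by simp)
      have h2 : n * e ∈ Ideal.span {n * n, n * e, e * n, e * e} := Ideal.subset_span (by simp)
      have h3 : e * e ∈ Ideal.span {n * n, n * e, e * n, e * e} := Ideal.subset_span (by simp)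
      intro t ht
      simp only [Set.mem_insert_iff, Set.mem_singleton_iff] at ht
      rw [SetLike.mem_coe]
      rcases ht with rfl | rfl
      · have h4 : t = (-(x * p1) - y * p2) * (n * n) + (x * p0 - z * p2) * (n * e)
            + (y * p0 + z * p1) * (e * e) := by
          rw [e11, e12, e22]
          linear_combination (-t) * hx + (-(t * x)) * m1 + (-(t * y)) * m2 + (-(t * z)) * m3
        rw [h4]
        exact add_mem (add_mem (Ideal.mul_mem_left _ _ h1) (Ideal.mul_mem_left _ _ h2))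
          (Ideal.mul_mem_left _ _ h3)
      · have h4 : t = (-(x * p4) - y * p5) * (n * n) + (x * p3 - z * p5) * (n * e)
            + (y * p3 + z * p4) * (e * e) := by
          rw [e11, e12, e22]
          linear_combination (-t) * hx + (-(t * x)) * m1 + (-(t * y)) * m2 + (-(t * z)) * m3
        rw [h4]
        exact add_mem (add_mem (Ideal.mul_mem_left _ _ h1) (Ideal.mul_mem_left _ _ h2))
          (Ideal.mul_mem_left _ _ h3)
  have hJ : Ideal.span {n} * (Ideal.span {c1, c2} * Ideal.span {c1, c2})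
      = Ideal.span {g} * Ideal.span {n, e'} := by
    rw [Ideal.span_pair_mul_span_pair, Ideal.span_mul_span', Ideal.span_mul_span']
    simp only [Set.singleton_mul, Set.image_insert_eq, Set.image_singleton]
    refine le_antisymm (Ideal.span_le.2 ?_) (Ideal.span_le.2 ?_)
    · intro t ht
      simp only [Set.mem_insert_iff, Set.mem_singleton_iff] at ht
      rw [SetLike.mem_coe, Ideal.mem_span_pair]
      rcases ht with rfl | rfl | rfl | rfl
      · exact ⟨p9, -p6, by rw [f11]; ring⟩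
      · exact ⟨p10, -p7, by rw [f12]; ring⟩
      · exact ⟨p10, -p7, by rw [mul_comm c2 c1, f12]; ring⟩
      · exact ⟨p11, -p8, by rw [f22]; ring⟩
    · have h1 : n * (c1 * c1) ∈ Ideal.span {n * (c1 * c1), n * (c1 * c2), n * (c2 * c1),
          n * (c2 * c2)} := Ideal.subset_span (by simp)
      have h2 : n * (c1 * c2) ∈ Ideal.span {n * (c1 * c1), n * (c1 * c2), n * (c2 * c1),
          n * (c2 * c2)} := Ideal.subset_span (by simp)
      have h3 : n * (c2 * c2) ∈ Ideal.span {n * (c1 * c1), n * (c1 * c2), n * (c2 * c1),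
          n * (c2 * c2)} := Ideal.subset_span (by simp)
      intro t ht
      simp only [Set.mem_insert_iff, Set.mem_singleton_iff] at ht
      rw [SetLike.mem_coe]
      rcases ht with h0 | h0
      · have h4 : t = (u * p7 + v * p8) * (n * (c1 * c1)) + (-(u * p6) + w * p8) * (n * (c1 * c2))
            + (-(v * p6) - w * p7) * (n * (c2 * c2)) := by
          rw [f11, f12, f22, h0]
          linear_combination (-(g * n)) * hu + (g * n * u) * m4 + (g * n * v) * m5
            + (g * n * w) * m6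
        rw [h4]
        exact add_mem (add_mem (Ideal.mul_mem_left _ _ h1) (Ideal.mul_mem_left _ _ h2))
          (Ideal.mul_mem_left _ _ h3)
      · have h4 : t = (u * p10 + v * p11) * (n * (c1 * c1))
            + (-(u * p9) + w * p11) * (n * (c1 * c2))
            + (-(v * p9) - w * p10) * (n * (c2 * c2)) := by
          rw [f11, f12, f22, h0]
          linear_combination (-(g * e')) * hu + (g * e' * u) * m4 + (g * e' * v) * m5
            + (g * e' * w) * m6
        rw [h4]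
        exact add_mem (add_mem (Ideal.mul_mem_left _ _ h1) (Ideal.mul_mem_left _ _ h2))
          (Ideal.mul_mem_left _ _ h3)
  have hII : Ideal.span {n, e'} * Ideal.span {n, e} = Ideal.span {n} := by
    rw [Ideal.span_pair_mul_span_pair]
    refine le_antisymm (Ideal.span_le.2 ?_) (Ideal.span_le.2 ?_)
    · intro t ht
      simp only [Set.mem_insert_iff, Set.mem_singleton_iff] at ht
      rw [SetLike.mem_coe, Ideal.mem_span_singleton]
      rcases ht with rfl | rfl | rfl | rfl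
      · exact dvd_mul_right _ _
      · exact dvd_mul_right _ _
      · exact dvd_mul_left _ _
      · rw [mul_comm e' e, ee]
        exact dvd_mul_right _ _
    · have h1 : n * n ∈ Ideal.span {n * n, n * e, e' * n, e' * e} := Ideal.subset_span (by simp)
      have h2 : n * e ∈ Ideal.span {n * n, n * e, e' * n, e' * e} := Ideal.subset_span (by simp)
      have h3 : e' * n ∈ Ideal.span {n * n, n * e, e' * n, e' * e} := Ideal.subset_span (by simp)
      have h4 : e' * e ∈ Ideal.span {n * n, n * e, e' * n, e' * e} := Ideal.subset_span (by simp)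
      intro t ht
      rw [Set.mem_singleton_iff] at ht
      rw [SetLike.mem_coe]
      have h5 : t = x * (n * n) + y * (n * e) + y * (e' * n) + z * (e' * e) := by
        rw [ht]
        linear_combination (-n) * hx - n * y * es - z * ee
      rw [h5]
      exact add_mem (add_mem (add_mem (Ideal.mul_mem_left _ _ h1) (Ideal.mul_mem_left _ _ h2))
        (Ideal.mul_mem_left _ _ h3)) (Ideal.mul_mem_left _ _ h4)
  have h5 : Ideal.span {n} * (Ideal.span {n, e}) ^ 5 = Ideal.span {n} * Ideal.span {g} := by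
    calc Ideal.span {n} * (Ideal.span {n, e}) ^ 5
        = Ideal.span {n} * ((Ideal.span {n, e} * Ideal.span {n, e})
            * (Ideal.span {n, e} * Ideal.span {n, e})) * Ideal.span {n, e} := by ring
      _ = Ideal.span {g} * (Ideal.span {n, e'} * Ideal.span {n, e}) := by
          rw [hI2, hJ]
          ring
      _ = Ideal.span {n} * Ideal.span {g} := by
          rw [hII]
          ring
  exact (Ideal.span_singleton_mul_right_inj hn).1 h5

private noncomputable def Idl_c (K : IntermediateField ℚ ℂ) [NumberField K] : 𝓞 K →+* ℂ :=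
  (algebraMap K ℂ).comp (algebraMap (𝓞 K) K)

private theorem Idl_cv (K : IntermediateField ℚ ℂ) [NumberField K] (u : 𝓞 K) :
    cv K u = Idl_c K u := rfl

private theorem Idl_inj (K : IntermediateField ℚ ℂ) [NumberField K] {u v : 𝓞 K}
    (h : Idl_c K u = Idl_c K v) : u = v :=
  RingOfIntegers.ext (Subtype.ext h)

theorem idl (K : IntermediateField ℚ ℂ) [NumberField K] (h2 : Module.finrank ℚ K = 2)
    (him : ∃ x : K, (x : ℂ).im ≠ 0) (f : ℕ) (P : Sp) (h : Pt K f P) :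
    ∃ (I : (Ideal (𝓞 K))⁰) (g : 𝓞 K),
      (∀ u : 𝓞 K, u ∈ (I : Ideal (𝓞 K)) ↔ InI K P (sK K f) (cv K u)) ∧
      cv K g = ga P (sK K f) ∧ (I : Ideal (𝓞 K)) ^ 5 = Ideal.span {g} := by
  have hq := h.qd
  have hs := sK_df K f P h
  have hD := df_neg K f P h
  set s : ℂ := sK K f with hsd
  obtain ⟨e, he⟩ := (isO_cv K h2 him _).1
    (isOf_isO K f _ (isOf_half K f (Bf P) (par K h2 him f P h).1))
  obtain ⟨w, hw⟩ := (isO_cv K h2 him _).1
    (isOf_isO K f _ (isOf_half K f (Bg P) (par K h2 him f P h).2))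
  obtain ⟨o, ho⟩ := (isO_cv K h2 him _).1 (isO_om K)
  rw [Idl_cv, ← hsd] at he hw
  rw [Idl_cv] at ho
  obtain ⟨n, hn⟩ : ∃ n : 𝓞 K, n = ((Nf P : ℤ) : 𝓞 K) := ⟨_, rfl⟩
  obtain ⟨e', he'⟩ : ∃ e' : 𝓞 K, e' = ((Bf P : ℤ) : 𝓞 K) - e := ⟨_, rfl⟩
  obtain ⟨c1, hc1⟩ : ∃ c1 : 𝓞 K, c1 = ((P 3 : ℤ) : 𝓞 K) * ((Kf P : ℤ) : 𝓞 K)
    - ((P 0 : ℤ) : 𝓞 K) * (((Bg P : ℤ) : 𝓞 K) - w) := ⟨_, rfl⟩
  obtain ⟨c2, hc2⟩ : ∃ c2 : 𝓞 K, c2 = ((P 3 : ℤ) : 𝓞 K) * w
    - ((P 0 : ℤ) : 𝓞 K) * ((Kq P : ℤ) : 𝓞 K) := ⟨_, rfl⟩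
  obtain ⟨g, hg⟩ : ∃ g : 𝓞 K, g = ((SS P : ℤ) : 𝓞 K) * n - ((TT P : ℤ) : 𝓞 K) * e := ⟨_, rfl⟩
  have Cn : Idl_c K n = (Nf P : ℂ) := by rw [hn, map_intCast]
  have Ce' : Idl_c K e' = ((Bf P : ℂ) - s) / 2 := by
    rw [he', map_sub, map_intCast, he]
    ring
  have Cc1 : Idl_c K c1 = b1 P s := by
    rw [hc1, map_sub, map_mul, map_mul, map_sub, map_intCast, map_intCast, map_intCast,
      map_intCast, hw]
    unfold b1
    ring
  have Cc2 : Idl_c K c2 = b2 P s := by
    rw [hc2, map_sub, map_mul, map_mul, map_intCast, map_intCast, map_intCast, hw]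
    unfold b2
    ring
  have Cg : Idl_c K g = ga P s := by
    rw [hg, map_sub, map_mul, map_mul, map_intCast, map_intCast, Cn, he]
    unfold ga
    ring
  have A10 : al P s 1 0 = (Nf P : ℂ) := by
    unfold al
    push_cast
    ring
  have A01 : al P s 0 1 = ((Bf P : ℂ) + s) / 2 := by
    unfold al
    push_cast
    ring
  obtain ⟨q1, q2, q3, q4, q5, q6⟩ := minors P hq
  have hN0 : Nf P ≠ 0 := (pos P hq hD).1.ne'
  have hn0 : n ≠ 0 := by
    rw [hn]
    exact_mod_cast hN0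
  have hpow : (Ideal.span {n, e}) ^ 5 = Ideal.span {g} := by
    refine Idl_abs ((P 0 : ℤ) : 𝓞 K) ((P 1 : ℤ) : 𝓞 K) ((P 2 : ℤ) : 𝓞 K) ((P 3 : ℤ) : 𝓞 K)
      ((P 4 : ℤ) : 𝓞 K) ((P 5 : ℤ) : 𝓞 K) ((P 6 : ℤ) : 𝓞 K) ((P 7 : ℤ) : 𝓞 K)
      ((P 8 : ℤ) : 𝓞 K) ((P 9 : ℤ) : 𝓞 K) ((P 10 : ℤ) : 𝓞 K) ((P 11 : ℤ) : 𝓞 K) n
      ((Bf P : ℤ) : 𝓞 K) ((Nq P : ℤ) : 𝓞 K) ((Kf P : ℤ) : 𝓞 K) ((Bg P : ℤ) : 𝓞 K)
      ((Kq P : ℤ) : 𝓞 K) e e' c1 c2 g hn0 ?_ ?_ ?_ ?_ ?_ ?_ ?_ ?_ ?_ ?_ ?_ ?_ ?_ ?_ ?_ ?_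
    · apply Idl_inj K
      rw [map_mul, map_sub, map_mul, map_mul, map_intCast, map_intCast, Cn, Cc1, Cc2]
      have := a11 P hq s hs
      rw [A10] at this
      rw [← this]
      ring
    · apply Idl_inj K
      rw [map_mul, map_sub, map_mul, map_mul, map_intCast, map_intCast, Cn, Cc1, Cc2, he]
      have := a12 P hq s hs
      rw [A10, A01] at this
      rw [← this]
    · apply Idl_inj K
      rw [map_mul, map_sub, map_mul, map_mul, map_intCast, map_intCast, Cc1, Cc2, he]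
      have := a22 P hq s hs
      rw [A01] at this
      rw [← this]
      ring
    · rw [hn]
      unfold Nf
      push_cast
      ring
    · exact_mod_cast congrArg (Int.cast : ℤ → 𝓞 K) q2
    · exact_mod_cast congrArg (Int.cast : ℤ → 𝓞 K) q3
    · exact_mod_cast congrArg (Int.cast : ℤ → 𝓞 K) q4
    · exact_mod_cast congrArg (Int.cast : ℤ → 𝓞 K) q5
    · exact_mod_cast congrArg (Int.cast : ℤ → 𝓞 K) q6
    · apply Idl_inj K
      rw [map_mul, map_mul, map_mul, map_sub, map_mul, map_mul, map_intCast, map_intCast, Cn, Cc1,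
        Cg, Ce']
      have := b11 P hq hD s hs
      rw [← this]
      ring
    · apply Idl_inj K
      rw [map_mul, map_mul, map_mul, map_sub, map_mul, map_mul, map_intCast, map_intCast, Cn, Cc1,
        Cc2, Cg, Ce']
      exact b12 P hq hD s hs
    · apply Idl_inj K
      rw [map_mul, map_mul, map_mul, map_sub, map_mul, map_mul, map_intCast, map_intCast, Cn, Cc2,
        Cg, Ce']
      have := b22 P hq hD s hs
      rw [← this]
      ring
    · apply Idl_inj K
      rw [map_mul, map_mul, map_intCast, Cn, Ce', he]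
      have h3 : (Df P : ℂ) = (Bf P : ℂ) ^ 2 - 4 * (Nf P : ℂ) * (Nq P : ℂ) := by
        exact_mod_cast congrArg (Int.cast : ℤ → ℂ) (df_eq P hq)
      linear_combination (-1 / 4 : ℂ) * hs - (1 / 4 : ℂ) * h3
    · rw [he']
      ring
    · obtain ⟨x, y, z, hx⟩ := bez P h.pp
      refine ⟨(x : 𝓞 K), (y : 𝓞 K), (z : 𝓞 K), ?_⟩
      rw [hn]
      exact_mod_cast congrArg (Int.cast : ℤ → 𝓞 K) hx
    · obtain ⟨x, y, z, hx⟩ := bezW P hq h.pp
      refine ⟨(x : 𝓞 K), (y : 𝓞 K), (z : 𝓞 K), ?_⟩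
      exact_mod_cast congrArg (Int.cast : ℤ → 𝓞 K) hx
  have hI0 : Ideal.span {n, e} ≠ ⊥ := by
    intro hb
    have h3 : n ∈ Ideal.span {n, e} := Ideal.subset_span (by simp)
    rw [hb, Ideal.mem_bot] at h3
    exact hn0 h3
  refine ⟨⟨Ideal.span {n, e}, mem_nonZeroDivisors_of_ne_zero hI0⟩, g, ?_, ?_, hpow⟩
  · intro u
    change u ∈ Ideal.span {n, e} ↔ _
    rw [Ideal.mem_span_pair, Idl_cv]
    constructor
    · rintro ⟨p, q, hpq⟩
      obtain ⟨a1, a2, h3⟩ := (isO_cv K h2 him _).2 ⟨p, rfl⟩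
      obtain ⟨a3, a4, h4⟩ := (isO_cv K h2 him _).2 ⟨q, rfl⟩
      rw [Idl_cv] at h3 h4
      refine ⟨al P s a1 a3, al P s a2 a4, ⟨a1, a3, rfl⟩, ⟨a2, a4, rfl⟩, ?_⟩
      rw [← hpq, map_add, map_mul, map_mul, h3, h4, Cn, he]
      unfold al
      ring
    · rintro ⟨x, y, ⟨v1, v2, rfl⟩, ⟨u1, u2, rfl⟩, h3⟩
      refine ⟨((v1 : ℤ) : 𝓞 K) + o * ((u1 : ℤ) : 𝓞 K), ((v2 : ℤ) : 𝓞 K) + o * ((u2 : ℤ) : 𝓞 K), ?_⟩
      apply Idl_inj K
      rw [h3, map_add, map_mul, map_mul, map_add, map_add, map_mul, map_mul, map_intCast,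
        map_intCast, map_intCast, map_intCast, Cn, he, ho]
      unfold al
      ring
  · rw [Idl_cv, Cg]

/-- every element of `I_P` is an integer of `K` -/
theorem iO (K : IntermediateField ℚ ℂ) [NumberField K] (h2 : Module.finrank ℚ K = 2)
    (him : ∃ x : K, (x : ℂ).im ≠ 0) (f : ℕ) (P : Sp) (h : Pt K f P) (x : ℂ)
    (hx : InI K P (sK K f) x) : IsO K x := by
  obtain ⟨y, z, ⟨v1, v2, rfl⟩, ⟨u1, u2, rfl⟩, rfl⟩ := hx
  have h1 : IsO K (((Bf P : ℂ) + sK K f) / 2) :=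
    isOf_isO K f _ (isOf_half K f (Bf P) (par K h2 him f P h).1)
  have h3 : ∀ a b : ℤ, IsO K (al P (sK K f) a b) := by
    intro a b
    unfold al
    exact isO_add K _ _ (isO_mul K h2 him _ _ (isO_int K a) (isO_int K _))
      (isO_mul K h2 him _ _ (isO_int K b) h1)
  exact isO_add K _ _ (h3 _ _) (isO_mul K h2 him _ _ (isO_om K) (h3 _ _))

end Pool.Agent.LBK
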