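import Pool.Agent.LBK.Idl

/-!
# LBK/Kap (size 3): two points of the same class

`kap`: for `x, y ∈ V_P'` (so in `I_P'`): `kap x, kap y ∈ I_P`, `|kap|^2 x conj y = N o` (`i3`), so by `vN`
for `P'`: `|kap|^2 N' = N o`, `o` a real integer of `K` (`isO_real`).  In the other direction
`z ∈ V_P`: `z / kap ∈ I_P'`, so `N = |kap|^2 N' o'`.  `o o' = 1`, positive: `o = 1`.
`clk`: `ClassGroup.mk0_eq_mk0_iff`: `span {x} * I = span {y} * I'`, `x, y <> 0`.  `k0 := cv y / cv x`: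
`InI P' z ↔ InI P (k0 z)`: if `z = cv u`, `u ∈ I'`, then `y u = x u'` with `u' ∈ I` and
`cv u' = k0 z`; and conversely.  Fifth powers: `x^5 g = unit * y^5 g'`, so `cv g = e k0^5 cv g'` with
`e` a unit: `e, 1/e ∈ O_K`, `e conj e = 1`, `e^12 = 1` (`unit12`), so `e = (e^5)^5`.
`kap := e^5 k0`; `e^5` is a unit of `O_K`, so multiplication by it preserves `I_P` (`imul`).
-/

set_option autoImplicit false

namespace Pool.Agent.LBK

open NumberField Pool.Agent.FTA Pool.Agent.FTB Pool.Agent.SMI Pool.Agent.PP5 nonZeroDivisors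

private theorem Kap_cv_mul (K : IntermediateField ℚ ℂ) [NumberField K] (a b : 𝓞 K) :
    cv K (a * b) = cv K a * cv K b := by
  unfold cv
  push_cast
  rfl

private theorem Kap_cv_pow (K : IntermediateField ℚ ℂ) [NumberField K] (a : 𝓞 K) (n : ℕ) :
    cv K (a ^ n) = cv K a ^ n := by
  unfold cv
  push_cast
  rfl

private theorem Kap_cv_ne (K : IntermediateField ℚ ℂ) [NumberField K] (a : 𝓞 K) (ha : a ≠ 0) :
    cv K a ≠ 0 := by
  unfold cv
  intro h
  apply ha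
  have h1 : (a : K) = 0 := by exact_mod_cast h
  exact_mod_cast h1

theorem kap (K : IntermediateField ℚ ℂ) [NumberField K] (h2 : Module.finrank ℚ K = 2)
    (him : ∃ x : K, (x : ℂ).im ≠ 0) (f : ℕ) (P P' : Sp) (h : Pt K f P) (h' : Pt K f P') (k : ℂ)
    (hk : k ≠ 0) (hI : ∀ z : ℂ, InI K P' (sK K f) z ↔ InI K P (sK K f) (k * z)) :
    k * (starRingEnd ℂ) k * (Nf P' : ℂ) = (Nf P : ℂ) := by
  have hN : 0 < Nf P := (pos P h.qd (df_neg K f P h)).1
  have hN' : 0 < Nf P' := (pos P' h'.qd (df_neg K f P' h')).1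
  have hNc : (Nf P : ℂ) ≠ 0 := by exact_mod_cast hN.ne'
  have hN'c : (Nf P' : ℂ) ≠ 0 := by exact_mod_cast hN'.ne'
  have hkc : (starRingEnd ℂ) k ≠ 0 := by
    rw [Ne, map_eq_zero]
    exact hk
  obtain ⟨o, ho, ho1⟩ := vN K f P' h' (k * (starRingEnd ℂ) k) (Nf P : ℂ) (by
    intro x y hx hy
    obtain ⟨o, ho, h1⟩ := i3 K h2 him f P h (k * x) (k * y)
      ((hI x).1 (vI K P' _ x hx)) ((hI y).1 (vI K P' _ y hy))
    refine ⟨o, ho, ?_⟩
    rw [← h1, map_mul]
    ring)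
  obtain ⟨o', ho', ho2⟩ := vN K f P h 1 (k * (starRingEnd ℂ) k * (Nf P' : ℂ)) (by
    intro x y hx hy
    have hx' : InI K P' (sK K f) (x / k) := by
      rw [hI, mul_div_cancel₀ _ hk]
      exact vI K P _ x hx
    have hy' : InI K P' (sK K f) (y / k) := by
      rw [hI, mul_div_cancel₀ _ hk]
      exact vI K P _ y hy
    obtain ⟨o, ho, h1⟩ := i3 K h2 him f P' h' (x / k) (y / k) hx' hy'
    refine ⟨o, ho, ?_⟩
    rw [map_div₀] at h1
    have h3 : x * (starRingEnd ℂ) y = k * (starRingEnd ℂ) k * (x / k * ((starRingEnd ℂ) y / (starRingEnd ℂ) k)) := by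
      field_simp
    rw [one_mul, h3, h1]
    ring)
  rw [one_mul] at ho2
  have hconjt : (starRingEnd ℂ) (k * (starRingEnd ℂ) k * (Nf P' : ℂ)) = k * (starRingEnd ℂ) k * (Nf P' : ℂ) := by
    rw [map_mul, map_mul, Complex.conj_conj, map_intCast]
    ring
  have ht : k * (starRingEnd ℂ) k * (Nf P' : ℂ) ≠ 0 := mul_ne_zero (mul_ne_zero hk hkc) hN'c
  have hoc : (starRingEnd ℂ) o = o := by
    have h3 : (starRingEnd ℂ) ((Nf P : ℂ) * o) = (Nf P : ℂ) * o := by rw [← ho1, hconjt]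
    rw [map_mul, map_intCast] at h3
    exact mul_left_cancel₀ hNc h3
  have hoc' : (starRingEnd ℂ) o' = o' := by
    have h3 : (starRingEnd ℂ) (k * (starRingEnd ℂ) k * (Nf P' : ℂ) * o') = k * (starRingEnd ℂ) k * (Nf P' : ℂ) * o' := by
      rw [← ho2, map_intCast]
    rw [map_mul, hconjt] at h3
    exact mul_left_cancel₀ ht h3
  obtain ⟨n, rfl⟩ := isO_real K o ho hoc
  obtain ⟨n', rfl⟩ := isO_real K o' ho' hoc'
  have hnn : (n : ℂ) * (n' : ℂ) = 1 := by
    rw [ho1] at ho2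
    have h4 : (Nf P : ℂ) * 1 = (Nf P : ℂ) * ((n : ℂ) * (n' : ℂ)) := by
      rw [mul_one, ← mul_assoc]
      exact ho2
    exact (mul_left_cancel₀ hNc h4).symm
  have hnnZ : n * n' = 1 := by exact_mod_cast hnn
  have hnpos : 0 < n := by
    have h5 : (Complex.normSq k : ℝ) * (Nf P' : ℝ) = (Nf P : ℝ) * (n : ℝ) := by
      rw [Complex.mul_conj] at ho1
      exact_mod_cast ho1
    have h6 : 0 < (Complex.normSq k : ℝ) := Complex.normSq_pos.mpr hk
    have h7 : (0 : ℝ) < (Nf P' : ℝ) := by exact_mod_cast hN'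
    have h8 : (0 : ℝ) < (Nf P : ℝ) := by exact_mod_cast hN
    have h9 : 0 < (Nf P : ℝ) * (n : ℝ) := by rw [← h5]; positivity
    have h10 : (0 : ℝ) < (n : ℝ) := (mul_pos_iff_of_pos_left h8).mp h9
    exact_mod_cast h10
  have hn1 : n = 1 := by
    rcases Int.mul_eq_one_iff_eq_one_or_neg_one.mp hnnZ with h11 | h11
    · exact h11.1
    · omega
  rw [ho1, hn1]
  simp

theorem clk (K : IntermediateField ℚ ℂ) [NumberField K] (h2 : Module.finrank ℚ K = 2)
    (him : ∃ x : K, (x : ℂ).im ≠ 0) (f : ℕ) (P P' : Sp) (h : Pt K f P) (h' : Pt K f P')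
    (I I' : (Ideal (𝓞 K))⁰) (g g' : 𝓞 K)
    (hI : ∀ u : 𝓞 K, u ∈ (I : Ideal (𝓞 K)) ↔ InI K P (sK K f) (cv K u))
    (hI' : ∀ u : 𝓞 K, u ∈ (I' : Ideal (𝓞 K)) ↔ InI K P' (sK K f) (cv K u))
    (hg : cv K g = ga P (sK K f)) (hg' : cv K g' = ga P' (sK K f))
    (h5 : (I : Ideal (𝓞 K)) ^ 5 = Ideal.span {g}) (h5' : (I' : Ideal (𝓞 K)) ^ 5 = Ideal.span {g'})
    (hc : ClassGroup.mk0 I = ClassGroup.mk0 I') :
    ∃ k : ℂ, k ≠ 0 ∧ (∀ z : ℂ, InI K P' (sK K f) z ↔ InI K P (sK K f) (k * z)) ∧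
      ga P (sK K f) = k ^ 5 * ga P' (sK K f) := by
  obtain ⟨x, y, hx, hy, hxy⟩ := (ClassGroup.mk0_eq_mk0_iff).1 hc
  have hcx := Kap_cv_ne K x hx
  have hcy := Kap_cv_ne K y hy
  -- the first factor
  have h0 : ∀ z : ℂ, InI K P' (sK K f) z ↔ InI K P (sK K f) (cv K y / cv K x * z) := by
    intro z
    constructor
    · intro hz
      obtain ⟨u, rfl⟩ := (isO_cv K h2 him z).1 (iO K h2 him f P' h' z hz)
      have hu : u ∈ (I' : Ideal (𝓞 K)) := (hI' u).2 hz
      have h3 : y * u ∈ Ideal.span {x} * (I : Ideal (𝓞 K)) := by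
        rw [hxy]
        exact Ideal.mul_mem_mul (Ideal.mem_span_singleton_self y) hu
      obtain ⟨u', hu', h4⟩ := Ideal.mem_span_singleton_mul.1 h3
      have h6 : cv K y / cv K x * cv K u = cv K u' := by
        have h7 : cv K x * cv K u' = cv K y * cv K u := by
          rw [← Kap_cv_mul, ← Kap_cv_mul, h4]
        field_simp
        linear_combination -h7
      rw [h6]
      exact (hI u').1 hu'
    · intro hz
      obtain ⟨u', hu'⟩ := (isO_cv K h2 him _).1 (iO K h2 him f P h _ hz)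
      rw [← hu'] at hz
      have hu : u' ∈ (I : Ideal (𝓞 K)) := (hI u').2 hz
      have h3 : x * u' ∈ Ideal.span {y} * (I' : Ideal (𝓞 K)) := by
        rw [← hxy]
        exact Ideal.mul_mem_mul (Ideal.mem_span_singleton_self x) hu
      obtain ⟨u, hu2, h4⟩ := Ideal.mem_span_singleton_mul.1 h3
      have h6 : cv K u = z := by
        have h7 : cv K y * cv K u = cv K x * cv K u' := by
          rw [← Kap_cv_mul, ← Kap_cv_mul, h4]
        rw [hu'] at h7
        have h8 : cv K x * (cv K y / cv K x * z) = cv K y * z := by field_simp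
        rw [h8] at h7
        exact mul_left_cancel₀ hcy h7
      rw [← h6]
      exact (hI' u).1 hu2
  -- the unit
  have hspan : Ideal.span {x ^ 5 * g} = Ideal.span {y ^ 5 * g'} := by
    rw [← Ideal.span_singleton_mul_span_singleton, ← Ideal.span_singleton_mul_span_singleton,
      ← Ideal.span_singleton_pow, ← Ideal.span_singleton_pow, ← h5, ← h5', ← mul_pow, ← mul_pow, hxy]
  obtain ⟨e, he⟩ := Ideal.span_singleton_eq_span_singleton.1 hspan.symm
  -- `y ^ 5 * g' * e = x ^ 5 * g`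
  have hen : cv K (e : 𝓞 K) * (starRingEnd ℂ) (cv K (e : 𝓞 K)) = 1 := by
    rw [cvn K h2 him, Ideal.span_singleton_eq_top.2 e.isUnit, Ideal.absNorm_top]
    simp
  have heO : ∀ n : ℕ, IsO K (cv K (e : 𝓞 K) ^ n) := fun n =>
    (isO_cv K h2 him _).2 ⟨(e : 𝓞 K) ^ n, Kap_cv_pow K _ _⟩
  have he12 : cv K (e : 𝓞 K) ^ 12 = 1 := by
    apply unit12 K h2 him _ _ hen
    have := heO 1
    rwa [pow_one] at this
  have hene : cv K (e : 𝓞 K) ≠ 0 := by
    intro h0
    rw [h0] at he12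
    simp at he12
  have hgg : ga P (sK K f) = cv K (e : 𝓞 K) * (cv K y / cv K x) ^ 5 * ga P' (sK K f) := by
    rw [← hg, ← hg']
    have h7 : cv K y ^ 5 * cv K g' * cv K (e : 𝓞 K) = cv K x ^ 5 * cv K g := by
      rw [← Kap_cv_pow, ← Kap_cv_pow, ← Kap_cv_mul, ← Kap_cv_mul, ← Kap_cv_mul, he]
    field_simp
    linear_combination -h7
  refine ⟨cv K (e : 𝓞 K) ^ 5 * (cv K y / cv K x), ?_, ?_, ?_⟩
  · exact mul_ne_zero (pow_ne_zero _ hene) (div_ne_zero hcy hcx)
  · intro z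
    rw [h0 z]
    constructor
    · intro hz
      have := imul K h2 him P (sK K f) _ _ hz (heO 5)
      rwa [← mul_assoc] at this
    · intro hz
      have h8 := imul K h2 him P (sK K f) _ _ hz (heO 7)
      have h9 : cv K (e : 𝓞 K) ^ 7 * (cv K (e : 𝓞 K) ^ 5 * (cv K y / cv K x) * z) =
          cv K y / cv K x * z := by
        linear_combination (cv K y / cv K x * z) * he12
      rwa [h9] at h8
  · rw [hgg]
    linear_combination -(cv K (e : 𝓞 K) * (cv K y / cv K x) ^ 5 * ga P' (sK K f)) * (cv K (e : 𝓞 K) ^ 12 + 1) * he12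

end Pool.Agent.LBK
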