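import Pool.Agent.LBK.Idl

/-!
# LBK/Npr (size 3): `I_P` is not principal

Let `I = span {g}`.  `|g|^2 = N`: `g conj g = N o`, `o ∈ O_K` real (`i3`), so `g conj g = N n`, `n ∈ ℤ`
(`isO_real`; `N` real, `<> 0`); and all `x, y ∈ V ⊆ I` are `g u, g v` with `u, v ∈ O_K`, so
`x conj y = (g conj g) (u conj v)`, and by `vN` (with `c = 1`, `m = g conj g`) `N = (g conj g) o'`,
`o' ∈ O_K` real, an integer.  So `n o' = 1`, `n = ± 1`, and `n > 0`.
`f g ∈ V` (`fI`), `f g <> 0`: `f g = al v`, `|f g|^2 = N fV(v) >= N c1 Y` (`al_norm`, `Blc.vm`), so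
`f^2 N >= N c1 Y`.
-/

set_option autoImplicit false

namespace Pool.Agent.LBK

open NumberField Pool.Agent.FTA Pool.Agent.FTB Pool.Agent.SMI Pool.Agent.PP5 nonZeroDivisors

private theorem Npr_main (K : IntermediateField ℚ ℂ) [NumberField K]
    (h2 : Module.finrank ℚ K = 2) (him : ∃ x : K, (x : ℂ).im ≠ 0) (f : ℕ) (P : Sp) (h : Pt K f P)
    (g : 𝓞 K) (hg : InI K P (sK K f) (cv K g))
    (hV : ∀ x : ℂ, InV P (sK K f) x → ∃ u : 𝓞 K, x = cv K g * cv K u) :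
    cv K g * (starRingEnd ℂ) (cv K g) = (Nf P : ℂ) := by
  have hD := df_neg K f P h
  have hN : 0 < Nf P := (pos P h.qd hD).1
  have hNc : (Nf P : ℂ) ≠ 0 := by exact_mod_cast hN.ne'
  obtain ⟨o, ho, h3⟩ := i3 K h2 him f P h (cv K g) (cv K g) hg hg
  have hoc : (starRingEnd ℂ) o = o := by
    have h4 := congrArg (starRingEnd ℂ) h3
    rw [map_mul, Complex.conj_conj, map_mul, map_intCast, mul_comm, h3] at h4
    exact (mul_left_cancel₀ hNc h4).symm
  obtain ⟨n, hn⟩ := isO_real K o ho hoc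
  rw [hn] at h3
  obtain ⟨o', ho', h5⟩ := vN K f P h 1 (cv K g * (starRingEnd ℂ) (cv K g)) (by
    intro x y hx hy
    obtain ⟨u, hu⟩ := hV x hx
    obtain ⟨v, hv⟩ := hV y hy
    refine ⟨cv K u * (starRingEnd ℂ) (cv K v), ?_, ?_⟩
    · exact isO_mul K h2 him _ _ ((isO_cv K h2 him _).2 ⟨u, rfl⟩)
        (isO_conj K _ ((isO_cv K h2 him _).2 ⟨v, rfl⟩))
    · rw [hu, hv, map_mul]
      ring)
  rw [h3, one_mul] at h5
  have h6 : (n : ℂ) * o' = 1 := by
    apply mul_left_cancel₀ hNc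
    linear_combination -h5
  have hn0 : (n : ℂ) ≠ 0 := by
    intro h0
    rw [h0, zero_mul] at h6
    exact zero_ne_one h6
  have ho'c : (starRingEnd ℂ) o' = o' := by
    have h7 := congrArg (starRingEnd ℂ) h6
    rw [map_mul, map_intCast, map_one, ← h6] at h7
    exact mul_left_cancel₀ hn0 h7
  obtain ⟨k, hk⟩ := isO_real K o' ho' ho'c
  rw [hk] at h6
  have h8 : n * k = 1 := by exact_mod_cast h6
  have h9 : 0 ≤ Nf P * n := by
    have h10 : ((Nf P * n : ℤ) : ℝ) = Complex.normSq (cv K g) := by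
      have h11 : ((Nf P * n : ℤ) : ℂ) = ((Complex.normSq (cv K g) : ℝ) : ℂ) := by
        rw [Complex.normSq_eq_conj_mul_self, mul_comm ((starRingEnd ℂ) (cv K g)), h3]
        push_cast
        ring
      exact_mod_cast h11
    have h12 : 0 ≤ ((Nf P * n : ℤ) : ℝ) := by
      rw [h10]
      exact Complex.normSq_nonneg _
    exact_mod_cast h12
  have h13 : n = 1 := by
    rcases Int.isUnit_iff.1 (IsUnit.of_mul_eq_one _ h8) with h | h
    · exact h
    · rw [h] at h9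
      nlinarith
  rw [h3, h13]
  simp

theorem npr (K : IntermediateField ℚ ℂ) [NumberField K] (h2 : Module.finrank ℚ K = 2)
    (him : ∃ x : K, (x : ℂ).im ≠ 0) (f : ℕ) (P : Sp) (h : Pt K f P) (c1 c2 Y : ℝ)
    (hB : Blc c1 c2 Y P) (I : (Ideal (𝓞 K))⁰)
    (hI : ∀ u : 𝓞 K, u ∈ (I : Ideal (𝓞 K)) ↔ InI K P (sK K f) (cv K u))
    (h1 : ClassGroup.mk0 I = 1) : c1 * Y ≤ (f : ℝ) ^ 2 := by
  have hD := df_neg K f P h
  have hN : 0 < Nf P := (pos P h.qd hD).1
  have hpr : (I : Ideal (𝓞 K)).IsPrincipal := by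
    have := (ClassGroup.mk0_eq_one_iff I.2).1 h1
    exact this
  obtain ⟨g, hg⟩ := hpr.principal
  have hgI : g ∈ (I : Ideal (𝓞 K)) := by
    rw [hg]
    exact Submodule.mem_span_singleton_self g
  have hgI' := (hI g).1 hgI
  have hV : ∀ x : ℂ, InV P (sK K f) x → ∃ u : 𝓞 K, x = cv K g * cv K u := by
    intro x hx
    have h3 := vI K P (sK K f) x hx
    obtain ⟨a, ha⟩ := (isO_cv K h2 him x).1 (iO K h2 him f P h x h3)
    have h4 : a ∈ (I : Ideal (𝓞 K)) := by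
      rw [hI, ha]
      exact h3
    rw [hg] at h4
    obtain ⟨u, hu⟩ := Submodule.mem_span_singleton.1 h4
    refine ⟨u, ?_⟩
    rw [← ha, ← hu, smul_eq_mul, cv_mul, mul_comm]
  have hm := Npr_main K h2 him f P h g hgI' hV
  obtain ⟨v1, v2, hv⟩ := fI K h2 him f P h (cv K g) hgI'
  have hs := sK_df K f P h
  have hn := al_norm P h.qd (sK K f) hs v1 v2
  rw [← al_conj, ← hv, map_mul] at hn
  have hf : (f : ℂ) * cv K g * ((starRingEnd ℂ) (f : ℂ) * (starRingEnd ℂ) (cv K g)) =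
      ((f : ℂ) ^ 2) * (Nf P : ℂ) := by
    rw [← hm, Complex.conj_natCast]
    ring
  rw [hf] at hn
  have hn' : ((f : ℤ) ^ 2 * Nf P : ℤ) = Nf P * fV P v1 v2 := by exact_mod_cast hn
  have hn'' : (f : ℤ) ^ 2 = fV P v1 v2 := by
    have : Nf P * (f : ℤ) ^ 2 = Nf P * fV P v1 v2 := by
      rw [← hn']
      ring
    exact mul_left_cancel₀ hN.ne' this
  have hv0 : v1 ≠ 0 ∨ v2 ≠ 0 := by
    by_contra hcon
    push Not at hcon
    have h0 : fV P v1 v2 = 0 := by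
      rw [hcon.1, hcon.2]
      simp [fV]
    rw [h0] at hn''
    have hf1 := h.f1
    have : (0 : ℤ) < (f : ℤ) ^ 2 := by positivity
    omega
  have h5 := hB.vm v1 v2 hv0
  calc c1 * Y ≤ (fV P v1 v2 : ℝ) := h5
    _ = (f : ℝ) ^ 2 := by
      rw [← hn'']
      push_cast
      ring

end Pool.Agent.LBK
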