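import Pool.Agent.LBK.Cls
import Pool.Agent.LBK.Npr

/-!
# LBK/Mul (size 3): the points of one field

`idl` for every `P ∈ T`; `A P := mk0 I`, `A^5 = 1` (`I^5` principal), `A <> 1` by `npr` (`f^2 < c1 Y`).
`#T = sum over A` of the numbers of `cls1` (`Finset.card_eq_sum_card_fiberwise`), and the number of `A`
with `A^5 = 1`, `A <> 1` is `Nat.card {g // g^5 = 1} - 1` (the class group is finite).
-/

set_option autoImplicit false

namespace Pool.Agent.LBK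

open NumberField Pool.Agent.FTA Pool.Agent.FTB Pool.Agent.SMI Pool.Agent.PP5 nonZeroDivisors

theorem mul (c1 c2 : ℝ) (h1 : 0 < c1) (h2c : 0 < c2) : ∃ C : ℝ, 0 < C ∧
    ∀ (K : IntermediateField ℚ ℂ) [NumberField K] (_ : Module.finrank ℚ K = 2)
    (_ : ∃ x : K, (x : ℂ).im ≠ 0) (f : ℕ) (Y : ℝ) (_ : 0 < Y) (_ : (f : ℝ) ^ 2 < c1 * Y)
    (T : Finset Sp), (∀ P ∈ T, Pt K f P ∧ Blc c1 c2 Y P) →
    (T.card : ℝ) * (∏ p ∈ f.primeFactors, p : ℕ) ≤ C * 6 ^ f.primeFactors.card * f *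
      ((Nat.card {g : ClassGroup (𝓞 K) // g ^ 5 = 1} : ℝ) - 1) := by
  classical
  obtain ⟨C, hC, hcls⟩ := cls1 c1 c2 h1 h2c
  refine ⟨C, hC, ?_⟩
  intro K _ h2 him f Y hY hfY T hT
  let _ : Fintype (ClassGroup (𝓞 K)) := Fintype.ofFinite _
  have hex : ∀ P : Sp, ∃ I : (Ideal (𝓞 K))⁰, P ∈ T → ∃ g : 𝓞 K,
      (∀ u : 𝓞 K, u ∈ (I : Ideal (𝓞 K)) ↔ InI K P (sK K f) (cv K u)) ∧
      cv K g = ga P (sK K f) ∧ (I : Ideal (𝓞 K)) ^ 5 = Ideal.span {g} := by
    intro P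
    by_cases hP : P ∈ T
    · obtain ⟨I, g, hg⟩ := idl K h2 him f P (hT P hP).1
      exact ⟨I, fun _ => ⟨g, hg⟩⟩
    · exact ⟨1, fun h => absurd h hP⟩
  choose I hI using hex
  let S : Finset (ClassGroup (𝓞 K)) := Finset.univ.filter (fun a => a ^ 5 = 1 ∧ a ≠ 1)
  have hmaps : ∀ P ∈ T, ClassGroup.mk0 (I P) ∈ S := by
    intro P hP
    obtain ⟨g, hg1, hg2, hg3⟩ := hI P hP
    refine Finset.mem_filter.2 ⟨Finset.mem_univ _, ?_, ?_⟩
    · rw [← map_pow, ClassGroup.mk0_eq_one_iff]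
      have e1 : (((I P) ^ 5 : (Ideal (𝓞 K))⁰) : Ideal (𝓞 K)) = Ideal.span {g} := by
        rw [SubmonoidClass.coe_pow, hg3]
      rw [e1]
      exact ⟨⟨g, rfl⟩⟩
    · intro h
      have h3 := npr K h2 him f P (hT P hP).1 c1 c2 Y (hT P hP).2 (I P) hg1 h
      linarith
  have hcard : T.card = ∑ a ∈ S, (T.filter (fun P => ClassGroup.mk0 (I P) = a)).card :=
    Finset.card_eq_sum_card_fiberwise hmaps
  have hS : (S.card : ℝ) = (Nat.card {g : ClassGroup (𝓞 K) // g ^ 5 = 1} : ℝ) - 1 := by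
    have e1 : Nat.card {g : ClassGroup (𝓞 K) // g ^ 5 = 1} =
        (Finset.univ.filter (fun a : ClassGroup (𝓞 K) => a ^ 5 = 1)).card := by
      rw [Nat.card_eq_fintype_card, Fintype.card_subtype]
    have e2 : (Finset.univ.filter (fun a : ClassGroup (𝓞 K) => a ^ 5 = 1)) = insert 1 S := by
      ext a
      rw [Finset.mem_filter, Finset.mem_insert, Finset.mem_filter]
      constructor
      · rintro ⟨_, h⟩
        by_cases h1 : a = 1
        · exact Or.inl h1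
        · exact Or.inr ⟨Finset.mem_univ _, h, h1⟩
      · rintro (h | h)
        · rw [h]; exact ⟨Finset.mem_univ _, one_pow 5⟩
        · exact ⟨Finset.mem_univ _, h.2.1⟩
    have e3 : (1 : ClassGroup (𝓞 K)) ∉ S := fun h => (Finset.mem_filter.1 h).2.2 rfl
    rw [e1, e2, Finset.card_insert_of_notMem e3]
    push_cast
    ring
  have hfib : ∀ a ∈ S, ((T.filter (fun P => ClassGroup.mk0 (I P) = a)).card : ℝ) *
      (∏ p ∈ f.primeFactors, p : ℕ) ≤ C * 6 ^ f.primeFactors.card * f := by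
    intro a _
    refine hcls K h2 him f Y hY a _ ?_
    intro P hP
    obtain ⟨hPT, hPa⟩ := Finset.mem_filter.1 hP
    obtain ⟨g, hg1, hg2, hg3⟩ := hI P hPT
    exact ⟨(hT P hPT).1, (hT P hPT).2, I P, g, hg1, hg2, hg3, hPa⟩
  calc (T.card : ℝ) * (∏ p ∈ f.primeFactors, p : ℕ)
      = ∑ a ∈ S, ((T.filter (fun P => ClassGroup.mk0 (I P) = a)).card : ℝ) *
        (∏ p ∈ f.primeFactors, p : ℕ) := by
        rw [← Finset.sum_mul]
        congr 1
        rw [hcard]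
        push_cast
        rfl
    _ ≤ ∑ _a ∈ S, C * 6 ^ f.primeFactors.card * f := Finset.sum_le_sum hfib
    _ = C * 6 ^ f.primeFactors.card * f *
        ((Nat.card {g : ClassGroup (𝓞 K) // g ^ 5 = 1} : ℝ) - 1) := by
        rw [Finset.sum_const, nsmul_eq_mul, hS]
        ring

end Pool.Agent.LBK
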