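import Pool.Agent.LBK.Bas

/-!
# LBK/Orf (size 2): rings `IsO`, `IsOf`

All by coordinates with `om_sq`, `om_conj`, `om_uniq`.
-/

set_option autoImplicit false

namespace Pool.Agent.LBK

open NumberField Pool.Agent.FTA Pool.Agent.FTB Pool.Agent.SMI Pool.Agent.PP5 nonZeroDivisors

theorem isO_int (K : IntermediateField ℚ ℂ) [NumberField K] (n : ℤ) : IsO K (n : ℂ) :=
  ⟨n, 0, by simp⟩

theorem isO_om (K : IntermediateField ℚ ℂ) [NumberField K] : IsO K (om K) :=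
  ⟨0, 1, by simp⟩

theorem isO_add (K : IntermediateField ℚ ℂ) [NumberField K] (z w : ℂ) (hz : IsO K z)
    (hw : IsO K w) : IsO K (z + w) := by
  obtain ⟨a, b, rfl⟩ := hz
  obtain ⟨c, d, rfl⟩ := hw
  refine ⟨a + c, b + d, ?_⟩
  push_cast
  ring

theorem isO_neg (K : IntermediateField ℚ ℂ) [NumberField K] (z : ℂ) (hz : IsO K z) :
    IsO K (-z) := by
  obtain ⟨a, b, rfl⟩ := hz
  refine ⟨-a, -b, ?_⟩
  push_cast
  ring

theorem isO_mul (K : IntermediateField ℚ ℂ) [NumberField K] (h2 : Module.finrank ℚ K = 2)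
    (him : ∃ x : K, (x : ℂ).im ≠ 0) (z w : ℂ) (hz : IsO K z) (hw : IsO K w) : IsO K (z * w) := by
  obtain ⟨a, b, rfl⟩ := hz
  obtain ⟨c, d, rfl⟩ := hw
  have h := om_sq K h2 him
  refine ⟨a * c - b * d * nn K, a * d + b * c + b * d * ((aD K % 2 : ℕ) : ℤ), ?_⟩
  simp only [Int.cast_add, Int.cast_sub, Int.cast_mul, Int.cast_natCast]
  linear_combination (b : ℂ) * d * h

theorem isO_conj (K : IntermediateField ℚ ℂ) [NumberField K] (z : ℂ) (hz : IsO K z) :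
    IsO K ((starRingEnd ℂ) z) := by
  obtain ⟨a, b, rfl⟩ := hz
  refine ⟨a + b * ((aD K % 2 : ℕ) : ℤ), -b, ?_⟩
  rw [map_add, map_mul, om_conj]
  simp only [map_intCast, Int.cast_add, Int.cast_mul, Int.cast_natCast, Int.cast_neg]
  ring

/-- a real integer of `K` is rational -/
theorem isO_real (K : IntermediateField ℚ ℂ) [NumberField K] (z : ℂ) (hz : IsO K z)
    (h : (starRingEnd ℂ) z = z) : ∃ n : ℤ, z = (n : ℂ) := by
  obtain ⟨a, b, rfl⟩ := hz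
  rw [map_add, map_mul, om_conj] at h
  simp only [map_intCast] at h
  have h1 : (((a + b * ((aD K % 2 : ℕ) : ℤ) : ℤ) : ℂ)) + ((-b : ℤ) : ℂ) * om K =
      (a : ℂ) + (b : ℂ) * om K := by
    simp only [Int.cast_add, Int.cast_mul, Int.cast_natCast, Int.cast_neg]
    linear_combination h
  have h3 := (om_uniq K _ _ _ _ h1).2
  have h4 : b = 0 := by omega
  exact ⟨a, by rw [h4]; simp⟩

theorem isOf_isO (K : IntermediateField ℚ ℂ) [NumberField K] (f : ℕ) (z : ℂ)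
    (hz : IsOf K f z) : IsO K z := by
  obtain ⟨a, b, rfl⟩ := hz
  refine ⟨a, b * f, ?_⟩
  push_cast
  ring

theorem isOf_int (K : IntermediateField ℚ ℂ) [NumberField K] (f : ℕ) (n : ℤ) :
    IsOf K f (n : ℂ) := ⟨n, 0, by simp⟩

theorem isOf_f (K : IntermediateField ℚ ℂ) [NumberField K] (f : ℕ) (z : ℂ) (hz : IsO K z) :
    IsOf K f ((f : ℂ) * z) := by
  obtain ⟨a, b, rfl⟩ := hz
  refine ⟨f * a, b, ?_⟩
  push_cast
  ring

theorem isOf_add (K : IntermediateField ℚ ℂ) [NumberField K] (f : ℕ) (z w : ℂ)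
    (hz : IsOf K f z) (hw : IsOf K f w) : IsOf K f (z + w) := by
  obtain ⟨a, b, rfl⟩ := hz
  obtain ⟨c, d, rfl⟩ := hw
  refine ⟨a + c, b + d, ?_⟩
  push_cast
  ring

theorem isOf_neg (K : IntermediateField ℚ ℂ) [NumberField K] (f : ℕ) (z : ℂ)
    (hz : IsOf K f z) : IsOf K f (-z) := by
  obtain ⟨a, b, rfl⟩ := hz
  refine ⟨-a, -b, ?_⟩
  push_cast
  ring

theorem isOf_mul (K : IntermediateField ℚ ℂ) [NumberField K] (h2 : Module.finrank ℚ K = 2)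
    (him : ∃ x : K, (x : ℂ).im ≠ 0) (f : ℕ) (z w : ℂ) (hz : IsOf K f z) (hw : IsOf K f w) :
    IsOf K f (z * w) := by
  obtain ⟨a, b, rfl⟩ := hz
  obtain ⟨c, d, rfl⟩ := hw
  have h := om_sq K h2 him
  refine ⟨a * c - b * d * nn K * f ^ 2, a * d + b * c + b * d * f * ((aD K % 2 : ℕ) : ℤ), ?_⟩
  simp only [Int.cast_add, Int.cast_sub, Int.cast_mul, Int.cast_pow, Int.cast_natCast]
  linear_combination (b : ℂ) * d * (f : ℂ) ^ 2 * h

theorem isOf_conj (K : IntermediateField ℚ ℂ) [NumberField K] (f : ℕ) (z : ℂ)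
    (hz : IsOf K f z) : IsOf K f ((starRingEnd ℂ) z) := by
  obtain ⟨a, b, rfl⟩ := hz
  refine ⟨a + b * f * ((aD K % 2 : ℕ) : ℤ), -b, ?_⟩
  rw [map_add, map_mul, map_mul, om_conj]
  simp only [map_intCast, map_natCast, Int.cast_add, Int.cast_mul, Int.cast_natCast, Int.cast_neg]
  ring

/-- `m z` in `O_f`, `m` prime to `f` -/
theorem isOf_cop (K : IntermediateField ℚ ℂ) [NumberField K] (f : ℕ) (m : ℤ)
    (hm : IsCoprime m (f : ℤ)) (z : ℂ) (hz : IsO K z) (h : IsOf K f ((m : ℂ) * z)) :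
    IsOf K f z := by
  obtain ⟨u, v, huv⟩ := hm
  have h1 : IsOf K f ((u : ℂ) * ((m : ℂ) * z)) := by
    obtain ⟨a, b, hab⟩ := h
    rw [hab]
    refine ⟨u * a, u * b, ?_⟩
    push_cast
    ring
  have h3 : IsOf K f ((f : ℂ) * ((v : ℂ) * z)) := by
    apply isOf_f
    obtain ⟨a, b, hab⟩ := hz
    rw [hab]
    refine ⟨v * a, v * b, ?_⟩
    push_cast
    ring
  have h4 : (u : ℂ) * m + v * f = 1 := by exact_mod_cast congrArg (Int.cast (R := ℂ)) huv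
  have h5 : z = (u : ℂ) * ((m : ℂ) * z) + (f : ℂ) * ((v : ℂ) * z) := by
    linear_combination -z * h4
  rw [h5]
  exact isOf_add K f _ _ h1 h3

/-- `(f δ + s) / 2 = f om` lies in `O_f`; so does `(b + s) / 2` for `b` of the right parity -/
theorem isOf_half (K : IntermediateField ℚ ℂ) [NumberField K] (f : ℕ) (b : ℤ)
    (hb : (2 : ℤ) ∣ b - (f : ℤ) * ((aD K % 2 : ℕ) : ℤ)) : IsOf K f (((b : ℂ) + sK K f) / 2) := by
  obtain ⟨k, hk⟩ := hb
  have hkC : (b : ℂ) - (f : ℂ) * ((aD K % 2 : ℕ) : ℂ) = 2 * (k : ℂ) := by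
    simpa only [Int.cast_mul, Int.cast_sub, Int.cast_natCast, Int.cast_ofNat] using
      congrArg (Int.cast (R := ℂ)) hk
  refine ⟨k, 1, ?_⟩
  unfold sK om
  push_cast
  linear_combination (1 / 2 : ℂ) * hkC

/-- the parity of `Bf`, `Bg` -/
theorem par (K : IntermediateField ℚ ℂ) [NumberField K] (h2 : Module.finrank ℚ K = 2)
    (him : ∃ x : K, (x : ℂ).im ≠ 0) (f : ℕ) (P : Sp) (h : Pt K f P) :
    (2 : ℤ) ∣ Bf P - (f : ℤ) * ((aD K % 2 : ℕ) : ℤ) ∧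
      (2 : ℤ) ∣ Bg P - (f : ℤ) * ((aD K % 2 : ℕ) : ℤ) := by
  have h5 := nn_eq K h2 him
  have hdd : ((aD K % 2 : ℕ) : ℤ) ^ 2 = ((aD K % 2 : ℕ) : ℤ) := by
    have h : aD K % 2 = 0 ∨ aD K % 2 = 1 := by omega
    rcases h with h | h <;> rw [h] <;> norm_num
  have hD := h.df
  -- `Df = Bf^2 mod 4`, `Df = Bg ^ 2 mod 4`
  have hf : ∃ m : ℤ, Df P = Bf P ^ 2 - 4 * m :=
    ⟨(P 6 * P 8 - P 7 ^ 2) * (P 9 * P 11 - P 10 ^ 2), by unfold Df Bf; ring⟩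
  have hg : ∃ m : ℤ, Df P = Bg P ^ 2 - 4 * m := by
    have e1 : Bg P = P 8 * P 9 - P 6 * P 11 := by
      unfold Bg
      linarith [h.qd.h5, h.qd.h6]
    refine ⟨(P 7 * P 9 - P 6 * P 10) * (P 8 * P 10 - P 7 * P 11), ?_⟩
    rw [e1]
    unfold Df
    ring
  set d : ℤ := ((aD K % 2 : ℕ) : ℤ) with hd
  have key : ∀ B : ℤ, (∃ m : ℤ, Df P = B ^ 2 - 4 * m) → (2 : ℤ) ∣ B - (f : ℤ) * d := by
    rintro B ⟨m, hm⟩
    rw [hm] at hD
    have h6 : (B - (f : ℤ) * d) ^ 2 = 2 * (2 * m + (f : ℤ) ^ 2 * d - 2 * (f : ℤ) ^ 2 * nn K -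
        B * f * d) := by
      linear_combination hD + (f : ℤ) ^ 2 * hdd + (f : ℤ) ^ 2 * h5
    have h7 : (2 : ℤ) ∣ (B - (f : ℤ) * d) ^ 2 := ⟨_, h6⟩
    exact Int.prime_two.dvd_of_dvd_pow h7
  exact ⟨key _ hf, key _ hg⟩

end Pool.Agent.LBK
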