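import Pool.Agent.LBK.Ida
import Pool.Agent.PP5LC.Lg5

/-!
# LBK/Prm (size 2): primitive forms

`bez`: gcd of the three coefficients is 1.  `bezW`: if a prime `p` divides `Kf, Bg, Kq` then by `fVsq`
`p | fV(x, y)` for `(1,0), (0,1), (1,1)`, so `p | N, Nq, Bf`.  `good`: `f_V` is primitive, so for every
prime `p | f` one of `fV(1,0), fV(0,1), fV(1,1)` is prime to `p`; CRT.  (See also
`PP5LC.good_value` in pp5lc_final.tgz.)
-/

set_option autoImplicit false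

namespace Pool.Agent.LBK

open NumberField Pool.Agent.FTA Pool.Agent.FTB Pool.Agent.SMI Pool.Agent.PP5 nonZeroDivisors

theorem bez (P : Sp) (hp : Ppr P) : ∃ a b c : ℤ, a * Nf P + b * Bf P + c * Nq P = 1 := by
  exact LBQ.bez3 hp

theorem bezW (P : Sp) (h : Qd P) (hp : Ppr P) :
    ∃ a b c : ℤ, a * Kf P + b * Bg P + c * Kq P = 1 := by
  exact LBQ.pw_of h (LBQ.bez3 hp)

theorem good (P : Sp) (hp : Ppr P) (f : ℕ) (hf : 1 ≤ f) :
    ∃ v1 v2 : ℤ, IsCoprime (fV P v1 v2) (f : ℤ) := by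
  obtain ⟨u, v, -, h⟩ := PP5LC.good_value (Nf P) (Bf P) (Nq P) (f : ℤ) (by omega)
    (fun p hp1 _ => hp p hp1)
  refine ⟨u, v, ?_⟩
  unfold PP5LC.bq at h
  exact h

end Pool.Agent.LBK
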