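import Mathlib

/-!
# LBK/Qrt: the imaginary part of a fifth power

`om^2 = δ om - n`: `(a + b om)^5 = x + b H(a, b) om`.
-/

set_option autoImplicit false

namespace Pool.Agent.LBK

/-- `(a + b om)^5 = x + b Hq om` -/
def Hq {R : Type*} [CommRing R] (δ n a b : R) : R :=
  5 * a ^ 4 + 10 * δ * a ^ 3 * b + 10 * (δ ^ 2 - n) * a ^ 2 * b ^ 2 +
    5 * (δ ^ 3 - 2 * δ * n) * a * b ^ 3 + (δ ^ 4 - 3 * δ ^ 2 * n + n ^ 2) * b ^ 4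

theorem Hq_id {R : Type*} [CommRing R] (δ n a b w : R) (hw : w ^ 2 = δ * w - n) :
    ∃ x : R, (a + b * w) ^ 5 = x + b * Hq δ n a b * w := by
  refine ⟨a ^ 5 - 10 * n * a ^ 3 * b ^ 2 - 10 * δ * n * a ^ 2 * b ^ 3 -
    5 * n * (δ ^ 2 - n) * a * b ^ 4 - n * (δ ^ 3 - 2 * δ * n) * b ^ 5, ?_⟩
  have h3 : w ^ 3 = (δ ^ 2 - n) * w - δ * n := by
    linear_combination (w + δ) * hw
  have h4 : w ^ 4 = (δ ^ 3 - 2 * δ * n) * w - n * (δ ^ 2 - n) := by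
    linear_combination w * h3 + (δ ^ 2 - n) * hw
  have h5 : w ^ 5 = (δ ^ 4 - 3 * δ ^ 2 * n + n ^ 2) * w - n * (δ ^ 3 - 2 * δ * n) := by
    linear_combination w * h4 + (δ ^ 3 - 2 * δ * n) * hw
  unfold Hq
  linear_combination 10 * a ^ 3 * b ^ 2 * hw + 10 * a ^ 2 * b ^ 3 * h3 +
    5 * a * b ^ 4 * h4 + b ^ 5 * h5

theorem Hq_idz (δ n a b : ℤ) : ∃ x : ℤ, ∀ w : ℂ, w ^ 2 = (δ : ℂ) * w - (n : ℂ) →
    ((a : ℂ) + (b : ℂ) * w) ^ 5 = (x : ℂ) + ((b * Hq δ n a b : ℤ) : ℂ) * w := by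
  refine ⟨a ^ 5 - 10 * n * a ^ 3 * b ^ 2 - 10 * δ * n * a ^ 2 * b ^ 3 -
    5 * n * (δ ^ 2 - n) * a * b ^ 4 - n * (δ ^ 3 - 2 * δ * n) * b ^ 5, ?_⟩
  intro w hw
  have h3 : w ^ 3 = ((δ : ℂ) ^ 2 - n) * w - δ * n := by
    linear_combination (w + δ) * hw
  have h4 : w ^ 4 = ((δ : ℂ) ^ 3 - 2 * δ * n) * w - n * ((δ : ℂ) ^ 2 - n) := by
    linear_combination w * h3 + ((δ : ℂ) ^ 2 - n) * hw
  have h5 : w ^ 5 = ((δ : ℂ) ^ 4 - 3 * δ ^ 2 * n + n ^ 2) * w - n * ((δ : ℂ) ^ 3 - 2 * δ * n) := by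
    linear_combination w * h4 + ((δ : ℂ) ^ 3 - 2 * δ * n) * hw
  unfold Hq
  push_cast
  linear_combination 10 * (a : ℂ) ^ 3 * b ^ 2 * hw + 10 * (a : ℂ) ^ 2 * b ^ 3 * h3 +
    5 * (a : ℂ) * b ^ 4 * h4 + (b : ℂ) ^ 5 * h5

end Pool.Agent.LBK
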