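import Pool.Agent.LBK.Idb
import Pool.Agent.LBK.Orf
import Pool.Agent.LBK.Prm

/-!
# LBK/Vst (size 4): the lattice `V_P` and the ideal `I_P`

`s = sK K f`.  `al_conj`: `sK_conj`.
`v1` (products): `al v * al' u = N (v1 u1 N + v1 u2 (Bf - s)/2 + v2 u1 (Bf + s)/2 + v2 u2 Nq)`
(`al'` = conjugate; `(Bf + s)(Bf - s)/4 = N Nq` by `df_eq`); `(Bf + s)/2 ∈ O_f` (`isOf_half`, `par`).
`vf`: `f om = (f δ + s)/2 = (f δ - Bf)/2 + al(0,1)`; `al(0,1) * al(1,0) = N al(0,1)`,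
`al(0,1)^2 = Bf al(0,1) - Nq al(1,0)` (as `al(1,0) = N`).
`i3`: `x + om y`, `x' + om y'` with `x, y, x', y' ∈ V`: four products from `v1`, `om`, `conj om`,
`om conj om ∈ O_K`.
`imul`: `om (x + om y) = -nn y + om (x + δ y)` (`om_sq`).
`vN`: with `a N + b Bf + c Nq = 1` (`bez`):
`N = a al(1,0) al'(1,0) + b (al(1,0) al'(0,1) + al(0,1) al'(1,0)) + c al(0,1) al'(0,1)`.
`crit`: `z ∈ V` gives `z conj v ∈ N O_f` by `v1`.  Conversely `z conj v = N (a + b f om)`; multiply by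
`v`: `N m z = N (a v + b (f om) v)`, so `m z ∈ V` (`vf`); `f z ∈ V` (`fI`); `m`, `f` coprime.
-/

set_option autoImplicit false

namespace Pool.Agent.LBK

open NumberField Pool.Agent.FTA Pool.Agent.FTB Pool.Agent.SMI Pool.Agent.PP5 nonZeroDivisors

theorem al_conj (K : IntermediateField ℚ ℂ) [NumberField K] (f : ℕ) (P : Sp) (v1 v2 : ℤ) :
    (starRingEnd ℂ) (al P (sK K f) v1 v2) = al P (-sK K f) v1 v2 := by
  unfold al
  simp only [map_add, map_mul, map_div₀, map_intCast, map_ofNat, sK_conj]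

theorem vadd (P : Sp) (s x y : ℂ) (hx : InV P s x) (hy : InV P s y) : InV P s (x + y) := by
  obtain ⟨a, b, rfl⟩ := hx
  obtain ⟨c, d, rfl⟩ := hy
  exact ⟨a + c, b + d, al_add P s a b c d⟩

theorem vint (P : Sp) (s x : ℂ) (n : ℤ) (hx : InV P s x) : InV P s ((n : ℂ) * x) := by
  obtain ⟨a, b, rfl⟩ := hx
  refine ⟨n * a, n * b, ?_⟩
  unfold al
  push_cast
  ring

private theorem Vst_s2 (K : IntermediateField ℚ ℂ) [NumberField K] (f : ℕ) (P : Sp)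
    (h : Pt K f P) : sK K f ^ 2 = (Bf P : ℂ) ^ 2 - 4 * (Nf P : ℂ) * (Nq P : ℂ) := by
  rw [sK_df K f P h, df_eq P h.qd]
  push_cast
  ring

private theorem Vst_zero (P : Sp) (s : ℂ) : InV P s 0 := by
  refine ⟨0, 0, ?_⟩
  unfold al
  simp

private theorem Vst_isO (K : IntermediateField ℚ ℂ) [NumberField K] (n : ℤ) (z : ℂ)
    (hz : IsO K z) : IsO K ((n : ℂ) * z) := by
  obtain ⟨a, b, rfl⟩ := hz
  refine ⟨n * a, n * b, ?_⟩
  push_cast
  ring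

private theorem Vst_isOf (K : IntermediateField ℚ ℂ) [NumberField K] (f : ℕ) (n : ℤ) (z : ℂ)
    (hz : IsOf K f z) : IsOf K f ((n : ℂ) * z) := by
  obtain ⟨a, b, rfl⟩ := hz
  refine ⟨n * a, n * b, ?_⟩
  push_cast
  ring

/-- products of elements of `V` -/
theorem vmul (K : IntermediateField ℚ ℂ) [NumberField K] (h2 : Module.finrank ℚ K = 2)
    (him : ∃ x : K, (x : ℂ).im ≠ 0) (f : ℕ) (P : Sp) (h : Pt K f P) (x y : ℂ)
    (hx : InV P (sK K f) x) (hy : InV P (sK K f) y) :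
    ∃ o : ℂ, IsOf K f o ∧ x * (starRingEnd ℂ) y = (Nf P : ℂ) * o := by
  obtain ⟨v1, v2, rfl⟩ := hx
  obtain ⟨u1, u2, rfl⟩ := hy
  have hs := Vst_s2 K f P h
  have hb : IsOf K f (((Bf P : ℂ) + sK K f) / 2) := isOf_half K f (Bf P) (par K h2 him f P h).1
  have hb' : IsOf K f (((Bf P : ℂ) - sK K f) / 2) := by
    have h1 := isOf_conj K f _ hb
    have h3 : (starRingEnd ℂ) (((Bf P : ℂ) + sK K f) / 2) = ((Bf P : ℂ) - sK K f) / 2 := by
      simp only [map_add, map_div₀, map_intCast, map_ofNat, sK_conj]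
      ring
    rwa [h3] at h1
  refine ⟨((v1 * u1 * Nf P + v2 * u2 * Nq P : ℤ) : ℂ)
    + ((v1 * u2 : ℤ) : ℂ) * (((Bf P : ℂ) - sK K f) / 2)
    + ((v2 * u1 : ℤ) : ℂ) * (((Bf P : ℂ) + sK K f) / 2), ?_, ?_⟩
  · exact isOf_add K f _ _ (isOf_add K f _ _ (isOf_int K f _) (Vst_isOf K f _ _ hb'))
      (Vst_isOf K f _ _ hb)
  · rw [al_conj]
    unfold al
    push_cast
    linear_combination (-(v2 : ℂ) * (u2 : ℂ) / 4) * hs

/-- `f om V ⊆ V` -/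
theorem vf (K : IntermediateField ℚ ℂ) [NumberField K] (h2 : Module.finrank ℚ K = 2)
    (him : ∃ x : K, (x : ℂ).im ≠ 0) (f : ℕ) (P : Sp) (h : Pt K f P) (x : ℂ)
    (hx : InV P (sK K f) x) : InV P (sK K f) ((f : ℂ) * om K * x) := by
  obtain ⟨v1, v2, rfl⟩ := hx
  have hs := Vst_s2 K f P h
  obtain ⟨k, hk⟩ := (par K h2 him f P h).1
  have hk' : (Bf P : ℂ) = (f : ℂ) * ((aD K % 2 : ℕ) : ℂ) + 2 * (k : ℂ) := by
    have h1 : Bf P = (f : ℤ) * ((aD K % 2 : ℕ) : ℤ) + 2 * k := by linarith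
    rw [h1, Int.cast_add, Int.cast_mul, Int.cast_natCast, Int.cast_natCast, Int.cast_mul,
      Int.cast_ofNat]
  have hf : (f : ℂ) * om K = ((Bf P : ℂ) + sK K f) / 2 - (k : ℂ) := by
    rw [hk']
    unfold om sK
    ring
  refine ⟨-k * v1 - v2 * Nq P, -k * v2 + v1 * Nf P + v2 * Bf P, ?_⟩
  rw [hf]
  unfold al
  push_cast
  linear_combination ((v2 : ℂ) / 4) * hs

theorem vI (K : IntermediateField ℚ ℂ) [NumberField K] (P : Sp) (s x : ℂ) (hx : InV P s x) :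
    InI K P s x :=
  ⟨x, 0, hx, Vst_zero P s, by rw [mul_zero, add_zero]⟩

theorem iadd (K : IntermediateField ℚ ℂ) [NumberField K] (P : Sp) (s x y : ℂ)
    (hx : InI K P s x) (hy : InI K P s y) : InI K P s (x + y) := by
  obtain ⟨x1, x2, h1, h2, rfl⟩ := hx
  obtain ⟨y1, y2, h3, h4, rfl⟩ := hy
  exact ⟨x1 + y1, x2 + y2, vadd P s _ _ h1 h3, vadd P s _ _ h2 h4, by ring⟩

theorem imul (K : IntermediateField ℚ ℂ) [NumberField K] (h2 : Module.finrank ℚ K = 2)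
    (him : ∃ x : K, (x : ℂ).im ≠ 0) (P : Sp) (s x o : ℂ) (hx : InI K P s x) (ho : IsO K o) :
    InI K P s (o * x) := by
  obtain ⟨u, v, hu, hv, rfl⟩ := hx
  obtain ⟨a, b, rfl⟩ := ho
  have hom := om_sq K h2 him
  refine ⟨((a : ℤ) : ℂ) * u + ((-(b * nn K) : ℤ) : ℂ) * v,
    ((b : ℤ) : ℂ) * u + ((a + b * ((aD K % 2 : ℕ) : ℤ) : ℤ) : ℂ) * v,
    vadd P s _ _ (vint P s _ _ hu) (vint P s _ _ hv),
    vadd P s _ _ (vint P s _ _ hu) (vint P s _ _ hv), ?_⟩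
  rw [Int.cast_add, Int.cast_neg, Int.cast_mul, Int.cast_mul, Int.cast_natCast]
  linear_combination ((b : ℂ) * v) * hom

/-- `f I ⊆ V` -/
theorem fI (K : IntermediateField ℚ ℂ) [NumberField K] (h2 : Module.finrank ℚ K = 2)
    (him : ∃ x : K, (x : ℂ).im ≠ 0) (f : ℕ) (P : Sp) (h : Pt K f P) (x : ℂ)
    (hx : InI K P (sK K f) x) : InV P (sK K f) ((f : ℂ) * x) := by
  obtain ⟨u, v, hu, hv, rfl⟩ := hx
  have h1 : InV P (sK K f) (((f : ℤ) : ℂ) * u + (f : ℂ) * om K * v) :=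
    vadd P _ _ _ (vint P _ _ _ hu) (vf K h2 him f P h v hv)
  have h3 : ((f : ℤ) : ℂ) * u + (f : ℂ) * om K * v = (f : ℂ) * (u + om K * v) := by
    push_cast
    ring
  rwa [h3] at h1

/-- `I conj I ⊆ N O_K` -/
theorem i3 (K : IntermediateField ℚ ℂ) [NumberField K] (h2 : Module.finrank ℚ K = 2)
    (him : ∃ x : K, (x : ℂ).im ≠ 0) (f : ℕ) (P : Sp) (h : Pt K f P) (x y : ℂ)
    (hx : InI K P (sK K f) x) (hy : InI K P (sK K f) y) :
    ∃ o : ℂ, IsO K o ∧ x * (starRingEnd ℂ) y = (Nf P : ℂ) * o := by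
  obtain ⟨x1, x2, hx1, hx2, rfl⟩ := hx
  obtain ⟨y1, y2, hy1, hy2, rfl⟩ := hy
  obtain ⟨o1, p1, q1⟩ := vmul K h2 him f P h x1 y1 hx1 hy1
  obtain ⟨o2, p2, q2⟩ := vmul K h2 him f P h x1 y2 hx1 hy2
  obtain ⟨o3, p3, q3⟩ := vmul K h2 him f P h x2 y1 hx2 hy1
  obtain ⟨o4, p4, q4⟩ := vmul K h2 him f P h x2 y2 hx2 hy2
  have hom := isO_om K
  have hom' := isO_conj K _ hom
  refine ⟨o1 + (starRingEnd ℂ) (om K) * o2 + (om K * o3
    + om K * (starRingEnd ℂ) (om K) * o4), ?_, ?_⟩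
  · exact isO_add K _ _ (isO_add K _ _ (isOf_isO K f _ p1)
      (isO_mul K h2 him _ _ hom' (isOf_isO K f _ p2)))
      (isO_add K _ _ (isO_mul K h2 him _ _ hom (isOf_isO K f _ p3))
        (isO_mul K h2 him _ _ (isO_mul K h2 him _ _ hom hom') (isOf_isO K f _ p4)))
  · rw [map_add, map_mul]
    linear_combination q1 + (starRingEnd ℂ) (om K) * q2 + om K * q3
      + om K * (starRingEnd ℂ) (om K) * q4

/-- `N ∈ V conj V` -/
theorem vN (K : IntermediateField ℚ ℂ) [NumberField K] (f : ℕ) (P : Sp) (h : Pt K f P)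
    (c m : ℂ) (hc : ∀ x y : ℂ, InV P (sK K f) x → InV P (sK K f) y →
      ∃ o : ℂ, IsO K o ∧ c * (x * (starRingEnd ℂ) y) = m * o) :
    ∃ o : ℂ, IsO K o ∧ c * (Nf P : ℂ) = m * o := by
  have hs := Vst_s2 K f P h
  obtain ⟨a, b, d, habd⟩ := bez P h.pp
  have hA : InV P (sK K f) (al P (sK K f) 1 0) := ⟨1, 0, rfl⟩
  have hB : InV P (sK K f) (al P (sK K f) 0 1) := ⟨0, 1, rfl⟩
  obtain ⟨o1, p1, q1⟩ := hc _ _ hA hA
  obtain ⟨o2, p2, q2⟩ := hc _ _ hA hB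
  obtain ⟨o3, p3, q3⟩ := hc _ _ hB hA
  obtain ⟨o4, p4, q4⟩ := hc _ _ hB hB
  refine ⟨(a : ℂ) * o1 + ((b : ℂ) * (o2 + o3) + (d : ℂ) * o4), ?_, ?_⟩
  · exact isO_add K _ _ (Vst_isO K _ _ p1) (isO_add K _ _
      (Vst_isO K _ _ (isO_add K _ _ p2 p3)) (Vst_isO K _ _ p4))
  · rw [al_conj] at q1 q2 q3 q4
    have habd' : (a : ℂ) * (Nf P : ℂ) + (b : ℂ) * (Bf P : ℂ) + (d : ℂ) * (Nq P : ℂ) = 1 := by
      exact_mod_cast habd
    unfold al at q1 q2 q3 q4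
    push_cast at q1 q2 q3 q4
    linear_combination (a : ℂ) * q1 + (b : ℂ) * (q2 + q3) + (d : ℂ) * q4
      - (c * (Nf P : ℂ)) * habd' + (c * (d : ℂ) / 4) * hs

/-- the criterion for `z ∈ V` -/
theorem crit (K : IntermediateField ℚ ℂ) [NumberField K] (h2 : Module.finrank ℚ K = 2)
    (him : ∃ x : K, (x : ℂ).im ≠ 0) (f : ℕ) (P : Sp) (h : Pt K f P) (v : ℂ) (m : ℤ)
    (hv : InV P (sK K f) v) (hvm : v * (starRingEnd ℂ) v = (Nf P : ℂ) * (m : ℂ))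
    (hm : IsCoprime m (f : ℤ)) (z : ℂ) (hz : InI K P (sK K f) z) :
    InV P (sK K f) z ↔ ∃ o : ℂ, IsOf K f o ∧ z * (starRingEnd ℂ) v = (Nf P : ℂ) * o := by
  constructor
  · intro hzV
    exact vmul K h2 him f P h z v hzV hv
  · rintro ⟨o, ⟨a, b, rfl⟩, ho⟩
    have hN : (Nf P : ℂ) ≠ 0 := by
      have h1 := (pos P h.qd (df_neg K f P h)).1
      exact_mod_cast h1.ne'
    have h1 : (m : ℂ) * z = (a : ℂ) * v + (b : ℂ) * ((f : ℂ) * om K * v) := by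
      apply mul_left_cancel₀ hN
      linear_combination v * ho - z * hvm
    have h3 : InV P (sK K f) ((m : ℂ) * z) := by
      rw [h1]
      exact vadd P _ _ _ (vint P _ _ _ hv) (vint P _ _ _ (vf K h2 him f P h v hv))
    have h4 : InV P (sK K f) ((f : ℂ) * z) := fI K h2 him f P h z hz
    obtain ⟨p, q, hpq⟩ := hm
    have h5 : z = (p : ℂ) * ((m : ℂ) * z) + (q : ℂ) * ((f : ℂ) * z) := by
      have h6 : (p : ℂ) * (m : ℂ) + (q : ℂ) * (f : ℂ) = 1 := by exact_mod_cast hpq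
      linear_combination (-z) * h6
    rw [h5]
    exact vadd P _ _ _ (vint P _ _ _ h3) (vint P _ _ _ h4)

end Pool.Agent.LBK
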