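import Pool.Agent.LBK.Kap
import Pool.Agent.LBK.Fif

/-!
# LBK/Zel (size 4): the element `z = v conj v1 / (k N1)`

`P1` is the reference point, `I_P = k I_P1`, `ga P = k^5 ga P1`, `v ∈ V_P`, `v1 ∈ V_P1`,
`|v|^2 = N m`, `|v1|^2 = N1 m1`.
`zel`: `v / k ∈ I_P1`, so `z ∈ O_K` by `i3`; `z conj z = m m1` by `kap`;
`z^5 = v^5 conj(v1)^5 / (k^5 N1^5) = ga P o conj(ga P1) conj(o1) / (k^5 N1^5) = o conj(o1)` by `fif` and
`gg` (`conj (ga P1) = ga P1 (-s)`).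
`zcmp`: for `u ∈ I_P1` put `w = u conj v1 / N1 ∈ O_K` (`i3`).  `conj v = conj(z) conj(k) N1 / v1`, so
`k u conj v / N = |k|^2 N1 u conj(z) / (N v1) = u conj(z) / v1 = w conj(z) / m1` (`kap`;
`v1 conj v1 = N1 m1`).  By `crit` (with `i3` and `isOf_cop`): `k u ∈ V_P ↔ w conj(z) ∈ O_f`.  The same
for `P', k', z'`.  If `z = t z' + f o` then `w conj z = t w conj z' + f w conj o`, and `t` is prime to `f`
(`m m1 = z conj z = t^2 m' m1 + f (..)`), so `w conj z ∈ O_f ↔ w conj z' ∈ O_f` (`isOf_cop`).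
-/

set_option autoImplicit false

namespace Pool.Agent.LBK

open NumberField Pool.Agent.FTA Pool.Agent.FTB Pool.Agent.SMI Pool.Agent.PP5 nonZeroDivisors

private theorem Zel_ga_conj (K : IntermediateField ℚ ℂ) [NumberField K] (f : ℕ) (P : Sp) :
    (starRingEnd ℂ) (ga P (sK K f)) = ga P (-sK K f) := by
  unfold ga
  rw [map_sub, map_mul, map_mul, map_div₀, map_add, sK_conj, map_ofNat]
  simp only [map_intCast]

private theorem Zel_N (K : IntermediateField ℚ ℂ) [NumberField K] (f : ℕ) (P : Sp) (h : Pt K f P) :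
    (Nf P : ℂ) ≠ 0 := by
  have h1 := (pos P h.qd (df_neg K f P h)).1
  exact_mod_cast h1.ne'

private theorem Zel_O (K : IntermediateField ℚ ℂ) [NumberField K] (h2 : Module.finrank ℚ K = 2)
    (him : ∃ x : K, (x : ℂ).im ≠ 0) (f : ℕ) (P P1 : Sp) (h1 : Pt K f P1) (k : ℂ)
    (hk : k ≠ 0) (hI : ∀ z : ℂ, InI K P1 (sK K f) z ↔ InI K P (sK K f) (k * z))
    (v v1 : ℂ) (hv : InV P (sK K f) v) (hv1 : InV P1 (sK K f) v1) :
    IsO K (v * (starRingEnd ℂ) v1 / (k * (Nf P1 : ℂ))) := by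
  have hvk : InI K P1 (sK K f) (v / k) := by
    rw [hI, mul_div_cancel₀ _ hk]
    exact vI K P _ v hv
  obtain ⟨o, ho, e⟩ := i3 K h2 him f P1 h1 (v / k) v1 hvk (vI K P1 _ v1 hv1)
  have hN := Zel_N K f P1 h1
  have e2 : v * (starRingEnd ℂ) v1 / (k * (Nf P1 : ℂ)) = o := by
    rw [div_eq_iff (mul_ne_zero hk hN)]
    have e3 : v * (starRingEnd ℂ) v1 = k * (v / k * (starRingEnd ℂ) v1) := by
      rw [← mul_assoc, mul_div_cancel₀ _ hk]
    rw [e3, e]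
    ring
  rw [e2]
  exact ho

private theorem Zel_norm (K : IntermediateField ℚ ℂ) [NumberField K] (h2 : Module.finrank ℚ K = 2)
    (him : ∃ x : K, (x : ℂ).im ≠ 0) (f : ℕ) (P P1 : Sp) (h : Pt K f P) (h1 : Pt K f P1) (k : ℂ)
    (hk : k ≠ 0) (hI : ∀ z : ℂ, InI K P1 (sK K f) z ↔ InI K P (sK K f) (k * z))
    (v v1 : ℂ) (m m1 : ℤ)
    (hm : v * (starRingEnd ℂ) v = (Nf P : ℂ) * (m : ℂ))
    (hm1 : v1 * (starRingEnd ℂ) v1 = (Nf P1 : ℂ) * (m1 : ℂ)) :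
      v * (starRingEnd ℂ) v1 / (k * (Nf P1 : ℂ)) *
        (starRingEnd ℂ) (v * (starRingEnd ℂ) v1 / (k * (Nf P1 : ℂ))) = (m : ℂ) * (m1 : ℂ) := by
  have hN := Zel_N K f P1 h1
  have hN0 := Zel_N K f P h
  have hkap := kap K h2 him f P P1 h h1 k hk hI
  have hck : (starRingEnd ℂ) k ≠ 0 := by
    rw [Ne, map_eq_zero]
    exact hk
  rw [map_div₀, map_mul, map_mul, Complex.conj_conj, map_intCast, div_mul_div_comm,
    div_eq_iff (mul_ne_zero (mul_ne_zero hk hN) (mul_ne_zero hck hN))]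
  have e1 : v * (starRingEnd ℂ) v1 * ((starRingEnd ℂ) v * v1)
      = (v * (starRingEnd ℂ) v) * (v1 * (starRingEnd ℂ) v1) := by ring
  rw [e1, hm, hm1, ← hkap]
  ring

private theorem Zel_V (K : IntermediateField ℚ ℂ) [NumberField K] (h2 : Module.finrank ℚ K = 2)
    (him : ∃ x : K, (x : ℂ).im ≠ 0) (f : ℕ) (P P1 : Sp) (h : Pt K f P) (h1 : Pt K f P1) (k : ℂ)
    (hk : k ≠ 0) (hI : ∀ z : ℂ, InI K P1 (sK K f) z ↔ InI K P (sK K f) (k * z))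
    (v v1 : ℂ) (m m1 : ℤ) (hv : InV P (sK K f) v)
    (hm : v * (starRingEnd ℂ) v = (Nf P : ℂ) * (m : ℂ))
    (hm1 : v1 * (starRingEnd ℂ) v1 = (Nf P1 : ℂ) * (m1 : ℂ))
    (c : IsCoprime m (f : ℤ)) (c1 : IsCoprime m1 (f : ℤ)) (u w : ℂ)
    (hu : InI K P1 (sK K f) u) (hw : u * (starRingEnd ℂ) v1 = (Nf P1 : ℂ) * w) :
    InV P (sK K f) (k * u) ↔
      IsOf K f (w * (starRingEnd ℂ) (v * (starRingEnd ℂ) v1 / (k * (Nf P1 : ℂ)))) := by
  have hN := Zel_N K f P1 h1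
  have hN0 := Zel_N K f P h
  have hkap := kap K h2 him f P P1 h h1 k hk hI
  have hck : (starRingEnd ℂ) k ≠ 0 := by
    rw [Ne, map_eq_zero]
    exact hk
  have hku : InI K P (sK K f) (k * u) := (hI u).1 hu
  have key : (Nf P : ℂ) * (w * (starRingEnd ℂ) (v * (starRingEnd ℂ) v1 / (k * (Nf P1 : ℂ))))
      = (m1 : ℂ) * (k * u * (starRingEnd ℂ) v) := by
    rw [map_div₀, map_mul, map_mul, Complex.conj_conj, map_intCast]
    have e1 : w = u * (starRingEnd ℂ) v1 / (Nf P1 : ℂ) := by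
      rw [hw, mul_div_cancel_left₀ _ hN]
    rw [e1, ← hkap]
    field_simp
    linear_combination (u * (starRingEnd ℂ) v) * hm1
  rw [crit K h2 him f P h v m hv hm c (k * u) hku]
  constructor
  · rintro ⟨o, ho, e⟩
    have e2 : w * (starRingEnd ℂ) (v * (starRingEnd ℂ) v1 / (k * (Nf P1 : ℂ))) = (m1 : ℂ) * o := by
      apply mul_left_cancel₀ hN0
      rw [key, e]
      ring
    rw [e2]
    exact isOf_mul K h2 him f _ _ (isOf_int K f m1) ho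
  · intro hz
    obtain ⟨o, ho, e⟩ := i3 K h2 him f P h (k * u) v hku (vI K P _ v hv)
    refine ⟨o, ?_, e⟩
    apply isOf_cop K f m1 c1 o ho
    have e2 : w * (starRingEnd ℂ) (v * (starRingEnd ℂ) v1 / (k * (Nf P1 : ℂ))) = (m1 : ℂ) * o := by
      apply mul_left_cancel₀ hN0
      rw [key, e]
      ring
    rw [← e2]
    exact hz

theorem zel (K : IntermediateField ℚ ℂ) [NumberField K] (h2 : Module.finrank ℚ K = 2)
    (him : ∃ x : K, (x : ℂ).im ≠ 0) (f : ℕ) (P P1 : Sp) (h : Pt K f P) (h1 : Pt K f P1) (k : ℂ)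
    (hk : k ≠ 0) (hI : ∀ z : ℂ, InI K P1 (sK K f) z ↔ InI K P (sK K f) (k * z))
    (hg : ga P (sK K f) = k ^ 5 * ga P1 (sK K f)) (v v1 : ℂ) (m m1 : ℤ)
    (hv : InV P (sK K f) v) (hv1 : InV P1 (sK K f) v1)
    (hm : v * (starRingEnd ℂ) v = (Nf P : ℂ) * (m : ℂ))
    (hm1 : v1 * (starRingEnd ℂ) v1 = (Nf P1 : ℂ) * (m1 : ℂ)) :
    IsO K (v * (starRingEnd ℂ) v1 / (k * (Nf P1 : ℂ))) ∧
      v * (starRingEnd ℂ) v1 / (k * (Nf P1 : ℂ)) *
        (starRingEnd ℂ) (v * (starRingEnd ℂ) v1 / (k * (Nf P1 : ℂ))) = (m : ℂ) * (m1 : ℂ) ∧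
      IsOf K f ((v * (starRingEnd ℂ) v1 / (k * (Nf P1 : ℂ))) ^ 5) := by
  refine ⟨Zel_O K h2 him f P P1 h1 k hk hI v v1 hv hv1,
    Zel_norm K h2 him f P P1 h h1 k hk hI v v1 m m1 hm hm1, ?_⟩
  have hN := Zel_N K f P1 h1
  obtain ⟨o, ho, e⟩ := fif K h2 him f P h v hv
  obtain ⟨o1, ho1, e1⟩ := fif K h2 him f P1 h1 v1 hv1
  have hg1 := gg P1 h1.qd (df_neg K f P1 h1) (sK K f) (sK_df K f P1 h1)
  rw [← Zel_ga_conj] at hg1
  have e2 : (v * (starRingEnd ℂ) v1 / (k * (Nf P1 : ℂ))) ^ 5 = o * (starRingEnd ℂ) o1 := by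
    rw [div_pow, mul_pow, ← map_pow, e, e1, map_mul, hg, mul_pow,
      div_eq_iff (mul_ne_zero (pow_ne_zero 5 hk) (pow_ne_zero 5 hN)), ← hg1]
    ring
  rw [e2]
  exact isOf_mul K h2 him f _ _ ho (isOf_conj K f _ ho1)

theorem zcmp (K : IntermediateField ℚ ℂ) [NumberField K] (h2 : Module.finrank ℚ K = 2)
    (him : ∃ x : K, (x : ℂ).im ≠ 0) (f : ℕ) (P P' P1 : Sp) (h : Pt K f P) (h' : Pt K f P')
    (h1 : Pt K f P1) (k k' : ℂ) (hk : k ≠ 0) (hk' : k' ≠ 0)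
    (hI : ∀ z : ℂ, InI K P1 (sK K f) z ↔ InI K P (sK K f) (k * z))
    (hI' : ∀ z : ℂ, InI K P1 (sK K f) z ↔ InI K P' (sK K f) (k' * z)) (v v' v1 : ℂ) (m m' m1 : ℤ)
    (hv : InV P (sK K f) v) (hv' : InV P' (sK K f) v') (hv1 : InV P1 (sK K f) v1)
    (hm : v * (starRingEnd ℂ) v = (Nf P : ℂ) * (m : ℂ))
    (hm' : v' * (starRingEnd ℂ) v' = (Nf P' : ℂ) * (m' : ℂ))
    (hm1 : v1 * (starRingEnd ℂ) v1 = (Nf P1 : ℂ) * (m1 : ℂ))
    (c : IsCoprime m (f : ℤ)) (c' : IsCoprime m' (f : ℤ)) (c1 : IsCoprime m1 (f : ℤ)) (t : ℤ)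
    (o : ℂ) (ho : IsO K o)
    (ht : v * (starRingEnd ℂ) v1 / (k * (Nf P1 : ℂ)) =
      (t : ℂ) * (v' * (starRingEnd ℂ) v1 / (k' * (Nf P1 : ℂ))) + (f : ℂ) * o) (u : ℂ)
    (hu : InI K P1 (sK K f) u) : InV P (sK K f) (k * u) ↔ InV P' (sK K f) (k' * u) := by
  obtain ⟨w, hw, ew⟩ := i3 K h2 him f P1 h1 u v1 hu (vI K P1 _ v1 hv1)
  rw [Zel_V K h2 him f P P1 h h1 k hk hI v v1 m m1 hv hm hm1 c c1 u w hu ew,
    Zel_V K h2 him f P' P1 h' h1 k' hk' hI' v' v1 m' m1 hv' hm' hm1 c' c1 u w hu ew]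
  have hz := Zel_norm K h2 him f P P1 h h1 k hk hI v v1 m m1 hm hm1
  have hz' := Zel_norm K h2 him f P' P1 h' h1 k' hk' hI' v' v1 m' m1 hm' hm1
  have hO' := Zel_O K h2 him f P' P1 h1 k' hk' hI' v' v1 hv' hv1
  rw [ht] at hz
  rw [ht]
  set z' : ℂ := v' * (starRingEnd ℂ) v1 / (k' * (Nf P1 : ℂ)) with hz'def
  have hcz : IsO K ((starRingEnd ℂ) z') := isO_conj K _ hO'
  have hco : IsO K ((starRingEnd ℂ) o) := isO_conj K _ ho
  -- the number `t` is prime to `f`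
  have hX : IsO K ((t : ℂ) * (z' * (starRingEnd ℂ) o) + ((t : ℂ) * ((starRingEnd ℂ) z' * o)
      + (f : ℂ) * (o * (starRingEnd ℂ) o))) := by
    have hff : IsO K ((f : ℂ) * (o * (starRingEnd ℂ) o)) :=
      isOf_isO K f _ (isOf_f K f _ (isO_mul K h2 him _ _ ho hco))
    exact isO_add K _ _ (isO_mul K h2 him _ _ (isO_int K t) (isO_mul K h2 him _ _ hO' hco))
      (isO_add K _ _ (isO_mul K h2 him _ _ (isO_int K t) (isO_mul K h2 him _ _ hcz ho)) hff)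
  obtain ⟨n, hn⟩ := isO_real K _ hX (by
    simp only [map_add, map_mul, map_intCast, map_natCast, Complex.conj_conj]
    ring)
  have hnum : (m * m1 : ℤ) = t * (t * (m' * m1)) + (f : ℤ) * n := by
    have h3 : (m : ℂ) * (m1 : ℂ) = (t : ℂ) * ((t : ℂ) * ((m' : ℂ) * (m1 : ℂ))) + (f : ℂ) * (n : ℂ) := by
      rw [← hz, ← hn, ← hz', map_add, map_mul, map_mul, map_intCast, map_natCast]
      ring
    exact_mod_cast h3
  have hct : IsCoprime t (f : ℤ) := by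
    have h3 : IsCoprime (m * m1) (f : ℤ) := c.mul_left c1
    rw [hnum] at h3
    have h4 : IsCoprime (t * (t * (m' * m1))) (f : ℤ) := by
      exact (IsCoprime.add_mul_left_left_iff).1 h3
    exact h4.of_mul_left_left
  have hfo : IsOf K f ((f : ℂ) * (w * (starRingEnd ℂ) o)) :=
    isOf_f K f _ (isO_mul K h2 him _ _ hw hco)
  have e : w * (starRingEnd ℂ) ((t : ℂ) * z' + (f : ℂ) * o) =
      (t : ℂ) * (w * (starRingEnd ℂ) z') + (f : ℂ) * (w * (starRingEnd ℂ) o) := by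
    rw [map_add, map_mul, map_mul, map_intCast, map_natCast]
    ring
  rw [e]
  constructor
  · intro h3
    apply isOf_cop K f t hct _ (isO_mul K h2 him _ _ hw hcz)
    have h4 := isOf_add K f _ _ h3 (isOf_neg K f _ hfo)
    rw [add_neg_cancel_right] at h4
    exact h4
  · intro h3
    exact isOf_add K f _ _ (isOf_mul K h2 him f _ _ (isOf_int K f t) h3) hfo

end Pool.Agent.LBK
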